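import Pool.Agent.Helper76.SH.Defs

/-! # MP_506470_co, module A: basic facts on triangle-free set-homogeneous graphs -/

namespace SetHom

namespace BasicsAux

variable {V : Type*} {G : SimpleGraph V}

theorem sh_maps (hs : SetHomogeneous G) {W : Type*} [Finite W] (f g : W → V)
    (hf : Function.Injective f) (hg : Function.Injective g)
    (h : ∀ i j, G.Adj (f i) (f j) ↔ G.Adj (g i) (g j)) :
    ∃ φ : G ≃g G, φ '' Set.range f = Set.range g := by
  classical
  have hf' : (Set.range f).Finite := Set.finite_range f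
  have hg' : (Set.range g).Finite := Set.finite_range g
  have key : Nonempty (G.induce (Set.range f) ≃g G.induce (Set.range g)) := by
    refine ⟨⟨(Equiv.ofInjective f hf).symm.trans (Equiv.ofInjective g hg), ?_⟩⟩
    rintro ⟨_, i, rfl⟩ ⟨_, j, rfl⟩
    simp only [Equiv.trans_apply, SimpleGraph.comap_adj, Function.Embedding.subtype_apply,
      Equiv.ofInjective_symm_apply, Equiv.ofInjective_apply]
    exact (h i j).symm
  have := hs hf'.toFinset hg'.toFinset
  rw [Set.Finite.coe_toFinset, Set.Finite.coe_toFinset] at this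
  exact this key

theorem trans (hs : SetHomogeneous G) (u v : V) : ∃ φ : G ≃g G, φ u = v := by
  obtain ⟨φ, h⟩ := sh_maps hs (fun _ : Unit => u) (fun _ => v) (fun _ _ _ => rfl)
    (fun _ _ _ => rfl) (fun _ _ => by simp)
  have h1 : φ u ∈ Set.range (fun _ : Unit => v) := by
    rw [← h]
    exact ⟨u, ⟨(), rfl⟩, rfl⟩
  obtain ⟨_, h2⟩ := h1
  exact ⟨φ, h2.symm⟩

/-- pairs of non-adjacent vertices -/
theorem pair (hs : SetHomogeneous G) {u v x y : V} (huv : u ≠ v) (hn : ¬ G.Adj u v)
    (hxy : x ≠ y) (hn' : ¬ G.Adj x y) :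
    ∃ φ : G ≃g G, (φ u = x ∧ φ v = y) ∨ (φ u = y ∧ φ v = x) := by
  have hinj : ∀ {a b : V}, a ≠ b → Function.Injective (fun t : Bool => if t then a else b) := by
    rintro a b hab (_ | _) (_ | _) h <;> simp at h ⊢
    · exact hab h.symm
    · exact hab h
  obtain ⟨φ, h⟩ := sh_maps hs (fun t : Bool => if t then u else v)
    (fun t : Bool => if t then x else y) (hinj huv) (hinj hxy) (by
      have h1 : ¬ G.Adj v u := fun h => hn h.symm
      have h2 : ¬ G.Adj y x := fun h => hn' h.symm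
      rintro (_ | _) (_ | _) <;> simp [hn, hn', h1, h2])
  have h1 : φ u ∈ Set.range (fun t : Bool => if t then x else y) := by
    rw [← h]
    exact ⟨u, ⟨true, by simp⟩, rfl⟩
  have h2 : φ v ∈ Set.range (fun t : Bool => if t then x else y) := by
    rw [← h]
    exact ⟨v, ⟨false, by simp⟩, rfl⟩
  obtain ⟨s, hs1⟩ := h1
  obtain ⟨t, ht1⟩ := h2
  refine ⟨φ, ?_⟩
  rcases s with _ | _ <;> rcases t with _ | _ <;> simp at hs1 ht1
  · exact absurd (φ.injective (hs1.symm.trans ht1)) huv
  · exact Or.inr ⟨hs1.symm, ht1.symm⟩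
  · exact Or.inl ⟨hs1.symm, ht1.symm⟩
  · exact absurd (φ.injective (hs1.symm.trans ht1)) huv

theorem exists_common (hs : SetHomogeneous G) (tf : TF G)
    (hP : ∃ a b c, G.Adj a b ∧ G.Adj b c ∧ a ≠ c) {u v : V} (huv : u ≠ v) (hn : ¬ G.Adj u v) :
    ∃ w, G.Adj w u ∧ G.Adj w v := by
  obtain ⟨a, b, c, hab, hbc, hac⟩ := hP
  obtain ⟨φ, h⟩ := pair hs hac (fun h => tf a b c hab hbc h) huv hn
  have h1 : G.Adj (φ b) (φ a) := φ.map_adj_iff.2 hab.symm
  have h2 : G.Adj (φ b) (φ c) := φ.map_adj_iff.2 hbc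
  rcases h with ⟨e1, e2⟩ | ⟨e1, e2⟩
  · exact ⟨φ b, e1 ▸ h1, e2 ▸ h2⟩
  · exact ⟨φ b, e2 ▸ h2, e1 ▸ h1⟩

/-- an automorphism maps neighbourhoods to neighbourhoods -/
theorem image_nbr (φ : G ≃g G) (v : V) : φ '' G.neighborSet v = G.neighborSet (φ v) := by
  ext y
  constructor
  · rintro ⟨x, hx, rfl⟩
    exact φ.map_adj_iff.2 hx
  · intro hy
    refine ⟨φ.symm y, ?_, by simp⟩
    have : G.Adj (φ v) (φ (φ.symm y)) := by simpa using hy
    exact φ.map_adj_iff.1 this

theorem infdeg [Infinite V] (hs : SetHomogeneous G) (tf : TF G)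
    (hP : ∃ a b c, G.Adj a b ∧ G.Adj b c ∧ a ≠ c) (v : V) : (G.neighborSet v).Infinite := by
  intro hv
  have hall : ∀ x, (G.neighborSet x).Finite := by
    intro x
    obtain ⟨φ, hφ⟩ := trans hs v x
    rw [← hφ, ← image_nbr]
    exact hv.image _
  have hfin : (({v} ∪ G.neighborSet v) ∪ ⋃ x ∈ G.neighborSet v, G.neighborSet x).Finite :=
    ((Set.finite_singleton v).union hv).union (hv.biUnion fun x _ => hall x)
  apply Set.infinite_univ (α := V)
  apply hfin.subset
  intro u _
  by_cases h1 : u = v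
  · left; left; exact h1
  by_cases h2 : G.Adj v u
  · left; right; exact h2
  right
  obtain ⟨w, hw1, hw2⟩ := exists_common hs tf hP (fun h => h1 h.symm) h2
  rw [Set.mem_iUnion₂]
  exact ⟨w, hw1.symm, hw2⟩

/-- maps of independent sets of the same size -/
theorem indep_map (hs : SetHomogeneous G) {S I : Finset V} (hS : Indep G S) (hI : Indep G I)
    (hc : S.card = I.card) : ∃ φ : G ≃g G, φ '' (S : Set V) = (I : Set V) := by
  have e : S ≃ I := Finset.equivOfCardEq hc
  obtain ⟨φ, h⟩ := sh_maps hs (fun x : S => x.1) (fun x : S => (e x).1)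
    Subtype.val_injective (Subtype.val_injective.comp e.injective) (by
      intro i j
      have h1 := hS i.1 i.2 j.1 j.2
      have h2 := hI (e i).1 (e i).2 (e j).1 (e j).2
      simp [h1, h2])
  refine ⟨φ, ?_⟩
  have e1 : Set.range (fun x : S => x.1) = (S : Set V) := by
    ext x
    simp
  have e2 : Set.range (fun x : S => (e x).1) = (I : Set V) := by
    ext x
    constructor
    · rintro ⟨y, rfl⟩
      exact (e y).2
    · intro hx
      exact ⟨e.symm ⟨x, hx⟩, by simp⟩
  rw [e1, e2] at h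
  exact h

theorem common [Infinite V] (hs : SetHomogeneous G) (tf : TF G)
    (hP : ∃ a b c, G.Adj a b ∧ G.Adj b c ∧ a ≠ c) (I : Finset V) (hI : Indep G I) :
    ∃ v, ∀ x ∈ I, G.Adj v x := by
  obtain ⟨v⟩ : Nonempty V := inferInstance
  obtain ⟨S, hS1, hS2⟩ := (infdeg hs tf hP v).exists_subset_card_eq I.card
  obtain ⟨φ, h⟩ := indep_map hs (S := S) (I := I) (by
    intro x hx y hy hxy
    exact tf v x y (hS1 hx) hxy (hS1 hy)) hI hS2
  refine ⟨φ v, fun x hx => ?_⟩
  have hx' : x ∈ φ '' (S : Set V) := by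
    rw [h]
    exact hx
  obtain ⟨s, hs', rfl⟩ := hx'
  exact φ.map_adj_iff.2 (hS1 hs')

theorem inter [Infinite V] (hs : SetHomogeneous G) (tf : TF G)
    (hP : ∃ a b c, G.Adj a b ∧ G.Adj b c ∧ a ≠ c) (u v : V) (huv : u ≠ v)
    (hn : ¬ G.Adj u v) : (G.neighborSet u ∩ G.neighborSet v).Infinite := by
  classical
  intro hfin
  have hinf : (G.neighborSet v \ G.neighborSet u).Infinite := by
    intro h
    apply infdeg hs tf hP v
    apply (h.union hfin).subset
    intro x hx
    by_cases hxu : x ∈ G.neighborSet u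
    · exact Or.inr ⟨hxu, hx⟩
    · exact Or.inl ⟨hx, hxu⟩
  obtain ⟨J, hJ1, hJ2⟩ := hinf.exists_subset_card_eq
    ((G.neighborSet u ∩ G.neighborSet v).ncard + 1)
  obtain ⟨w, hw⟩ := common hs tf hP (insert u J) (by
    intro x hx y hy
    rw [Finset.mem_insert] at hx hy
    rcases hx with rfl | hx <;> rcases hy with rfl | hy
    · exact G.loopless.irrefl _
    · exact (hJ1 hy).2
    · exact fun h => (hJ1 hx).2 h.symm
    · exact fun h => tf v x y (hJ1 hx).1 h (hJ1 hy).1)
  have hwu : G.Adj w u := hw u (Finset.mem_insert_self _ _)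
  have hwJ : ∀ j ∈ J, G.Adj w j := fun j hj => hw j (Finset.mem_insert_of_mem hj)
  have hwv : w ≠ v := by
    rintro rfl
    exact hn hwu.symm
  have hJne : J.Nonempty := by
    rw [← Finset.card_pos, hJ2]
    omega
  obtain ⟨j, hj⟩ := hJne
  have hwv' : ¬ G.Adj w v := fun h => tf w v j h (hJ1 hj).1 (hwJ j hj)
  obtain ⟨φ, h⟩ := pair hs huv hn hwv hwv'
  have himg : φ '' (G.neighborSet u ∩ G.neighborSet v) = G.neighborSet w ∩ G.neighborSet v := by
    rw [Set.image_inter φ.injective, image_nbr, image_nbr]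
    rcases h with ⟨e1, e2⟩ | ⟨e1, e2⟩
    · rw [e1, e2]
    · rw [e1, e2, Set.inter_comm]
  have hfin' : (G.neighborSet w ∩ G.neighborSet v).Finite := by
    rw [← himg]
    exact hfin.image _
  have hsub : (J : Set V) ⊆ G.neighborSet w ∩ G.neighborSet v :=
    fun j hj => ⟨hwJ j hj, (hJ1 hj).1⟩
  have h1 := Set.ncard_le_ncard hsub hfin'
  rw [Set.ncard_coe_finset, hJ2, ← himg, Set.ncard_image_of_injective _ φ.injective] at h1
  omega

theorem diff [Infinite V] (hs : SetHomogeneous G) (tf : TF G)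
    (hP : ∃ a b c, G.Adj a b ∧ G.Adj b c ∧ a ≠ c)
    (hC : ∃ a b c, G.Adj a b ∧ ¬ G.Adj a c ∧ ¬ G.Adj b c ∧ c ≠ a ∧ c ≠ b)
    (u v : V) (huv : u ≠ v)
    (hn : ¬ G.Adj u v) : (G.neighborSet v \ G.neighborSet u).Infinite := by
  intro hfin
  have hinf := infdeg hs tf hP
  have star : ∀ x y, x ≠ y → ¬ G.Adj x y → (G.neighborSet x \ G.neighborSet y).Finite ∨
      (G.neighborSet y \ G.neighborSet x).Finite := by
    intro x y hxy hxy'
    obtain ⟨φ, h⟩ := pair hs huv hn hxy hxy'
    have h1 : (φ '' (G.neighborSet v \ G.neighborSet u)).Finite := hfin.image _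
    rw [Set.image_diff φ.injective, image_nbr, image_nbr] at h1
    rcases h with ⟨e1, e2⟩ | ⟨e1, e2⟩
    · rw [e1, e2] at h1
      exact Or.inr h1
    · rw [e1, e2] at h1
      exact Or.inl h1
  have claim1 : ∀ a b c, G.Adj a b → ¬ G.Adj a c → ¬ G.Adj b c → c ≠ a → c ≠ b →
      ¬ (G.neighborSet c \ G.neighborSet a).Finite := by
    intro a b c hab hac hbc hca hcb hf
    rcases star c b hcb (fun h => hbc h.symm) with h | h
    · apply hinf c
      apply (hf.union h).subset
      intro x hx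
      by_cases hxa : x ∈ G.neighborSet a
      · right
        refine ⟨hx, fun hxb => tf a b x hab hxb hxa⟩
      · exact Or.inl ⟨hx, hxa⟩
    · apply hinf b
      apply (h.union hf).subset
      intro x hx
      by_cases hxc : x ∈ G.neighborSet c
      · right
        refine ⟨hxc, fun hxa => tf a b x hab hx hxa⟩
      · exact Or.inl ⟨hx, hxc⟩
  have claim2 : ∀ a c, a ≠ c → ¬ G.Adj a c → G.neighborSet a ⊆ G.neighborSet c ∨
      G.neighborSet c ⊆ G.neighborSet a := by
    intro a c hac hac'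
    by_contra hcon
    rw [not_or, Set.not_subset, Set.not_subset] at hcon
    obtain ⟨⟨b, hb1, hb2⟩, ⟨b', hb1', hb2'⟩⟩ := hcon
    rw [SimpleGraph.mem_neighborSet] at hb1 hb2 hb1' hb2'
    rcases star a c hac hac' with h | h
    · exact claim1 c b' a hb1' (fun h => hac' h.symm) (fun h => hb2' h.symm) hac
        (by rintro rfl; exact hac' hb1'.symm) h
    · exact claim1 a b c hb1 hac' (fun h => hb2 h.symm) (fun h => hac h.symm)
        (by rintro rfl; exact hac' hb1) h
  obtain ⟨a, b, c, hab, hac, hbc, hca, hcb⟩ := hC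
  have h1 : G.neighborSet c ⊆ G.neighborSet a := by
    rcases claim2 a c (fun h => hca h.symm) hac with h | h
    · exact absurd (h hab) (fun h => hbc h.symm)
    · exact h
  have h2 : G.neighborSet c ⊆ G.neighborSet b := by
    rcases claim2 b c (fun h => hcb h.symm) hbc with h | h
    · exact absurd (h hab.symm) (fun h => hac h.symm)
    · exact h
  obtain ⟨x, hx⟩ := (hinf c).nonempty
  exact tf a b x hab (h2 hx) (h1 hx)

theorem star (hs : SetHomogeneous G) (tf : TF G) (v : V) (S S' : Finset V)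
    (hS : ∀ x ∈ S, G.Adj v x) (hS' : ∀ x ∈ S', G.Adj v x) (hc : S.card = S'.card)
    (h2 : 2 ≤ S.card) : ∃ φ : G ≃g G, φ v = v ∧ φ '' (S : Set V) = (S' : Set V) := by
  classical
  have e : S ≃ S' := Finset.equivOfCardEq hc
  have hvS : v ∉ S := fun h => G.loopless.irrefl _ (hS v h)
  have hvS' : v ∉ S' := fun h => G.loopless.irrefl _ (hS' v h)
  have hi : ∀ x ∈ S, ∀ y ∈ S, ¬ G.Adj x y := fun x hx y hy h => tf v x y (hS x hx) h (hS y hy)
  have hi' : ∀ x ∈ S', ∀ y ∈ S', ¬ G.Adj x y :=
    fun x hx y hy h => tf v x y (hS' x hx) h (hS' y hy)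
  obtain ⟨φ, h⟩ := sh_maps hs (fun x : Option S => x.elim v Subtype.val)
    (fun x : Option S => x.elim v fun y => (e y).1) (by
      rintro (_ | x) (_ | y) hxy <;> simp at hxy ⊢
      · exact hvS (hxy ▸ y.2)
      · exact hvS (hxy.symm ▸ x.2)
      · exact hxy) (by
      rintro (_ | x) (_ | y) hxy <;> simp at hxy ⊢
      · exact hvS' (hxy ▸ (e y).2)
      · exact hvS' (hxy.symm ▸ (e x).2)
      · exact hxy) (by
      rintro (_ | x) (_ | y)
      · simp
      · simp [hS y.1 y.2, hS' (e y).1 (e y).2]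
      · simp [(hS x.1 x.2).symm, (hS' (e x).1 (e x).2).symm]
      · simp [hi x.1 x.2 y.1 y.2, hi' (e x).1 (e x).2 (e y).1 (e y).2])
  have e1 : Set.range (fun x : Option S => x.elim v Subtype.val) = insert v (S : Set V) := by
    ext x
    constructor
    · rintro ⟨_ | y, rfl⟩
      · exact Or.inl rfl
      · exact Or.inr y.2
    · rintro (rfl | hx)
      · exact ⟨none, rfl⟩
      · exact ⟨some ⟨x, hx⟩, rfl⟩
  have e2 : Set.range (fun x : Option S => x.elim v fun y => (e y).1) =
      insert v (S' : Set V) := by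
    ext x
    constructor
    · rintro ⟨_ | y, rfl⟩
      · exact Or.inl rfl
      · exact Or.inr (e y).2
    · rintro (rfl | hx)
      · exact ⟨none, rfl⟩
      · exact ⟨some (e.symm ⟨x, hx⟩), by simp⟩
  rw [e1, e2] at h
  have hmem : ∀ x ∈ S, φ x = v ∨ φ x ∈ S' := by
    intro x hx
    have : φ x ∈ insert v (S' : Set V) := by
      rw [← h]
      exact ⟨x, Or.inr hx, rfl⟩
    exact this
  have hv : φ v = v := by
    have h1 : φ v ∈ insert v (S' : Set V) := by
      rw [← h]
      exact ⟨v, Or.inl rfl, rfl⟩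
    rcases h1 with h1 | h1
    · exact h1
    · exfalso
      obtain ⟨x, hx, y, hy, hxy⟩ := Finset.one_lt_card.1 (show 1 < S.card by omega)
      have hnot : ∀ z ∈ S, φ z ∉ S' := by
        intro z hz hz'
        exact hi' _ h1 _ hz' (φ.map_adj_iff.2 (hS z hz))
      have hx' := (hmem x hx).resolve_right (hnot x hx)
      have hy' := (hmem y hy).resolve_right (hnot y hy)
      exact hxy (φ.injective (hx'.trans hy'.symm))
  refine ⟨φ, hv, ?_⟩
  ext y
  constructor
  · rintro ⟨x, hx, rfl⟩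
    rcases hmem x hx with h1 | h1
    · exfalso
      rw [← hv] at h1
      exact hvS (φ.injective h1 ▸ hx)
    · exact h1
  · intro hy
    have : y ∈ φ '' insert v (S : Set V) := by
      rw [h]
      exact Or.inr hy
    obtain ⟨x, hx, rfl⟩ := this
    rcases hx with rfl | hx
    · exfalso
      rw [hv] at hy
      exact hvS' hy
    · exact ⟨x, hx, rfl⟩

theorem copath (hs : SetHomogeneous G) (a b c a' b' c' : V) (hab : G.Adj a b)
    (hac : ¬ G.Adj a c) (hbc : ¬ G.Adj b c) (hca : c ≠ a) (hcb : c ≠ b)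
    (hab' : G.Adj a' b') (hac' : ¬ G.Adj a' c') (hbc' : ¬ G.Adj b' c') (hca' : c' ≠ a')
    (hcb' : c' ≠ b') : ∃ φ : G ≃g G, φ c = c' ∧ φ '' ({a, b} : Set V) = {a', b'} := by
  have hinj : ∀ {a b c : V}, a ≠ b → c ≠ a → c ≠ b →
      Function.Injective (fun t : Option Bool => t.elim c fun t => if t then a else b) := by
    rintro a b c hab hca hcb (_ | _ | _) (_ | _ | _) h <;> simp at h ⊢
    · exact hcb h
    · exact hca h
    · exact hcb h.symm
    · exact hab h.symm
    · exact hca h.symm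
    · exact hab h
  obtain ⟨φ, h⟩ := sh_maps hs (fun t : Option Bool => t.elim c fun t => if t then a else b)
    (fun t : Option Bool => t.elim c' fun t => if t then a' else b')
    (hinj hab.ne hca hcb) (hinj hab'.ne hca' hcb') (by
      have h1 : ¬ G.Adj c a := fun h => hac h.symm
      have h2 : ¬ G.Adj c b := fun h => hbc h.symm
      have h3 : ¬ G.Adj c' a' := fun h => hac' h.symm
      have h4 : ¬ G.Adj c' b' := fun h => hbc' h.symm
      have h5 := hab.symm
      have h6 := hab'.symm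
      rintro (_ | _ | _) (_ | _ | _) <;> simp [hac, hbc, hac', hbc', h1, h2, h3, h4, h5, h6, hab,
        hab'])
  have hr : ∀ {a b c : V}, Set.range (fun t : Option Bool => t.elim c fun t =>
      if t then a else b) = {c, a, b} := by
    intro a b c
    ext x
    constructor
    · rintro ⟨_ | _ | _, rfl⟩ <;> simp
    · rintro (rfl | rfl | rfl)
      · exact ⟨none, rfl⟩
      · exact ⟨some true, by simp⟩
      · exact ⟨some false, by simp⟩
  rw [hr, hr] at h
  have hm : ∀ x ∈ ({c, a, b} : Set V), φ x ∈ ({c', a', b'} : Set V) := by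
    intro x hx
    rw [← h]
    exact ⟨x, hx, rfl⟩
  have hm' : ∀ y ∈ ({c', a', b'} : Set V), ∃ x ∈ ({c, a, b} : Set V), φ x = y := by
    intro y hy
    rw [← h] at hy
    exact hy
  have hciso : ∀ x ∈ ({c, a, b} : Set V), ¬ G.Adj c x := by
    rintro x (rfl | rfl | rfl)
    · exact G.loopless.irrefl _
    · exact fun h => hac h.symm
    · exact fun h => hbc h.symm
  have hc : φ c = c' := by
    rcases hm c (by simp) with h1 | h1 | h1
    · exact h1
    · exfalso
      obtain ⟨x, hx, hxb⟩ := hm' b' (by simp)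
      apply hciso x hx
      apply φ.map_adj_iff.1
      rw [h1, hxb]
      exact hab'
    · exfalso
      obtain ⟨x, hx, hxb⟩ := hm' a' (by simp)
      apply hciso x hx
      apply φ.map_adj_iff.1
      rw [h1, hxb]
      exact hab'.symm
  refine ⟨φ, hc, ?_⟩
  ext y
  constructor
  · rintro ⟨x, hx, rfl⟩
    rcases hm x (Or.inr hx) with h1 | h1
    · exfalso
      rw [← hc] at h1
      have := φ.injective h1
      rcases hx with h2 | h2
      · exact hca (this.symm.trans h2)
      · exact hcb (this.symm.trans h2)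
    · exact h1
  · intro hy
    obtain ⟨x, hx, hxy⟩ := hm' y (Or.inr hy)
    rcases hx with h1 | h1
    · exfalso
      rw [h1, hc] at hxy
      rcases hy with h2 | h2
      · exact hca' (hxy.trans h2)
      · exact hcb' (hxy.trans h2)
    · exact ⟨x, h1, hxy⟩

end BasicsAux

open BasicsAux in
theorem basics {V : Type*} [Infinite V] {G : SimpleGraph V} (hs : SetHomogeneous G) (tf : TF G)
    (hP : ∃ a b c, G.Adj a b ∧ G.Adj b c ∧ a ≠ c)
    (hC : ∃ a b c, G.Adj a b ∧ ¬ G.Adj a c ∧ ¬ G.Adj b c ∧ c ≠ a ∧ c ≠ b) : Good G where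
  sh := hs
  tf := tf
  infdeg := BasicsAux.infdeg hs tf hP
  common := BasicsAux.common hs tf hP
  inter := BasicsAux.inter hs tf hP
  diff := BasicsAux.diff hs tf hP hC
  nonedge := by
    intro v
    obtain ⟨x, hx, y, hy, hxy⟩ := (BasicsAux.infdeg hs tf hP v).nontrivial
    obtain ⟨φ, hφ⟩ := BasicsAux.trans hs x v
    refine ⟨φ y, ?_, ?_⟩
    · rw [← hφ]
      exact fun h => hxy (φ.injective h).symm
    · rw [← hφ, φ.map_adj_iff]
      exact fun h => tf v x y hx h.symm hy
  trans := BasicsAux.trans hs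
  star := BasicsAux.star hs tf
  copath := BasicsAux.copath hs

end SetHom
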