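import Pool.Agent.Helper26.SH.PhiPr
import Pool.Agent.Helper43.SH.Exp2
import Pool.Agent.Helper43.SH.GoodI

/-!
# Project RC, SHARP, zone I: the aligned moments of the base of high frequency

Contour shift `t → t - i log E`. `mob`: `|1 + Q| ≤ (1 + 19/20 w) |1 + c Q|` for `|Q| ≤ w ≤ 1/2`, `|c| = 1/2`, `Re c = 1/4`.
`ratio`: `|1 + ζ*| ≤ (3/2) |1 + ζ|` on the shifted line. `edge_le`: the moment of one edge is at most
`E^(-l) (3/2)^((l-1)/2) ...`.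
-/

set_option autoImplicit false

open MeasureTheory Set Filter Topology

namespace Pool.Agent.Helper26.SH

open Helper49.LT hiding sg s3

/-! ### the contour -/

theorem contour {F : ℂ → ℂ} {σ : ℝ} (hσ : 0 ≤ σ)
    (hF : ∀ z : ℂ, -σ ≤ z.im → z.im ≤ 0 → DifferentiableAt ℂ F z) (hp : ∀ z : ℂ, F (z + (2 * Real.pi : ℝ)) = F z) :
    ∫ t in (0 : ℝ)..(2 * Real.pi), F t = ∫ t in (0 : ℝ)..(2 * Real.pi), F (t - (σ : ℂ) * Complex.I) := by
  have hpi := Real.pi_pos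
  have h := Complex.integral_boundary_rect_eq_zero_of_differentiableOn F (-(σ : ℂ) * Complex.I)
    ((2 * Real.pi : ℝ) : ℂ) (by
      intro z hz
      refine (hF z ?_ ?_).differentiableWithinAt
      · have h2 := hz.2
        simp at h2
        rw [Set.uIcc_of_le (by linarith)] at h2
        exact h2.1
      · have h2 := hz.2
        simp at h2
        rw [Set.uIcc_of_le (by linarith)] at h2
        exact h2.2)
  simp only [Complex.mul_re, Complex.mul_im, Complex.neg_re, Complex.neg_im, Complex.ofReal_re, Complex.ofReal_im,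
    Complex.I_re, Complex.I_im, mul_zero, mul_one, neg_zero, sub_zero, zero_mul, add_zero, zero_add, sub_self] at h
  have e1 : ∀ y : ℝ, F (((2 * Real.pi : ℝ) : ℂ) + (y : ℂ) * Complex.I) = F (((0 : ℝ) : ℂ) + (y : ℂ) * Complex.I) := by
    intro y
    have := hp (((0 : ℝ) : ℂ) + (y : ℂ) * Complex.I)
    rw [← this]
    congr 1
    push_cast
    ring
  simp only [e1, add_sub_cancel_right] at h
  have e2 : (∫ x in (0 : ℝ)..(2 * Real.pi), F ((x : ℂ) + ((0 : ℝ) : ℂ) * Complex.I)) =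
      ∫ t in (0 : ℝ)..(2 * Real.pi), F t := by
    refine intervalIntegral.integral_congr fun t _ => ?_
    simp
  have e3 : (∫ x in (0 : ℝ)..(2 * Real.pi), F ((x : ℂ) + ((-σ : ℝ) : ℂ) * Complex.I)) =
      ∫ t in (0 : ℝ)..(2 * Real.pi), F (t - (σ : ℂ) * Complex.I) := by
    refine intervalIntegral.integral_congr fun t _ => ?_
    show F _ = F _
    congr 1
    push_cast
    ring
  rw [e2, e3] at h
  exact (sub_eq_zero.1 h).symm

/-! ### the quotient on the shifted line -/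

theorem mob {c Q : ℂ} {w : ℝ} (hc : ‖c‖ = 1 / 2) (hr : c.re = 1 / 4) (hQ : ‖Q‖ ≤ w) (hw : w ≤ 1 / 2) :
    ‖1 + Q‖ ≤ (1 + 19 / 20 * w) * ‖1 + c * Q‖ := by
  have hw0 : 0 ≤ w := (norm_nonneg _).trans hQ
  set K := 1 + 19 / 20 * w with hK
  have hK1 : 1 ≤ K := by rw [hK]; linarith
  refine le_of_sq_le_sq ?_ (mul_nonneg (by linarith) (norm_nonneg _))
  rw [mul_pow, norm_sq_ri, norm_sq_ri]
  simp only [Complex.add_re, Complex.add_im, Complex.one_re, Complex.one_im, Complex.mul_re, Complex.mul_im]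
  have nc := norm_sq_ri c
  rw [hc, hr] at nc
  have nQ := norm_sq_ri Q
  -- the cross term
  set d : ℂ := ⟨K ^ 2 * c.re - 1, -(K ^ 2 * c.im)⟩ with hd
  have h1 := re_le_prod (-d) Q
  rw [hd] at h1
  simp only [Complex.neg_re, Complex.neg_im] at h1
  rw [← hd] at h1
  have hS : ‖d‖ ^ 2 = K ^ 4 / 4 - K ^ 2 / 2 + 1 := by
    rw [norm_sq_ri, hd]
    simp only
    rw [hr]
    nlinarith
  have hSp : 2 * w * ‖d‖ ≤ (K ^ 2 - 1) - (1 - K ^ 2 / 4) * w ^ 2 := by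
    have hpos : 0 ≤ (K ^ 2 - 1) - (1 - K ^ 2 / 4) * w ^ 2 := by
      rw [hK]
      nlinarith [mul_nonneg hw0 (sub_nonneg.2 hw), mul_nonneg (mul_nonneg hw0 hw0) (sub_nonneg.2 hw),
        mul_nonneg (mul_nonneg (mul_nonneg hw0 hw0) hw0) hw0]
    refine le_of_sq_le_sq ?_ hpos
    rw [mul_pow, hS, hK]
    have e : ((1 + 19 / 20 * w) ^ 2 - 1 - (1 - (1 + 19 / 20 * w) ^ 2 / 4) * w ^ 2) ^ 2 -
        (2 * w) ^ 2 * ((1 + 19 / 20 * w) ^ 4 / 4 - (1 + 19 / 20 * w) ^ 2 / 2 + 1) =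
        w ^ 2 * (((1 + 19 / 20 * w) ^ 2 - 1 - (1 - (1 + 19 / 20 * w) ^ 2 / 4) * w ^ 2) ^ 2 / w ^ 2 -
        4 * ((1 + 19 / 20 * w) ^ 4 / 4 - (1 + 19 / 20 * w) ^ 2 / 2 + 1)) := by
      rcases eq_or_ne w 0 with h | h
      · rw [h]; ring
      · field_simp
        ring
    have e2 : ((1 + 19 / 20 * w) ^ 2 - 1 - (1 - (1 + 19 / 20 * w) ^ 2 / 4) * w ^ 2) ^ 2 -
        (2 * w) ^ 2 * ((1 + 19 / 20 * w) ^ 4 / 4 - (1 + 19 / 20 * w) ^ 2 / 2 + 1) =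
        w ^ 2 * ((19 / 10 + 361 / 400 * w - (1 - (1 + 19 / 20 * w) ^ 2 / 4) * w) ^ 2 -
        4 * ((1 + 19 / 20 * w) ^ 4 / 4 - (1 + 19 / 20 * w) ^ 2 / 2 + 1)) := by ring
    have e3 : 0 ≤ (19 / 10 + 361 / 400 * w - (1 - (1 + 19 / 20 * w) ^ 2 / 4) * w) ^ 2 -
        4 * ((1 + 19 / 20 * w) ^ 4 / 4 - (1 + 19 / 20 * w) ^ 2 / 2 + 1) := by
      have q1 : 0 ≤ 1 / 2 - w := sub_nonneg.2 hw
      have q2 := mul_nonneg hw0 q1
      have q3 := mul_nonneg hw0 q2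
      have q4 := mul_nonneg hw0 q3
      have q5 := mul_nonneg hw0 q4
      have q6 := mul_nonneg hw0 q5
      have q7 : 0 ≤ w ^ 2 := sq_nonneg w
      nlinarith [mul_nonneg q7 q7, mul_nonneg (mul_nonneg q7 q7) q7, mul_nonneg q7 hw0]
    have e4 := mul_nonneg (sq_nonneg w) e3
    linarith [e2]
  have h2 : ‖d‖ * ‖Q‖ ≤ w * ‖d‖ := by
    rw [mul_comm]
    exact mul_le_mul_of_nonneg_right hQ (norm_nonneg _)
  rw [norm_neg] at h1
  have h3 : ‖Q‖ ^ 2 ≤ w ^ 2 := pow_le_pow_left₀ (norm_nonneg _) hQ 2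
  have h4 : K ≤ 59 / 40 := by rw [hK]; linarith
  have h5 : 0 ≤ 1 - K ^ 2 / 4 := by nlinarith
  have h6 := mul_le_mul_of_nonneg_left h3 h5
  have e : K ^ 2 * ((1 + (c.re * Q.re - c.im * Q.im)) ^ 2 + (0 + (c.re * Q.im + c.im * Q.re)) ^ 2) -
      ((1 + Q.re) ^ 2 + (0 + Q.im) ^ 2) = (K ^ 2 - 1) - (Q.re ^ 2 + Q.im ^ 2)
      + K ^ 2 * (c.re ^ 2 + c.im ^ 2) * (Q.re ^ 2 + Q.im ^ 2)
      + 2 * ((K ^ 2 * c.re - 1) * Q.re + -(K ^ 2 * c.im) * Q.im) := by ring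
  rw [← nQ] at e
  have nc2 : c.re ^ 2 + c.im ^ 2 = 1 / 4 := by rw [hr]; linarith
  rw [nc2] at e
  nlinarith [h1, h2, hSp, h6, e]

/-! ### the estimates on the shifted line -/

/-- four complex numbers of the sizes on the shifted line -/
structure LN (uC uS vC vS : ℂ) (p q : ℝ) : Prop where
  p0 : 0 ≤ p
  q0 : 0 ≤ q
  pq : 459 / 200 * p + 8 / 5 * q ≤ 4 / 5
  a : ‖uS‖ ≤ p
  b : ‖vS‖ ≤ q
  c : ‖uC‖ ≤ p / 12
  d : ‖vC‖ ≤ q / 64

section line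

variable {uC uS vC vS m : ℂ} {p q : ℝ}

theorem LN.q1 (h : LN uC uS vC vS p q) : q ≤ 1 / 2 := by
  have := h.p0
  have := h.pq
  linarith

theorem mm_conj (hm : ‖m‖ = 1) : m * (starRingEnd ℂ) m = 1 := by
  rw [Complex.mul_conj, Complex.normSq_eq_norm_sq, hm]; norm_num

theorem ratio (h : LN uC uS vC vS p q) (hm : ‖m‖ = 1) (hr : (m ^ 2).re = -(1 / 2)) :
    ‖1 + (starRingEnd ℂ) m * (uS + vS - 1 / 2 * vC)‖ ≤ 3 / 2 * ‖1 + m * (uC + vC - 1 / 2 * vS)‖ := by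
  have hmm := mm_conj hm
  set Q : ℂ := (starRingEnd ℂ) m * vS with hQ
  set c : ℂ := -(1 / 2) * m ^ 2 with hc
  have nm : ‖(starRingEnd ℂ) m‖ = 1 := by rw [Complex.norm_conj, hm]
  have nQ : ‖Q‖ ≤ q := by rw [hQ, norm_mul, nm, one_mul]; exact h.b
  have nc : ‖c‖ = 1 / 2 := by rw [hc, norm_mul, norm_pow, hm]; norm_num
  have cr : c.re = 1 / 4 := by
    have e : c = ((-(1 / 2) : ℝ) : ℂ) * m ^ 2 := by rw [hc]; push_cast; ring
    rw [e, Complex.re_ofReal_mul, hr]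
    norm_num
  have h1 := mob nc cr nQ h.q1
  have e1 : 1 + (starRingEnd ℂ) m * (uS + vS - 1 / 2 * vC) =
      (1 + Q) + (starRingEnd ℂ) m * (uS - 1 / 2 * vC) := by rw [hQ]; ring
  have e2 : 1 + m * (uC + vC - 1 / 2 * vS) = (1 + c * Q) + m * (uC + vC) := by
    rw [hQ, hc]
    linear_combination (1 / 2 * m * vS) * hmm
  have n1 : ‖(starRingEnd ℂ) m * (uS - 1 / 2 * vC)‖ ≤ p + q / 128 := by
    rw [norm_mul, nm, one_mul]
    refine (norm_sub_le _ _).trans ?_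
    rw [norm_mul]
    have := h.a
    have := h.d
    norm_num
    linarith
  have n2 : ‖m * (uC + vC)‖ ≤ p / 12 + q / 64 := by
    rw [norm_mul, hm, one_mul]
    exact (norm_add_le _ _).trans (add_le_add h.c h.d)
  have n3 : 1 - q / 2 ≤ ‖1 + c * Q‖ := by
    have h2 := norm_sub_norm_le (1 : ℂ) (-(c * Q))
    rw [sub_neg_eq_add, norm_neg, norm_one, norm_mul, nc] at h2
    linarith
  have n4 : ‖1 + c * Q‖ - (p / 12 + q / 64) ≤ ‖(1 + c * Q) + m * (uC + vC)‖ := by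
    have h2 := norm_sub_norm_le (1 + c * Q) (-(m * (uC + vC)))
    rw [sub_neg_eq_add, norm_neg] at h2
    linarith
  rw [e1, e2]
  have n5 := norm_add_le (1 + Q) ((starRingEnd ℂ) m * (uS - 1 / 2 * vC))
  have hq := h.q1
  have hq0 := h.q0
  have hpq := h.pq
  have n6 : (1 / 2 - 19 / 20 * q) * (1 - q / 2) ≤ (1 / 2 - 19 / 20 * q) * ‖1 + c * Q‖ :=
    mul_le_mul_of_nonneg_left n3 (by linarith)
  nlinarith [sq_nonneg (q - 47 / 100)]

theorem one_le (h : LN uC uS vC vS p q) (hm : ‖m‖ = 1) :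
    ‖1 + (starRingEnd ℂ) m * (uS + vS - 1 / 2 * vC)‖ ≤ 188 / 125 := by
  have nm : ‖(starRingEnd ℂ) m‖ = 1 := by rw [Complex.norm_conj, hm]
  refine (norm_add_le _ _).trans ?_
  rw [norm_mul, nm, norm_one, one_mul]
  have h1 := norm_sub_le (uS + vS) (1 / 2 * vC)
  have h2 := norm_add_le uS vS
  have h3 : ‖1 / 2 * vC‖ = 1 / 2 * ‖vC‖ := by rw [norm_mul]; norm_num
  have := h.a
  have := h.b
  have := h.d
  have := h.pq
  have := h.p0
  have := h.q1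
  linarith

/-- `b₂`, `b₃` and the weight off the real line -/
noncomputable def b2C (uC uS vC vS : ℂ) : ℂ := 33 / 200 * (uC * uS) - 9 / 40 * (vC * vS)
  - 31 / 100 * (uC * vS + uS * vC) - 11 / 200 * (uS ^ 2 + uC ^ 2) + 57 / 200 * (uS * vS + uC * vC)
  + 1 / 20 * (vS ^ 2 + vC ^ 2)
noncomputable def b3C (uC uS vC vS : ℂ) : ℂ := Complex.I * (-(19 / 50) * (uC * vS - uS * vC)
  - 7 / 25 * (uS ^ 2 - uC ^ 2) + 51 / 100 * (uS * vS - uC * vC) - 9 / 200 * (vS ^ 2 - vC ^ 2))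
noncomputable def wC (uC uS vC vS : ℂ) : ℂ := 1 - 2 * (uC * vS) - 2 * (uS * vC)

theorem nmul {x y : ℂ} {r s : ℝ} (hx : ‖x‖ ≤ r) (hy : ‖y‖ ≤ s) : ‖x * y‖ ≤ r * s := by
  rw [norm_mul]
  exact mul_le_mul hx hy (norm_nonneg _) ((norm_nonneg _).trans hx)

theorem nsm {x : ℂ} {r : ℝ} (k : ℝ) (hx : ‖x‖ ≤ r) : ‖(k : ℂ) * x‖ ≤ |k| * r := by
  rw [norm_mul, Complex.norm_real, Real.norm_eq_abs]
  exact mul_le_mul_of_nonneg_left hx (abs_nonneg _)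

theorem nadd {x y : ℂ} {r s : ℝ} (hx : ‖x‖ ≤ r) (hy : ‖y‖ ≤ s) : ‖x + y‖ ≤ r + s :=
  (norm_add_le _ _).trans (add_le_add hx hy)
theorem nsub {x y : ℂ} {r s : ℝ} (hx : ‖x‖ ≤ r) (hy : ‖y‖ ≤ s) : ‖x - y‖ ≤ r + s :=
  (norm_sub_le _ _).trans (add_le_add hx hy)

theorem b2C_le (h : LN uC uS vC vS p q) : ‖b2C uC uS vC vS‖ ≤
    346 / 5000 * p ^ 2 + 268 / 5000 * q ^ 2 + 1581 / 5000 * (p * q) := by
  have e : b2C uC uS vC vS = (((33 / 200 : ℝ) : ℂ) * (uC * uS) - ((9 / 40 : ℝ) : ℂ) * (vC * vS)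
      - ((31 / 100 : ℝ) : ℂ) * (uC * vS + uS * vC) - ((11 / 200 : ℝ) : ℂ) * (uS * uS + uC * uC)
      + ((57 / 200 : ℝ) : ℂ) * (uS * vS + uC * vC) + ((1 / 20 : ℝ) : ℂ) * (vS * vS + vC * vC)) := by
    unfold b2C; push_cast; ring
  rw [e]
  have hp := h.p0
  have hq := h.q0
  refine (nadd (nadd (nsub (nsub (nsub (nsm _ (nmul h.c h.a)) (nsm _ (nmul h.d h.b)))
    (nsm _ (nadd (nmul h.c h.b) (nmul h.a h.d)))) (nsm _ (nadd (nmul h.a h.a) (nmul h.c h.c))))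
    (nsm _ (nadd (nmul h.a h.b) (nmul h.c h.d)))) (nsm _ (nadd (nmul h.b h.b) (nmul h.d h.d)))).trans ?_
  norm_num [abs_of_pos]
  nlinarith [mul_nonneg hp hp, mul_nonneg hq hq, mul_nonneg hp hq]

theorem b3C_le (h : LN uC uS vC vS p q) : ‖b3C uC uS vC vS‖ ≤
    282 / 1000 * p ^ 2 + 451 / 10000 * q ^ 2 + 5483 / 10000 * (p * q) := by
  have e : b3C uC uS vC vS = Complex.I * (((-(19 / 50) : ℝ) : ℂ) * (uC * vS - uS * vC)
      - ((7 / 25 : ℝ) : ℂ) * (uS * uS - uC * uC)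
      + ((51 / 100 : ℝ) : ℂ) * (uS * vS - uC * vC) - ((9 / 200 : ℝ) : ℂ) * (vS * vS - vC * vC)) := by
    unfold b3C; push_cast; ring
  rw [e, norm_mul, Complex.norm_I, one_mul]
  have hp := h.p0
  have hq := h.q0
  refine (nsub (nadd (nsub (nsm _ (nsub (nmul h.c h.b) (nmul h.a h.d))) (nsm _ (nsub (nmul h.a h.a) (nmul h.c h.c))))
    (nsm _ (nsub (nmul h.a h.b) (nmul h.c h.d)))) (nsm _ (nsub (nmul h.b h.b) (nmul h.d h.d)))).trans ?_
  norm_num [abs_of_pos]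
  nlinarith [mul_nonneg hp hp, mul_nonneg hq hq, mul_nonneg hp hq]

theorem wC_le (h : LN uC uS vC vS p q) : ‖wC uC uS vC vS‖ ≤ 101 / 100 := by
  have e : wC uC uS vC vS = 1 - ((2 : ℝ) : ℂ) * (uC * vS) - ((2 : ℝ) : ℂ) * (uS * vC) := by
    unfold wC; push_cast; ring
  rw [e]
  have hp := h.p0
  have hq := h.q0
  have hpq := h.pq
  refine (nsub (nsub (le_of_eq norm_one) (nsm _ (nmul h.c h.b))) (nsm _ (nmul h.a h.d))).trans ?_
  norm_num [abs_of_pos]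
  have h1 : p * q ≤ 1 / 22 := by nlinarith [sq_nonneg (q - 1 / 4), mul_nonneg hp hq]
  nlinarith

theorem L_le (h : LN uC uS vC vS p q) {x y : ℂ} (hx : ‖x‖ = 1) (hy : ‖y‖ = 7 / 4) :
    ‖x * b2C uC uS vC vS + y * b3C uC uS vC vS‖ ≤ 21 / 250 := by
  have h2 := b2C_le h
  have h3 := b3C_le h
  refine (norm_add_le _ _).trans ?_
  rw [norm_mul, norm_mul, hx, hy]
  have hp := h.p0
  have hq := h.q0
  have hq1 := h.q1
  have hpq := h.pq
  have hp1 : p ≤ 160 / 459 - 320 / 459 * q := by linarith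
  have h4 : p ^ 2 ≤ (160 / 459 - 320 / 459 * q) ^ 2 := pow_le_pow_left₀ hp hp1 2
  have h5 : p * q ≤ (160 / 459 - 320 / 459 * q) * q := mul_le_mul_of_nonneg_right hp1 hq
  nlinarith [sq_nonneg (q - 177 / 1000)]

end line

/-! ### the functions on the strip -/

/-- `e^{inz}` -/
noncomputable def xx (n : ℤ) (z : ℂ) : ℂ := Complex.exp ((n : ℂ) * Complex.I * z)

theorem xx_real (n : ℤ) (t : ℝ) : xx n t = ee ((n : ℝ) * t) := by
  unfold xx ee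
  congr 1
  push_cast
  ring

theorem xx_norm (n : ℤ) (z : ℂ) : ‖xx n z‖ = Real.exp (-((n : ℝ) * z.im)) := by
  unfold xx
  rw [Complex.norm_exp]
  congr 1
  have e : (n : ℂ) * Complex.I * z = (((n : ℝ)) : ℂ) * (Complex.I * z) := by push_cast; ring
  rw [e, Complex.re_ofReal_mul]
  simp

theorem xx_per (n : ℤ) (z : ℂ) : xx n (z + (2 * Real.pi : ℝ)) = xx n z := by
  unfold xx
  have e : (n : ℂ) * Complex.I * (z + (2 * Real.pi : ℝ)) = (n : ℂ) * Complex.I * z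
      + (n : ℂ) * (2 * Real.pi * Complex.I) := by push_cast; ring
  rw [e, Complex.exp_add, Complex.exp_int_mul_two_pi_mul_I, mul_one]

theorem xx_diff (n : ℤ) : Differentiable ℂ (xx n) := by
  unfold xx
  fun_prop

section strip

variable (A : ℝ) (B κ m x2 y2 x3 y3 : ℂ) (l : ℕ)

noncomputable def fU (z : ℂ) : ℂ := (A : ℂ) * xx (-3) z
noncomputable def fUs (z : ℂ) : ℂ := (A : ℂ) * xx 3 z
noncomputable def fV (z : ℂ) : ℂ := B * xx (-5) z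
noncomputable def fVs (z : ℂ) : ℂ := (starRingEnd ℂ) B * xx 5 z
noncomputable def Zf (z : ℂ) : ℂ := m * (fU A z + fV B z - 1 / 2 * fVs B z)
noncomputable def Zs (z : ℂ) : ℂ := (starRingEnd ℂ) m * (fUs A z + fVs B z - 1 / 2 * fV B z)
noncomputable def b2f (z : ℂ) : ℂ := b2C (fU A z) (fUs A z) (fV B z) (fVs B z)
noncomputable def b3f (z : ℂ) : ℂ := b3C (fU A z) (fUs A z) (fV B z) (fVs B z)
noncomputable def wf (z : ℂ) : ℂ := wC (fU A z) (fUs A z) (fV B z) (fVs B z)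
noncomputable def Lg (x y : ℂ) (z : ℂ) : ℂ := x * b2f A B z + y * b3f A B z
noncomputable def Vf (z : ℂ) : ℂ := (starRingEnd ℂ) κ *
  Complex.exp ((Complex.log (1 + Zs A B m z) - Complex.log (1 + Zf A B m z)) / 2)

/-- the density of the moment of one edge -/
noncomputable def Ph1 (z : ℂ) : ℂ := xx (-(l : ℤ)) z * Vf A B κ m z ^ (l - 1) * wf A B z *
  ((starRingEnd ℂ) κ * (1 + Zs A B m z) + (1 - (l : ℂ)) / 2 * Lg A B x2 x3 z * Vf A B κ m z ^ 2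
    + (1 + (l : ℂ)) / 2 * Lg A B y2 y3 z)

theorem fU_per (z : ℂ) : fU A (z + (2 * Real.pi : ℝ)) = fU A z := by unfold fU; rw [xx_per]
theorem fUs_per (z : ℂ) : fUs A (z + (2 * Real.pi : ℝ)) = fUs A z := by unfold fUs; rw [xx_per]
theorem fV_per (z : ℂ) : fV B (z + (2 * Real.pi : ℝ)) = fV B z := by unfold fV; rw [xx_per]
theorem fVs_per (z : ℂ) : fVs B (z + (2 * Real.pi : ℝ)) = fVs B z := by unfold fVs; rw [xx_per]

theorem Ph1_per (z : ℂ) : Ph1 A B κ m x2 y2 x3 y3 l (z + (2 * Real.pi : ℝ)) = Ph1 A B κ m x2 y2 x3 y3 l z := by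
  unfold Ph1 Vf Lg b2f b3f wf Zs Zf
  simp only [fU_per, fUs_per, fV_per, fVs_per, xx_per]

variable {A B κ m x2 y2 x3 y3 l}

/-- the strip: real `E ≥ 1`, `z` with `1 ≤ e^{-im z} ≤ E` -/
theorem strip_LN {E : ℝ} (hE : 0 < E) (hE2 : 459 / 200 ≤ E ^ 2) (hE6 : 12 ≤ E ^ 6) (hE10 : 64 ≤ E ^ 10) (hA : 0 ≤ A)
    (hX : (A + 8 / 5 * ‖B‖) * E ^ 5 ≤ 4 / 5) {z : ℂ} (hz : z.im = -Real.log E) :
    LN (fU A z) (fUs A z) (fV B z) (fVs B z) (A * E ^ 3) (‖B‖ * E ^ 5) := by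
  have hB := norm_nonneg B
  have ex : ∀ n : ℤ, ‖xx n z‖ = E ^ n := by
    intro n
    rw [xx_norm, hz]
    have : -((n : ℝ) * -Real.log E) = Real.log E * n := by ring
    rw [this, ← Real.rpow_def_of_pos hE, Real.rpow_intCast]
  have e3 : E ^ (3 : ℤ) = E ^ 3 := by norm_cast
  have e5 : E ^ (5 : ℤ) = E ^ 5 := by norm_cast
  have e3' : E ^ (-3 : ℤ) = (E ^ 3)⁻¹ := by rw [zpow_neg, e3]
  have e5' : E ^ (-5 : ℤ) = (E ^ 5)⁻¹ := by rw [zpow_neg, e5]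
  have nA : ‖(A : ℂ)‖ = A := by rw [Complex.norm_real, Real.norm_eq_abs, abs_of_nonneg hA]
  refine ⟨by positivity, by positivity, ?_, ?_, ?_, ?_, ?_⟩
  · have h1 : 459 / 200 * (A * E ^ 3) ≤ E ^ 2 * (A * E ^ 3) := mul_le_mul_of_nonneg_right hE2 (by positivity)
    nlinarith
  · unfold fUs
    rw [norm_mul, ex, nA, e3]
  · unfold fVs
    rw [norm_mul, ex, Complex.norm_conj, e5]
  · unfold fU
    rw [norm_mul, ex, nA, e3', le_div_iff₀ (by norm_num)]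
    have h1 : (E ^ 3)⁻¹ * 12 ≤ E ^ 3 := by
      rw [inv_mul_le_iff₀ (by positivity)]
      calc (12 : ℝ) ≤ E ^ 6 := hE6
        _ = E ^ 3 * E ^ 3 := by ring
    calc A * (E ^ 3)⁻¹ * 12 = A * ((E ^ 3)⁻¹ * 12) := by ring
      _ ≤ A * E ^ 3 := mul_le_mul_of_nonneg_left h1 hA
  · unfold fV
    rw [norm_mul, ex, e5', le_div_iff₀ (by norm_num)]
    have h1 : (E ^ 5)⁻¹ * 64 ≤ E ^ 5 := by
      rw [inv_mul_le_iff₀ (by positivity)]
      calc (64 : ℝ) ≤ E ^ 10 := hE10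
        _ = E ^ 5 * E ^ 5 := by ring
    calc ‖B‖ * (E ^ 5)⁻¹ * 64 = ‖B‖ * ((E ^ 5)⁻¹ * 64) := by ring
      _ ≤ ‖B‖ * E ^ 5 := mul_le_mul_of_nonneg_left h1 hB

/-- sizes in the whole strip -/
theorem strip_lt {E : ℝ} (hE : 1 ≤ E) (hE2 : 459 / 200 ≤ E ^ 2) (hA : 0 ≤ A)
    (hX : (A + 8 / 5 * ‖B‖) * E ^ 5 ≤ 4 / 5) (hX1 : A + 8 / 5 * ‖B‖ ≤ 1 / 10) (hm : ‖m‖ = 1) {z : ℂ}
    (h1 : -Real.log E ≤ z.im) (h2 : z.im ≤ 0) : ‖Zf A B m z‖ < 1 ∧ ‖Zs A B m z‖ < 1 := by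
  have hB := norm_nonneg B
  have hE0 : 0 < E := by linarith
  set s := Real.exp (-z.im) with hs
  have s1 : 1 ≤ s := Real.one_le_exp (by linarith)
  have sE : s ≤ E := by
    have : -z.im ≤ Real.log E := by linarith
    calc s ≤ Real.exp (Real.log E) := Real.exp_le_exp.2 this
      _ = E := Real.exp_log hE0
  have ex : ∀ n : ℕ, ‖xx (n : ℤ) z‖ = s ^ n := by
    intro n
    rw [xx_norm, hs, ← Real.exp_nat_mul]
    congr 1
    push_cast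
    ring
  have exn : ∀ n : ℕ, ‖xx (-(n : ℤ)) z‖ ≤ 1 := by
    intro n
    rw [xx_norm, Real.exp_le_one_iff]
    push_cast
    have : (0 : ℝ) ≤ n := by positivity
    nlinarith
  have nA : ‖(A : ℂ)‖ = A := by rw [Complex.norm_real, Real.norm_eq_abs, abs_of_nonneg hA]
  have k3 : ‖xx 3 z‖ ≤ E ^ 3 := by
    have := ex 3
    push_cast at this
    rw [this]
    exact pow_le_pow_left₀ (by linarith) sE 3
  have k5 : ‖xx 5 z‖ ≤ E ^ 5 := by
    have := ex 5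
    push_cast at this
    rw [this]
    exact pow_le_pow_left₀ (by linarith) sE 5
  have j3 : ‖xx (-3) z‖ ≤ 1 := exn 3
  have j5 : ‖xx (-5) z‖ ≤ 1 := exn 5
  have a1 : ‖fU A z‖ ≤ A := by
    unfold fU
    rw [norm_mul, nA]
    exact mul_le_of_le_one_right hA j3
  have a2 : ‖fUs A z‖ ≤ A * E ^ 3 := by
    unfold fUs
    rw [norm_mul, nA]
    exact mul_le_mul_of_nonneg_left k3 hA
  have a3 : ‖fV B z‖ ≤ ‖B‖ := by
    unfold fV
    rw [norm_mul]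
    exact mul_le_of_le_one_right hB j5
  have a4 : ‖fVs B z‖ ≤ ‖B‖ * E ^ 5 := by
    unfold fVs
    rw [norm_mul, Complex.norm_conj]
    exact mul_le_mul_of_nonneg_left k5 hB
  have p1 : 459 / 200 * (A * E ^ 3) ≤ E ^ 2 * (A * E ^ 3) := mul_le_mul_of_nonneg_right hE2 (by positivity)
  have p2 : E ^ 2 * (A * E ^ 3) + 8 / 5 * (‖B‖ * E ^ 5) ≤ 4 / 5 := by nlinarith
  have p3 : 0 ≤ A * E ^ 3 := by positivity
  have p4 : 0 ≤ ‖B‖ * E ^ 5 := by positivity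
  have hh : ‖(1 / 2 : ℂ)‖ = 1 / 2 := by norm_num
  constructor
  · unfold Zf
    rw [norm_mul, hm, one_mul]
    refine (norm_sub_le _ _).trans_lt ((add_le_add (norm_add_le _ _) le_rfl).trans_lt ?_)
    rw [norm_mul, hh]
    linarith
  · unfold Zs
    rw [norm_mul, Complex.norm_conj, hm, one_mul]
    refine (norm_sub_le _ _).trans_lt ((add_le_add (norm_add_le _ _) le_rfl).trans_lt ?_)
    rw [norm_mul, hh]
    linarith

theorem slit_one {x : ℂ} (h : ‖x‖ < 1) : 1 + x ∈ Complex.slitPlane := by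
  refine Or.inl ?_
  have := (abs_lt.1 ((Complex.abs_re_le_norm x).trans_lt h)).1
  rw [Complex.add_re, Complex.one_re]
  linarith

theorem Ph1_diff {z : ℂ} (h1 : ‖Zf A B m z‖ < 1) (h2 : ‖Zs A B m z‖ < 1) :
    DifferentiableAt ℂ (Ph1 A B κ m x2 y2 x3 y3 l) z := by
  have d1 : Differentiable ℂ (fU A) := by unfold fU; exact (xx_diff _).const_mul _
  have d2 : Differentiable ℂ (fUs A) := by unfold fUs; exact (xx_diff _).const_mul _
  have d3 : Differentiable ℂ (fV B) := by unfold fV; exact (xx_diff _).const_mul _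
  have d4 : Differentiable ℂ (fVs B) := by unfold fVs; exact (xx_diff _).const_mul _
  have dZ : Differentiable ℂ (Zf A B m) := by unfold Zf; fun_prop
  have dZs : Differentiable ℂ (Zs A B m) := by unfold Zs; fun_prop
  have db2 : Differentiable ℂ (b2f A B) := by unfold b2f b2C; fun_prop
  have db3 : Differentiable ℂ (b3f A B) := by unfold b3f b3C; fun_prop
  have dw : Differentiable ℂ (wf A B) := by unfold wf wC; fun_prop
  have dl1 : DifferentiableAt ℂ (fun z => Complex.log (1 + Zs A B m z)) z :=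
    ((differentiable_const _).add dZs z).clog (slit_one h2)
  have dl2 : DifferentiableAt ℂ (fun z => Complex.log (1 + Zf A B m z)) z :=
    ((differentiable_const _).add dZ z).clog (slit_one h1)
  have dV : DifferentiableAt ℂ (Vf A B κ m) z := by
    unfold Vf
    exact (((dl1.sub dl2).div_const 2).cexp).const_mul _
  have dx := xx_diff (-(l : ℤ)) z
  have dwz := dw z
  have dZsz := dZs z
  have dL : ∀ x y : ℂ, DifferentiableAt ℂ (Lg A B x y) z := by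
    intro x y
    unfold Lg
    exact ((db2 z).const_mul _).add ((db3 z).const_mul _)
  unfold Ph1
  exact (((dx.mul (dV.pow _)).mul dwz)).mul ((((dZsz.const_add _).const_mul _).add
    (((dL x2 x3).const_mul _).mul (dV.pow 2))).add ((dL y2 y3).const_mul _))

theorem Vf_sq (hκ : ‖κ‖ = 1) {z : ℂ} (h1 : ‖Zf A B m z‖ < 1) (h2 : ‖Zs A B m z‖ < 1) :
    Vf A B κ m z ^ 2 = (starRingEnd ℂ) κ ^ 2 * ((1 + Zs A B m z) / (1 + Zf A B m z)) := by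
  have n1 := slit_ne (slit_one h1)
  have n2 := slit_ne (slit_one h2)
  unfold Vf
  rw [mul_pow, ← Complex.exp_nat_mul]
  have e : ((2 : ℕ) : ℂ) * ((Complex.log (1 + Zs A B m z) - Complex.log (1 + Zf A B m z)) / 2) =
      Complex.log (1 + Zs A B m z) - Complex.log (1 + Zf A B m z) := by push_cast; ring
  rw [e, Complex.exp_sub, Complex.exp_log n2, Complex.exp_log n1]

/-- the bound on the shifted line -/
theorem Ph1_le {E r : ℝ} (hE : 1 ≤ E) (hE2 : 459 / 200 ≤ E ^ 2) (hE6 : 12 ≤ E ^ 6) (hE10 : 64 ≤ E ^ 10) (hA : 0 ≤ A)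
    (hX : (A + 8 / 5 * ‖B‖) * E ^ 5 ≤ 4 / 5) (hX1 : A + 8 / 5 * ‖B‖ ≤ 1 / 10) (hκ : ‖κ‖ = 1) (hm : ‖m‖ = 1)
    (hmr : (m ^ 2).re = -(1 / 2)) (nx2 : ‖x2‖ = 1) (ny2 : ‖y2‖ = 1) (nx3 : ‖x3‖ = 7 / 4) (ny3 : ‖y3‖ = 7 / 4)
    (hr : 0 ≤ r) (hr2 : r ^ 2 = 3 / 2) (hl : 1 ≤ l) (t : ℝ) :
    ‖Ph1 A B κ m x2 y2 x3 y3 l (t - (Real.log E : ℂ) * Complex.I)‖ ≤
      (E ^ l)⁻¹ * r ^ (l - 1) * (101 / 100) * (1483 / 1000 + 21 / 200 * l) := by
  have hE0 : 0 < E := by linarith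
  set z : ℂ := t - (Real.log E : ℂ) * Complex.I with hz
  have hzi : z.im = -Real.log E := by rw [hz]; simp
  have hlog : 0 ≤ Real.log E := Real.log_nonneg hE
  have hLN := strip_LN hE0 hE2 hE6 hE10 hA hX hzi
  obtain ⟨z1, z2⟩ := strip_lt hE hE2 hA hX hX1 hm (z := z) (by rw [hzi]) (by rw [hzi]; linarith)
  have hrat : ‖1 + Zs A B m z‖ ≤ 3 / 2 * ‖1 + Zf A B m z‖ := ratio hLN hm hmr
  have hone : ‖1 + Zs A B m z‖ ≤ 188 / 125 := one_le hLN hm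
  have hL1 : ‖Lg A B x2 x3 z‖ ≤ 21 / 250 := L_le hLN nx2 nx3
  have hL2 : ‖Lg A B y2 y3 z‖ ≤ 21 / 250 := L_le hLN ny2 ny3
  have hw : ‖wf A B z‖ ≤ 101 / 100 := wC_le hLN
  have nκ : ‖(starRingEnd ℂ) κ‖ = 1 := by rw [Complex.norm_conj, hκ]
  have hV2 : ‖Vf A B κ m z‖ ^ 2 ≤ 3 / 2 := by
    rw [← norm_pow, Vf_sq hκ z1 z2, norm_mul, norm_pow, nκ, one_pow, one_mul, norm_div,
      div_le_iff₀ (norm_pos_iff.2 (slit_ne (slit_one z1)))]
    exact hrat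
  have hVr : ‖Vf A B κ m z‖ ≤ r := by
    refine le_of_sq_le_sq ?_ hr
    rw [hr2]
    exact hV2
  have hx : ‖xx (-(l : ℤ)) z‖ = (E ^ l)⁻¹ := by
    rw [xx_norm, hzi]
    have : -((((-(l : ℤ) : ℤ)) : ℝ) * -Real.log E) = -(l * Real.log E) := by push_cast; ring
    rw [this, Real.exp_neg, Real.exp_nat_mul, Real.exp_log hE0]
  have hl' : (1 : ℝ) ≤ l := by exact_mod_cast hl
  have n1 : ‖(1 - (l : ℂ)) / 2‖ = ((l : ℝ) - 1) / 2 := by
    have : (1 - (l : ℂ)) / 2 = (((1 - (l : ℝ)) / 2 : ℝ) : ℂ) := by push_cast; ring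
    rw [this, Complex.norm_real, Real.norm_eq_abs, abs_of_nonpos (by linarith)]
    ring
  have n2 : ‖(1 + (l : ℂ)) / 2‖ = ((l : ℝ) + 1) / 2 := by
    have : (1 + (l : ℂ)) / 2 = (((1 + (l : ℝ)) / 2 : ℝ) : ℂ) := by push_cast; ring
    rw [this, Complex.norm_real, Real.norm_eq_abs, abs_of_nonneg (by linarith)]
    ring
  have hbr : ‖(starRingEnd ℂ) κ * (1 + Zs A B m z) + (1 - (l : ℂ)) / 2 * Lg A B x2 x3 z * Vf A B κ m z ^ 2
      + (1 + (l : ℂ)) / 2 * Lg A B y2 y3 z‖ ≤ 1483 / 1000 + 21 / 200 * l := by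
    refine (norm_add_le _ _).trans ((add_le_add (norm_add_le _ _) le_rfl).trans ?_)
    rw [norm_mul, nκ, one_mul, norm_mul, norm_mul, norm_mul, norm_pow, n1, n2]
    have q1 : ((l : ℝ) - 1) / 2 * ‖Lg A B x2 x3 z‖ * ‖Vf A B κ m z‖ ^ 2 ≤ ((l : ℝ) - 1) / 2 * (21 / 250) * (3 / 2) := by
      refine mul_le_mul (mul_le_mul_of_nonneg_left hL1 (by linarith)) hV2 (by positivity) ?_
      nlinarith
    have q2 : ((l : ℝ) + 1) / 2 * ‖Lg A B y2 y3 z‖ ≤ ((l : ℝ) + 1) / 2 * (21 / 250) :=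
      mul_le_mul_of_nonneg_left hL2 (by linarith)
    linarith
  unfold Ph1
  rw [norm_mul, norm_mul, norm_mul, norm_pow, hx]
  have hE1 : 0 ≤ (E ^ l)⁻¹ := by positivity
  refine mul_le_mul (mul_le_mul (mul_le_mul_of_nonneg_left (pow_le_pow_left₀ (norm_nonneg _) hVr _) hE1) hw
    (norm_nonneg _) (by positivity)) hbr (norm_nonneg _) (by positivity)

/-- the mean over the period -/
theorem Ph1_int {E r : ℝ} (hE : 1 ≤ E) (hE2 : 459 / 200 ≤ E ^ 2) (hE6 : 12 ≤ E ^ 6) (hE10 : 64 ≤ E ^ 10) (hA : 0 ≤ A)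
    (hX : (A + 8 / 5 * ‖B‖) * E ^ 5 ≤ 4 / 5) (hX1 : A + 8 / 5 * ‖B‖ ≤ 1 / 10) (hκ : ‖κ‖ = 1) (hm : ‖m‖ = 1)
    (hmr : (m ^ 2).re = -(1 / 2)) (nx2 : ‖x2‖ = 1) (ny2 : ‖y2‖ = 1) (nx3 : ‖x3‖ = 7 / 4) (ny3 : ‖y3‖ = 7 / 4)
    (hr : 0 ≤ r) (hr2 : r ^ 2 = 3 / 2) (hl : 1 ≤ l) :
    ‖(1 / (2 * Real.pi) : ℂ) * ∫ t in (0 : ℝ)..(2 * Real.pi), Ph1 A B κ m x2 y2 x3 y3 l t‖ ≤
      (E ^ l)⁻¹ * r ^ (l - 1) * (101 / 100) * (1483 / 1000 + 21 / 200 * l) := by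
  have hp := Real.pi_pos
  have hlog : 0 ≤ Real.log E := Real.log_nonneg hE
  have hc := contour (F := Ph1 A B κ m x2 y2 x3 y3 l) hlog (fun z h1 h2 => by
    obtain ⟨z1, z2⟩ := strip_lt hE hE2 hA hX hX1 hm h1 h2
    exact Ph1_diff z1 z2) (Ph1_per A B κ m x2 y2 x3 y3 l)
  rw [hc, norm_mul]
  have hb := intervalIntegral.norm_integral_le_of_norm_le_const (a := 0) (b := 2 * Real.pi)
    (C := (E ^ l)⁻¹ * r ^ (l - 1) * (101 / 100) * (1483 / 1000 + 21 / 200 * l))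
    (f := fun t : ℝ => Ph1 A B κ m x2 y2 x3 y3 l (t - (Real.log E : ℂ) * Complex.I))
    (fun t _ => Ph1_le hE hE2 hE6 hE10 hA hX hX1 hκ hm hmr nx2 ny2 nx3 ny3 hr hr2 hl t)
  have n1 : ‖(1 / (2 * Real.pi) : ℂ)‖ = 1 / (2 * Real.pi) := by
    have : (1 / (2 * Real.pi) : ℂ) = ((1 / (2 * Real.pi) : ℝ) : ℂ) := by push_cast; rfl
    rw [this, Complex.norm_real, Real.norm_eq_abs, abs_of_pos (by positivity)]
  rw [n1]
  rw [sub_zero, abs_of_pos (by positivity)] at hb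
  calc 1 / (2 * Real.pi) * ‖∫ t in (0 : ℝ)..(2 * Real.pi), Ph1 A B κ m x2 y2 x3 y3 l (t - (Real.log E : ℂ) * Complex.I)‖
      ≤ 1 / (2 * Real.pi) * ((E ^ l)⁻¹ * r ^ (l - 1) * (101 / 100) * (1483 / 1000 + 21 / 200 * l) * (2 * Real.pi)) :=
        mul_le_mul_of_nonneg_left hb (by positivity)
    _ = _ := by field_simp

end strip

end Pool.Agent.Helper26.SH
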