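import Pool.Agent.Helper33.SH.GDef
import Pool.Agent.Helper17.RC.TailD2

/-!
# Project RC, SHARP, zone I: the rows `l ≥ 12` of the linear part (`LinP`) and of the quadratic part of (D2)

`trm`: the term of index `k` (`l = 2 k + 2`) of the series in `LinP`. With `γ = 0` it is
`-(4/ν) Re (conj (qB k) qR k) / (l² - 1)`, `qB = (l² - 1) H_l - (ν/2) e_l` at the base, `qR` the same of the rest.
`tailL_le`: the sum of the terms `l ≥ 12` (`TailL` of helper33) is at most `48 T RT`,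
`RT = 3/50 |β₂^| + 71/200 |β₃^| + x |β₂| + y |β₃| + x |ρ|` (norms of L², `^`: without the harmonics `± 2`), if
the squares of `qB` have the sum `≤ T²`, the density weights are at most `b` and `b ≤ 352 x²`, `b ≤ 159 y²`.
`tailL5`, `tailL10`: `b = 5` and `b = 10/3`, with the harmonic 2 separated.
-/

set_option autoImplicit false

open MeasureTheory Set Filter Topology

namespace Pool.Agent.Helper26.SH

open Helper49.LT hiding sg
open Helper49.RC (om)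
open Helper49.Sharp
open Helper56.RC (fc)
open Helper87.RC (BM fc_conj pars fc_add fc_sub fc_cmul)
open Helper95.SH (eM_summable)
open Pool.Agent.Helper20.RC (lk lk_ge lk_sq eM DensI)
open Pool.Agent.Helper43.SH
open Pool.Agent.Helper17.RC (WOK eM_tail mY mX mY_add_mX)
open Pool.Agent.Helper33.GL (TailL RB)

/-- the norm of `L²` -/
noncomputable def N2 (f : ℝ → ℝ) : ℝ := Real.sqrt (mean fun t => f t ^ 2)

/-- the norm of `L²` of `f` without the harmonics `2`, `-2` -/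
noncomputable def Np (f : ℝ → ℝ) : ℝ := N2 fun t => ‖noh2 (fun s => (f s : ℂ)) t‖

theorem N2_nonneg (f : ℝ → ℝ) : 0 ≤ N2 f := Real.sqrt_nonneg _

theorem N2_sq (f : ℝ → ℝ) : N2 f ^ 2 = mean fun t => f t ^ 2 :=
  Real.sq_sqrt (mean_nonneg fun _ => sq_nonneg _)

/-! ### finite sums -/

theorem fcs (S : Finset ℕ) (x y : ℕ → ℝ) {A B : ℝ} (hA : 0 ≤ A) (hB : 0 ≤ B) (hx : ∑ k ∈ S, x k ^ 2 ≤ A ^ 2)
    (hy : ∑ k ∈ S, y k ^ 2 ≤ B ^ 2) : ∑ k ∈ S, x k * y k ≤ A * B := by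
  have h1 := Finset.sum_mul_sq_le_sq_mul_sq S x y
  have h2 : (∑ k ∈ S, x k * y k) ^ 2 ≤ (A * B) ^ 2 := by
    rw [mul_pow]
    refine h1.trans (mul_le_mul hx hy (Finset.sum_nonneg fun _ _ => sq_nonneg _) (by positivity))
  exact le_of_abs_le (abs_le_of_sq_le_sq h2 (mul_nonneg hA hB))

theorem mink (S : Finset ℕ) (x y : ℕ → ℝ) {A B : ℝ} (hA : 0 ≤ A) (hB : 0 ≤ B) (hx : ∑ k ∈ S, x k ^ 2 ≤ A ^ 2)
    (hy : ∑ k ∈ S, y k ^ 2 ≤ B ^ 2) : ∑ k ∈ S, (x k + y k) ^ 2 ≤ (A + B) ^ 2 := by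
  have h1 := fcs S x y hA hB hx hy
  have e : ∑ k ∈ S, (x k + y k) ^ 2 = ∑ k ∈ S, x k ^ 2 + 2 * ∑ k ∈ S, x k * y k + ∑ k ∈ S, y k ^ 2 := by
    rw [Finset.mul_sum, ← Finset.sum_add_distrib, ← Finset.sum_add_distrib]
    exact Finset.sum_congr rfl fun k _ => by ring
  rw [e]
  nlinarith

/-! ### the coefficients of the rest -/

theorem fc_noh2_ne {δ : ℝ → ℂ} {D : ℝ} (h : BM δ D) {n : ℤ} (h1 : n ≠ 2) (h2 : n ≠ -2) : fc (noh2 δ) n = fc δ n := by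
  have e : noh2 δ = fun t => (δ t - fc δ 2 * ee (((2 : ℤ) : ℝ) * t)) - fc δ (-2) * ee (((-2 : ℤ) : ℝ) * t) := by
    funext t
    unfold noh2
    push_cast
    rfl
  have b1 : BM (fun t : ℝ => ee (((2 : ℤ) : ℝ) * t)) 1 := BM.eec _
  have b2 : BM (fun t : ℝ => ee (((-2 : ℤ) : ℝ) * t)) 1 := BM.eec _
  rw [e, fc_sub (h.sub (b1.cmul _)) (b2.cmul _), fc_sub h (b1.cmul _), fc_cmul, fc_cmul,
    Pool.Agent.Helper20.RC.fc_eek, Pool.Agent.Helper20.RC.fc_eek, if_neg h1, if_neg h2]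
  ring

theorem fc_noh2_2 {δ : ℝ → ℂ} {D : ℝ} (h : BM δ D) : fc (noh2 δ) 2 = 0 := by
  have e : noh2 δ = fun t => (δ t - fc δ 2 * ee (((2 : ℤ) : ℝ) * t)) - fc δ (-2) * ee (((-2 : ℤ) : ℝ) * t) := by
    funext t
    unfold noh2
    push_cast
    rfl
  have b1 : BM (fun t : ℝ => ee (((2 : ℤ) : ℝ) * t)) 1 := BM.eec _
  have b2 : BM (fun t : ℝ => ee (((-2 : ℤ) : ℝ) * t)) 1 := BM.eec _
  rw [e, fc_sub (h.sub (b1.cmul _)) (b2.cmul _), fc_sub h (b1.cmul _), fc_cmul, fc_cmul,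
    Pool.Agent.Helper20.RC.fc_eek, Pool.Agent.Helper20.RC.fc_eek, if_pos rfl, if_neg (by decide)]
  ring

theorem fc_noh2_m2 {δ : ℝ → ℂ} {D : ℝ} (h : BM δ D) : fc (noh2 δ) (-2) = 0 := by
  have e : noh2 δ = fun t => (δ t - fc δ 2 * ee (((2 : ℤ) : ℝ) * t)) - fc δ (-2) * ee (((-2 : ℤ) : ℝ) * t) := by
    funext t
    unfold noh2
    push_cast
    rfl
  have b1 : BM (fun t : ℝ => ee (((2 : ℤ) : ℝ) * t)) 1 := BM.eec _
  have b2 : BM (fun t : ℝ => ee (((-2 : ℤ) : ℝ) * t)) 1 := BM.eec _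
  rw [e, fc_sub (h.sub (b1.cmul _)) (b2.cmul _), fc_sub h (b1.cmul _), fc_cmul, fc_cmul,
    Pool.Agent.Helper20.RC.fc_eek, Pool.Agent.Helper20.RC.fc_eek, if_neg (by decide), if_pos rfl]
  ring

theorem BR_BM {f : ℝ → ℝ} (h : BR f) : ∃ C, BM (fun t => (f t : ℂ)) C := by
  obtain ⟨C, hC⟩ := h.b
  exact ⟨C, Complex.measurable_ofReal.comp h.m, fun t => by rw [Complex.norm_real, Real.norm_eq_abs]; exact hC t⟩

theorem noh2_BM {δ : ℝ → ℂ} {D : ℝ} (h : BM δ D) : ∃ E, BM (noh2 δ) E := by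
  have e : noh2 δ = fun t => (δ t - fc δ 2 * ee (((2 : ℤ) : ℝ) * t)) - fc δ (-2) * ee (((-2 : ℤ) : ℝ) * t) := by
    funext t
    unfold noh2
    push_cast
    rfl
  have b1 : BM (fun t : ℝ => ee (((2 : ℤ) : ℝ) * t)) 1 := BM.eec _
  have b2 : BM (fun t : ℝ => ee (((-2 : ℤ) : ℝ) * t)) 1 := BM.eec _
  rw [e]
  exact ⟨_, (h.sub (b1.cmul _)).sub (b2.cmul _)⟩

theorem pars_N2 {δ : ℝ → ℂ} {D : ℝ} (h : BM δ D) : HasSum (fun n : ℤ => ‖fc δ n‖ ^ 2) (N2 (fun t => ‖δ t‖) ^ 2) := by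
  have hp := pars h
  have e0 : (1 / (2 * Real.pi)) * ∫ t in (0 : ℝ)..(2 * Real.pi), ‖δ t‖ ^ 2 = N2 (fun t => ‖δ t‖) ^ 2 := by
    rw [N2_sq]
    rfl
  rwa [e0] at hp

theorem fcr_neg (f : ℝ → ℝ) (n : ℤ) : ‖fc (fun t => (f t : ℂ)) (-n)‖ = ‖fc (fun t => (f t : ℂ)) n‖ := by
  have h1 := fc_conj (fun t => (f t : ℂ)) n
  have h2 : (fun t => (starRingEnd ℂ) (f t : ℂ)) = fun t => (f t : ℂ) := by
    funext t; exact Complex.conj_ofReal _
  rw [h2] at h1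
  rw [h1, RCLike.norm_conj]

/-- real functions: half of the mass sits in the positive frequencies -/
theorem half_real {f : ℝ → ℝ} (h : BR f) (S : Finset ℕ) (hS : ∀ k ∈ S, 1 ≤ k) :
    ∑ k ∈ S, ‖fc (fun t => (f t : ℂ)) (2 * (k : ℤ) + 2)‖ ^ 2 ≤ 1 / 2 * Np f ^ 2 := by
  obtain ⟨C, hB⟩ := BR_BM h
  obtain ⟨E, hE⟩ := noh2_BM hB
  have hp := pars_N2 hE
  have i1 : Function.Injective fun k : ℕ => (2 * (k : ℤ) + 2 : ℤ) := fun a b hab => by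
    simp only at hab; omega
  have i2 : Function.Injective fun k : ℕ => (-(2 * (k : ℤ) + 2) : ℤ) := fun a b hab => by
    simp only at hab; omega
  have hd : Disjoint (S.image fun k : ℕ => (2 * (k : ℤ) + 2 : ℤ)) (S.image fun k : ℕ => (-(2 * (k : ℤ) + 2) : ℤ)) := by
    rw [Finset.disjoint_left]
    intro n h1 h2
    rw [Finset.mem_image] at h1 h2
    obtain ⟨a, _, ha⟩ := h1
    obtain ⟨b, _, hb⟩ := h2
    omega
  have hs := sum_le_hasSum ((S.image fun k : ℕ => (2 * (k : ℤ) + 2 : ℤ)) ∪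
    (S.image fun k : ℕ => (-(2 * (k : ℤ) + 2) : ℤ))) (fun n _ => by positivity) hp
  rw [Finset.sum_union hd, Finset.sum_image (fun a _ b _ hab => i1 hab), Finset.sum_image (fun a _ b _ hab => i2 hab)]
    at hs
  have e1 : ∑ k ∈ S, ‖fc (noh2 fun t => (f t : ℂ)) (-(2 * (k : ℤ) + 2))‖ ^ 2 =
      ∑ k ∈ S, ‖fc (fun t => (f t : ℂ)) (2 * (k : ℤ) + 2)‖ ^ 2 :=
    Finset.sum_congr rfl fun k hk => by
      have := hS k hk
      rw [fc_noh2_ne hB (by omega) (by omega), fcr_neg]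
  have e2 : ∑ k ∈ S, ‖fc (noh2 fun t => (f t : ℂ)) (2 * (k : ℤ) + 2)‖ ^ 2 =
      ∑ k ∈ S, ‖fc (fun t => (f t : ℂ)) (2 * (k : ℤ) + 2)‖ ^ 2 :=
    Finset.sum_congr rfl fun k hk => by
      have := hS k hk
      rw [fc_noh2_ne hB (by omega) (by omega)]
  rw [e1, e2] at hs
  have e3 : N2 (fun t => ‖noh2 (fun t => (f t : ℂ)) t‖) = Np f := rfl
  rw [e3] at hs
  linarith

/-- the mass of the harmonic 2 -/
theorem N2_split {f : ℝ → ℝ} (h : BR f) : N2 f ^ 2 = Np f ^ 2 + 2 * ‖fc (fun t => (f t : ℂ)) 2‖ ^ 2 := by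
  obtain ⟨C, hB⟩ := BR_BM h
  obtain ⟨E, hE⟩ := noh2_BM hB
  have h1 := pars_N2 hB
  have h2 := pars_N2 hE
  have h3 := h1.sub h2
  have h4 : HasSum (fun n : ℤ => ‖fc (fun t => (f t : ℂ)) n‖ ^ 2 - ‖fc (noh2 fun t => (f t : ℂ)) n‖ ^ 2)
      (∑ n ∈ ({2, -2} : Finset ℤ), (‖fc (fun t => (f t : ℂ)) n‖ ^ 2 - ‖fc (noh2 fun t => (f t : ℂ)) n‖ ^ 2)) := by
    refine hasSum_sum_of_ne_finset_zero fun n hn => ?_
    rw [Finset.mem_insert, Finset.mem_singleton, not_or] at hn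
    rw [fc_noh2_ne hB hn.1 hn.2, sub_self]
  have h5 := h3.unique h4
  rw [Finset.sum_insert (by decide), Finset.sum_singleton, fc_noh2_2 hB, fc_noh2_m2 hB, fcr_neg, norm_zero] at h5
  have e1 : N2 (fun t => ‖((f t : ℝ) : ℂ)‖) ^ 2 = N2 f ^ 2 := by
    rw [N2_sq, N2_sq]
    refine mean_congr fun t => ?_
    rw [Complex.norm_real, Real.norm_eq_abs, sq_abs]
  have e3 : N2 (fun t => ‖noh2 (fun t => (f t : ℂ)) t‖) = Np f := rfl
  rw [e1, e3] at h5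
  linarith

theorem N2_le {f : ℝ → ℝ} (h : BR f) : N2 f ≤ Np f + 707107 / 500000 * ‖fc (fun t => (f t : ℂ)) 2‖ := by
  have h1 := N2_split h
  have h2 : 0 ≤ Np f := N2_nonneg _
  have h3 := norm_nonneg (fc (fun t => (f t : ℂ)) 2)
  refine le_of_sq_le_sq (a := N2 f) ?_ (by positivity)
  nlinarith [mul_nonneg h2 h3]

theorem hK_eq {β : ℝ → ℂ} {C : ℝ} (h : BM β C) {k : ℕ} (hk : 1 ≤ k) :
    ((lk k ^ 2 - 1 : ℝ) : ℂ) * hK β k = -fc (fun t => ((β t).re : ℂ)) (2 * k + 2)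
      + Complex.I * (lk k / 2 : ℝ) * fc (fun t => ((β t).im : ℂ)) (2 * k + 2) := by
  obtain ⟨E, hE⟩ := dl_BM h
  have e : dl β = fun t => ((β t).re : ℂ) + (Complex.I / 2) * ((β t).im : ℂ) := by
    funext t; unfold dl; push_cast; ring
  have hn : ∀ n : ℤ, fc (dl β) n = fc (fun t => ((β t).re : ℂ)) n + Complex.I / 2 * fc (fun t => ((β t).im : ℂ)) n := by
    intro n
    rw [e, fc_add (reC_BM h) ((imC_BM h).cmul _), fc_cmul]
  have hr : ∀ (f : ℝ → ℝ) (n : ℤ), (starRingEnd ℂ) (fc (fun t => (f t : ℂ)) (-n)) = fc (fun t => (f t : ℂ)) n := by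
    intro f n
    have h1 := fc_conj (fun t => (f t : ℂ)) n
    have h2 : (fun t => (starRingEnd ℂ) (f t : ℂ)) = fun t => (f t : ℂ) := by
      funext t; exact Complex.conj_ofReal _
    rw [h2] at h1
    exact h1.symm
  have c1 := hr (fun t => (β t).re) (2 * k + 2)
  have c2 := hr (fun t => (β t).im) (2 * k + 2)
  have hl := lk_ge k
  have p1 : ((lk k : ℂ) + 1) ≠ 0 := by
    have : (lk k : ℂ) + 1 = ((lk k + 1 : ℝ) : ℂ) := by push_cast; rfl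
    rw [this]
    exact_mod_cast (by linarith : lk k + 1 ≠ 0)
  have p2 : ((lk k : ℂ) - 1) ≠ 0 := by
    have : (lk k : ℂ) - 1 = ((lk k - 1 : ℝ) : ℂ) := by push_cast; rfl
    rw [this]
    have h3 : 0 < lk k - 1 := by linarith
    exact_mod_cast h3.ne'
  have cI : (starRingEnd ℂ) (Complex.I / 2) = -(Complex.I / 2) := by
    have h2 : (starRingEnd ℂ) (2 : ℂ) = 2 := Complex.conj_ofReal 2
    rw [map_div₀, Complex.conj_I, h2]
    ring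
  unfold hK Hk
  rw [fc_noh2_ne hE (by omega) (by omega), fc_noh2_ne hE (by omega) (by omega), hn, hn, map_add, map_mul, c1, c2, cI]
  set a := fc (fun t => ((β t).re : ℂ)) (2 * k + 2)
  set c := fc (fun t => ((β t).im : ℂ)) (2 * k + 2)
  push_cast
  field_simp
  ring

/-! ### the rest in the rows `l ≥ 12` -/

theorem lk5 {k : ℕ} (hk : 5 ≤ k) : 12 ≤ lk k := by
  unfold lk
  have : (5 : ℝ) ≤ k := by exact_mod_cast hk
  linarith

/-- the part of `H` -/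
theorem rest_H {β : ℝ → ℂ} {C : ℝ} (h : BM β C) (S : Finset ℕ) (hS : ∀ k ∈ S, 5 ≤ k) :
    ∑ k ∈ S, (‖((lk k ^ 2 - 1 : ℝ) : ℂ) * hK β k‖ / Real.sqrt (lk k ^ 2 - 1)) ^ 2 ≤
      (3 / 50 * Np (fun t => (β t).re) + 71 / 200 * Np (fun t => (β t).im)) ^ 2 := by
  have n2 : 0 ≤ Np fun t => (β t).re := N2_nonneg _
  have n3 : 0 ≤ Np fun t => (β t).im := N2_nonneg _
  have a2 := half_real (BR.re h) S fun k hk => by have := hS k hk; omega
  have a3 := half_real (BR.im h) S fun k hk => by have := hS k hk; omega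
  set x : ℕ → ℝ := fun k => ‖fc (fun t => ((β t).re : ℂ)) (2 * (k : ℤ) + 2)‖ with hx
  set y : ℕ → ℝ := fun k => ‖fc (fun t => ((β t).im : ℂ)) (2 * (k : ℤ) + 2)‖ with hy
  have hX : ∑ k ∈ S, (x k / Real.sqrt (lk k ^ 2 - 1)) ^ 2 ≤ (3 / 50 * Np (fun t => (β t).re)) ^ 2 := by
    have h1 : ∀ k ∈ S, (x k / Real.sqrt (lk k ^ 2 - 1)) ^ 2 ≤ 1 / 143 * x k ^ 2 := by
      intro k hk
      have h12 := lk5 (hS k hk)
      have hpos := lk_sq k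
      rw [div_pow, Real.sq_sqrt hpos.le, div_le_iff₀ hpos]
      have : 143 ≤ lk k ^ 2 - 1 := by nlinarith
      nlinarith [sq_nonneg (x k), mul_le_mul_of_nonneg_left this (sq_nonneg (x k))]
    refine (Finset.sum_le_sum h1).trans ?_
    rw [← Finset.mul_sum]
    nlinarith [sq_nonneg (Np fun t => (β t).re)]
  have hY : ∑ k ∈ S, (lk k / 2 * y k / Real.sqrt (lk k ^ 2 - 1)) ^ 2 ≤ (71 / 200 * Np (fun t => (β t).im)) ^ 2 := by
    have h1 : ∀ k ∈ S, (lk k / 2 * y k / Real.sqrt (lk k ^ 2 - 1)) ^ 2 ≤ 36 / 143 * y k ^ 2 := by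
      intro k hk
      have h12 := lk5 (hS k hk)
      have hpos := lk_sq k
      rw [div_pow, Real.sq_sqrt hpos.le, div_le_iff₀ hpos]
      have : (lk k / 2) ^ 2 ≤ 36 / 143 * (lk k ^ 2 - 1) := by nlinarith
      have h2 := mul_le_mul_of_nonneg_right this (sq_nonneg (y k))
      nlinarith
    refine (Finset.sum_le_sum h1).trans ?_
    rw [← Finset.mul_sum]
    nlinarith [sq_nonneg (Np fun t => (β t).im)]
  have hm := mink S (fun k => x k / Real.sqrt (lk k ^ 2 - 1)) (fun k => lk k / 2 * y k / Real.sqrt (lk k ^ 2 - 1))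
    (by positivity) (by positivity) hX hY
  refine (Finset.sum_le_sum fun k hk => ?_).trans hm
  have hpos := lk_sq k
  have hl := lk_ge k
  refine pow_le_pow_left₀ (by positivity) ?_ 2
  rw [← add_div]
  refine div_le_div_of_nonneg_right ?_ (Real.sqrt_nonneg _)
  rw [hK_eq h (by have := hS k hk; omega)]
  refine (norm_add_le _ _).trans (le_of_eq ?_)
  rw [norm_neg, norm_mul, norm_mul, Complex.norm_I, one_mul, Complex.norm_real, Real.norm_eq_abs,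
    abs_of_nonneg (by linarith)]

theorem norm_sq_re_im (z : ℂ) : ‖z‖ ^ 2 = z.re ^ 2 + z.im ^ 2 := by
  rw [← Complex.normSq_eq_norm_sq, Complex.normSq_apply]; ring

/-- the linear parts of the edges -/
theorem gL_sq (β ρ : ℂ) : ‖g1L β ρ‖ ^ 2 + ‖g2L β ρ‖ ^ 2 ≤
    3 * β.re ^ 2 + 53 / 8 * β.im ^ 2 + 3 * ‖ρ‖ ^ 2 := by
  have h3 : Real.sqrt 3 ^ 2 = 3 := Real.sq_sqrt (by norm_num)
  rw [norm_sq_re_im, norm_sq_re_im, norm_sq_re_im, g1L_re, g1L_im, g2L_re, g2L_im]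
  set s := Real.sqrt 3
  have e : (β.re / 2 + s * β.im + ρ.re) ^ 2 + (-(s / 2) * β.re + β.im / 4 + ρ.im) ^ 2 +
      ((-β.re / 2 + s * β.im - ρ.re) ^ 2 + (-(s / 2) * β.re - β.im / 4 - ρ.im) ^ 2) =
      β.re ^ 2 / 2 + 2 * β.re * ρ.re + 2 * ρ.re ^ 2 + s ^ 2 * (β.re ^ 2 / 2 + 2 * β.im ^ 2) + β.im ^ 2 / 8
        + β.im * ρ.im + 2 * ρ.im ^ 2 := by ring
  rw [e, h3]
  nlinarith [sq_nonneg (β.re - ρ.re), sq_nonneg (β.im - ρ.im), sq_nonneg (ρ.im)]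

/-- the part of the aligned moments -/
theorem rest_e {P : Par} {β ρ : ℝ → ℂ} {C C' a b x y : ℝ} {D1 D2 : ℝ → ℝ} (h : BM β C) (k : BM ρ C')
    (pβ : ∀ t, β (t + 2 * Real.pi) = β t) (pρ : ∀ t, ρ (t + 2 * Real.pi) = ρ t)
    (w : WOK P.ph1 P.ph2 D1 D2 a b) (hν : P.nu = 1 / 12) (hx : 0 ≤ x) (hy : 0 ≤ y) (hbx : b ≤ 352 * x ^ 2)
    (hby : b ≤ 159 * y ^ 2) (S : Finset ℕ) (hS : ∀ k ∈ S, 5 ≤ k) :
    ∑ k ∈ S, (P.nu / 2 * ‖eR P β ρ k‖ / Real.sqrt (lk k ^ 2 - 1)) ^ 2 ≤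
      (x * N2 (fun t => (β t).re) + y * N2 (fun t => (β t).im) + x * N2 (fun t => ‖ρ t‖)) ^ 2 := by
  obtain ⟨E1, c1⟩ := f1R_BM h k
  obtain ⟨E2, c2⟩ := f2R_BM h k
  set E := max E1 E2 with hE
  have b1 : BM (f1R β ρ) E := ⟨c1.m, fun t => (c1.b t).trans (le_max_left _ _)⟩
  have b2 : BM (f2R β ρ) E := ⟨c2.m, fun t => (c2.b t).trans (le_max_right _ _)⟩
  have hb0 : 0 < b := w.pos.trans_le ((w.l1 0).trans (w.u1 0))
  have ht := eM_tail b1 b2 w 5 S hS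
  have hadd := mY_add_mX b1 b2 w
  have hl : lk 5 = 12 := by unfold lk; norm_num
  rw [hl] at ht
  have hX : 0 ≤ mX (f1R β ρ) (f2R β ρ) P.ph1 P.ph2 D1 D2 := by
    have hp := Real.pi_pos
    unfold mX
    refine mul_nonneg (by positivity) (intervalIntegral.integral_nonneg (by positivity) fun t _ => ?_)
    exact add_nonneg (mul_nonneg (w.pos.le.trans (w.l1 t)) (sq_nonneg _))
      (mul_nonneg (w.pos.le.trans (w.l2 t)) (sq_nonneg _))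
  -- the mean of the squares
  have hbd : 1 / (2 * Real.pi) * ∫ θ in (0 : ℝ)..(2 * Real.pi), (D1 θ * ‖f1R β ρ θ‖ ^ 2 + D2 θ * ‖f2R β ρ θ‖ ^ 2) ≤
      b * (mean fun θ => ‖f1R β ρ θ‖ ^ 2 + ‖f2R β ρ θ‖ ^ 2) := by
    have hD : ∀ {D : ℝ → ℝ}, Measurable D → (∀ t, a ≤ D t) → (∀ t, D t ≤ b) → BR D := fun m l u =>
      ⟨m, b, fun t => by rw [abs_of_nonneg (w.pos.le.trans (l t))]; exact u t⟩
    have q1 := (hD w.k1 w.l1 w.u1).mul (BR.nrm b1).sq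
    have q2 := (hD w.k2 w.l2 w.u2).mul (BR.nrm b2).sq
    have q3 := (((BR.nrm b1).sq).add (BR.nrm b2).sq).cmul b
    rw [← mean_cmul]
    refine mean_mono (q1.add q2) q3 fun t => ?_
    have u1 := mul_le_mul_of_nonneg_right (w.u1 t) (sq_nonneg ‖f1R β ρ t‖)
    have u2 := mul_le_mul_of_nonneg_right (w.u2 t) (sq_nonneg ‖f2R β ρ t‖)
    linarith
  obtain ⟨G1, d1⟩ := g1L_BM h k
  obtain ⟨G2, d2⟩ := g2L_BM h k
  have hm : (mean fun θ => ‖f1R β ρ θ‖ ^ 2 + ‖f2R β ρ θ‖ ^ 2) ≤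
      3 * N2 (fun t => (β t).re) ^ 2 + 53 / 8 * N2 (fun t => (β t).im) ^ 2 + 3 * N2 (fun t => ‖ρ t‖) ^ 2 := by
    rw [mean_add (BR.nrm b1).sq (BR.nrm b2).sq]
    have s1 : (mean fun θ => ‖f1R β ρ θ‖ ^ 2) = mean fun t => ‖g1L (β t) (ρ t)‖ ^ 2 := by
      have := mean_sh (f := fun t => ‖g1L (β t) (ρ t)‖ ^ 2) (fun t => by rw [pβ, pρ]) (-(Real.pi / 3))
      rw [← this]
      refine mean_congr fun t => ?_
      unfold f1R
      rw [norm_mul, norm_ee, one_mul, ← sub_eq_add_neg]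
    have s2 : (mean fun θ => ‖f2R β ρ θ‖ ^ 2) = mean fun t => ‖g2L (β t) (ρ t)‖ ^ 2 := by
      have := mean_sh (f := fun t => ‖g2L (β t) (ρ t)‖ ^ 2) (fun t => by rw [pβ, pρ]) (-(2 * Real.pi / 3))
      rw [← this]
      refine mean_congr fun t => ?_
      unfold f2R
      rw [norm_mul, norm_ee, one_mul, ← sub_eq_add_neg]
    rw [s1, s2, ← mean_add (BR.nrm d1).sq (BR.nrm d2).sq, N2_sq, N2_sq, N2_sq, ← mean_cmul, ← mean_cmul, ← mean_cmul,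
      ← mean_add ((BR.re h).sq.cmul 3) ((BR.im h).sq.cmul (53 / 8)),
      ← mean_add (((BR.re h).sq.cmul 3).add ((BR.im h).sq.cmul (53 / 8))) ((BR.nrm k).sq.cmul 3)]
    exact mean_mono ((BR.nrm d1).sq.add (BR.nrm d2).sq)
      ((((BR.re h).sq.cmul 3).add ((BR.im h).sq.cmul (53 / 8))).add ((BR.nrm k).sq.cmul 3))
      fun t => gL_sq (β t) (ρ t)
  have hm2 := mul_le_mul_of_nonneg_left hm hb0.le
  have hsum : ∑ k ∈ S, ‖eR P β ρ k‖ ^ 2 / (lk k ^ 2 - 1) ≤ 6 / 11 * (b *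
      (3 * N2 (fun t => (β t).re) ^ 2 + 53 / 8 * N2 (fun t => (β t).im) ^ 2 + 3 * N2 (fun t => ‖ρ t‖) ^ 2)) := by
    refine ht.trans ?_
    norm_num at ht ⊢
    linarith
  have e : ∑ k ∈ S, (P.nu / 2 * ‖eR P β ρ k‖ / Real.sqrt (lk k ^ 2 - 1)) ^ 2 =
      1 / 576 * ∑ k ∈ S, ‖eR P β ρ k‖ ^ 2 / (lk k ^ 2 - 1) := by
    rw [Finset.mul_sum]
    refine Finset.sum_congr rfl fun k _ => ?_
    rw [hν, div_pow, Real.sq_sqrt (lk_sq k).le]
    ring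
  rw [e]
  have n2 := N2_nonneg fun t => (β t).re
  have n3 := N2_nonneg fun t => (β t).im
  have n4 := N2_nonneg fun t => ‖ρ t‖
  set X := N2 fun t => (β t).re
  set Y := N2 fun t => (β t).im
  set Z := N2 fun t => ‖ρ t‖
  have m1 := mul_le_mul_of_nonneg_right hbx (sq_nonneg X)
  have m2 := mul_le_mul_of_nonneg_right hby (sq_nonneg Y)
  have m3 := mul_le_mul_of_nonneg_right hbx (sq_nonneg Z)
  have c1 : 0 ≤ x * X * (y * Y) := by positivity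
  have c2 : 0 ≤ x * X * (x * Z) := by positivity
  have c3 : 0 ≤ y * Y * (x * Z) := by positivity
  have c4 : 0 ≤ y ^ 2 * Y ^ 2 := by positivity
  have e5 : (x * X + y * Y + x * Z) ^ 2 = x ^ 2 * X ^ 2 + y ^ 2 * Y ^ 2 + x ^ 2 * Z ^ 2 + 2 * (x * X * (y * Y))
      + 2 * (x * X * (x * Z)) + 2 * (y * Y * (x * Z)) := by ring
  rw [e5]
  linarith

/-- the rows of the rest and of the base -/
noncomputable def qR (P : Par) (β ρ : ℝ → ℂ) (k : ℕ) : ℂ :=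
  ((lk k ^ 2 - 1 : ℝ) : ℂ) * hK β k - ((P.nu / 2 : ℝ) : ℂ) * eR P β ρ k
noncomputable def qB (P : Par) (bs zs : ℝ → ℂ) (k : ℕ) : ℂ :=
  ((lk k ^ 2 - 1 : ℝ) : ℂ) * Hk (P.dal bs) k - ((P.nu / 2 : ℝ) : ℂ) * P.eA bs zs k

/-- the bound of the rest -/
noncomputable def RT (x y : ℝ) (β ρ : ℝ → ℂ) : ℝ :=
  3 / 50 * Np (fun t => (β t).re) + 71 / 200 * Np (fun t => (β t).im) +
    (x * N2 (fun t => (β t).re) + y * N2 (fun t => (β t).im) + x * N2 (fun t => ‖ρ t‖))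

theorem RT_nonneg {x y : ℝ} (hx : 0 ≤ x) (hy : 0 ≤ y) (β ρ : ℝ → ℂ) : 0 ≤ RT x y β ρ := by
  have n2 := N2_nonneg fun t => (β t).re
  have n3 := N2_nonneg fun t => (β t).im
  have n4 := N2_nonneg fun t => ‖ρ t‖
  have n5 : 0 ≤ Np fun t => (β t).re := N2_nonneg _
  have n6 : 0 ≤ Np fun t => (β t).im := N2_nonneg _
  unfold RT
  positivity

/-- THE ROWS `l ≥ 12` OF THE REST -/
theorem rest_q {P : Par} {β ρ : ℝ → ℂ} {C C' a b x y : ℝ} {D1 D2 : ℝ → ℝ} (h : BM β C) (k : BM ρ C')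
    (pβ : ∀ t, β (t + 2 * Real.pi) = β t) (pρ : ∀ t, ρ (t + 2 * Real.pi) = ρ t)
    (w : WOK P.ph1 P.ph2 D1 D2 a b) (hν : P.nu = 1 / 12) (hx : 0 ≤ x) (hy : 0 ≤ y) (hbx : b ≤ 352 * x ^ 2)
    (hby : b ≤ 159 * y ^ 2) (S : Finset ℕ) (hS : ∀ k ∈ S, 5 ≤ k) :
    ∑ k ∈ S, (‖qR P β ρ k‖ / Real.sqrt (lk k ^ 2 - 1)) ^ 2 ≤ RT x y β ρ ^ 2 := by
  have n2 := N2_nonneg fun t => (β t).re
  have n3 := N2_nonneg fun t => (β t).im
  have n4 := N2_nonneg fun t => ‖ρ t‖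
  have n5 : 0 ≤ Np fun t => (β t).re := N2_nonneg _
  have n6 : 0 ≤ Np fun t => (β t).im := N2_nonneg _
  have h1 := rest_H h S hS
  have h2 := rest_e h k pβ pρ w hν hx hy hbx hby S hS
  have hm := mink S (fun k => ‖((lk k ^ 2 - 1 : ℝ) : ℂ) * hK β k‖ / Real.sqrt (lk k ^ 2 - 1))
    (fun k => P.nu / 2 * ‖eR P β ρ k‖ / Real.sqrt (lk k ^ 2 - 1)) (by positivity) (by positivity) h1 h2
  refine (Finset.sum_le_sum fun k _ => ?_).trans hm
  refine pow_le_pow_left₀ (by positivity) ?_ 2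
  rw [← add_div]
  refine div_le_div_of_nonneg_right ?_ (Real.sqrt_nonneg _)
  unfold qR
  refine (norm_sub_le _ _).trans (le_of_eq ?_)
  rw [norm_mul ((P.nu / 2 : ℝ) : ℂ), Complex.norm_real, Real.norm_eq_abs, abs_of_nonneg (by rw [hν]; norm_num)]

/-- the term of the series in `LinP` -/
noncomputable def trm (P : Par) (bs zs β ρ : ℝ → ℂ) (k : ℕ) : ℝ :=
  2 * (Hk (P.dal bs) k * (starRingEnd ℂ) (eR P β ρ k)).re
    + 2 * (hK β k * (starRingEnd ℂ) (P.eA bs zs k + P.ga k)).re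
    - 4 / P.nu * (lk k ^ 2 - 1) * ((starRingEnd ℂ) (Hk (P.dal bs) k) * hK β k).re
    - P.nu * ((starRingEnd ℂ) (P.eA bs zs k - P.ga k) * eR P β ρ k).re / (lk k ^ 2 - 1)

theorem trm_eq {P : Par} (bs zs β ρ : ℝ → ℂ) (hν : 0 < P.nu) (hg : P.ga = fun _ => 0) (k : ℕ) :
    trm P bs zs β ρ k = -(4 / P.nu) * (((starRingEnd ℂ) (qB P bs zs k) * qR P β ρ k).re / (lk k ^ 2 - 1)) := by
  have hq := (lk_sq k).ne'
  have hn := hν.ne'
  unfold trm qB qR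
  rw [hg]
  simp only [add_zero, sub_zero, Complex.mul_re, Complex.mul_im, Complex.conj_re, Complex.conj_im, Complex.sub_re,
    Complex.sub_im, Complex.ofReal_re, Complex.ofReal_im, zero_mul, map_sub, map_mul, Complex.conj_ofReal]
  generalize Hk (P.dal bs) k = a
  generalize eR P β ρ k = e
  generalize hK β k = b
  generalize P.eA bs zs k = E
  generalize lk k ^ 2 - 1 = q at hq
  generalize P.nu = n at hn
  field_simp
  ring

/-- THE TAIL `l ≥ 12` OF THE LINEAR PART -/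
theorem lin_tail {P : Par} {bs zs β ρ : ℝ → ℂ} {C C' a b x y : ℝ} {D1 D2 : ℝ → ℝ} (h : BM β C) (k : BM ρ C')
    (pβ : ∀ t, β (t + 2 * Real.pi) = β t) (pρ : ∀ t, ρ (t + 2 * Real.pi) = ρ t)
    (w : WOK P.ph1 P.ph2 D1 D2 a b) (hν : P.nu = 1 / 12) (hg : P.ga = fun _ => 0) (hx : 0 ≤ x) (hy : 0 ≤ y)
    (hbx : b ≤ 352 * x ^ 2) (hby : b ≤ 159 * y ^ 2) {T : ℝ} (hT : 0 ≤ T)
    (hq : ∀ n : ℕ, ∑ k ∈ Finset.range n, ‖qB P bs zs (k + 5)‖ ^ 2 / (lk (k + 5) ^ 2 - 1) ≤ T ^ 2) :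
    |∑' k : ℕ, trm P bs zs β ρ (k + 5)| ≤ 48 * (T * RT x y β ρ) := by
  have hR := RT_nonneg hx hy β ρ
  have hfin : ∀ n : ℕ, ∑ k ∈ Finset.range n, |trm P bs zs β ρ (k + 5)| ≤ 48 * (T * RT x y β ρ) := by
    intro n
    have h1 : ∑ k ∈ Finset.range n, (‖qB P bs zs (k + 5)‖ / Real.sqrt (lk (k + 5) ^ 2 - 1)) ^ 2 ≤ T ^ 2 := by
      refine le_trans (le_of_eq ?_) (hq n)
      refine Finset.sum_congr rfl fun k _ => ?_
      rw [div_pow, Real.sq_sqrt (lk_sq _).le]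
    have h2 : ∑ k ∈ Finset.range n, (‖qR P β ρ (k + 5)‖ / Real.sqrt (lk (k + 5) ^ 2 - 1)) ^ 2 ≤ RT x y β ρ ^ 2 := by
      have := rest_q h k pβ pρ w hν hx hy hbx hby ((Finset.range n).map (addRightEmbedding 5)) (fun k hk => by
        rw [Finset.mem_map] at hk
        obtain ⟨j, _, rfl⟩ := hk
        show 5 ≤ j + 5
        omega)
      rw [Finset.sum_map] at this
      exact this
    have h3 := fcs (Finset.range n) (fun k => ‖qB P bs zs (k + 5)‖ / Real.sqrt (lk (k + 5) ^ 2 - 1))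
      (fun k => ‖qR P β ρ (k + 5)‖ / Real.sqrt (lk (k + 5) ^ 2 - 1)) hT hR h1 h2
    have h4 : ∀ k ∈ Finset.range n, |trm P bs zs β ρ (k + 5)| ≤
        48 * (‖qB P bs zs (k + 5)‖ / Real.sqrt (lk (k + 5) ^ 2 - 1) *
          (‖qR P β ρ (k + 5)‖ / Real.sqrt (lk (k + 5) ^ 2 - 1))) := by
      intro k _
      have hpos := lk_sq (k + 5)
      rw [trm_eq bs zs β ρ (by rw [hν]; norm_num) hg, hν, abs_mul, abs_div, abs_of_pos hpos]
      have e5 : |-(4 / (1 / 12 : ℝ))| = 48 := by norm_num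
      rw [e5, div_mul_div_comm, Real.mul_self_sqrt hpos.le]
      refine mul_le_mul_of_nonneg_left (div_le_div_of_nonneg_right ?_ hpos.le) (by norm_num)
      refine (Complex.abs_re_le_norm _).trans (le_of_eq ?_)
      rw [norm_mul, RCLike.norm_conj]
    refine (Finset.sum_le_sum h4).trans ?_
    rw [← Finset.mul_sum]
    linarith
  have hs : Summable fun k : ℕ => |trm P bs zs β ρ (k + 5)| :=
    summable_of_sum_range_le (fun k => abs_nonneg _) hfin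
  have h5 : |∑' k : ℕ, trm P bs zs β ρ (k + 5)| ≤ ∑' k : ℕ, |trm P bs zs β ρ (k + 5)| := by
    have := norm_tsum_le_tsum_norm (f := fun k : ℕ => trm P bs zs β ρ (k + 5)) (by simpa only [Real.norm_eq_abs] using hs)
    simpa only [Real.norm_eq_abs] using this
  have h6 := Real.tsum_le_of_sum_range_le (fun k => abs_nonneg _) hfin
  exact h5.trans h6

theorem tailL_eq {P : Par} (bs zs β ρ : ℝ → ℂ) (hg : P.ga = fun _ => 0) :
    TailL P bs zs β ρ = ∑' k : ℕ, trm P bs zs β ρ (k + 5) := by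
  unfold TailL
  refine tsum_congr fun k => ?_
  unfold trm
  rw [hg]
  simp only [add_zero, sub_zero]

theorem per2 {f : ℝ → ℂ} (h : ∀ t, f (t + Real.pi) = f t) (t : ℝ) : f (t + 2 * Real.pi) = f t := by
  rw [show t + 2 * Real.pi = (t + Real.pi) + Real.pi by ring, h, h]
theorem per2n {f : ℝ → ℂ} (h : ∀ t, f (t + Real.pi) = -f t) (t : ℝ) : f (t + 2 * Real.pi) = f t := by
  rw [show t + 2 * Real.pi = (t + Real.pi) + Real.pi by ring, h, h, neg_neg]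

/-- THE TAIL, helper33's form -/
theorem tailL_le {P : Par} {bs zs β ρ : ℝ → ℂ} {a b x y : ℝ} {D1 D2 : ℝ → ℝ} (hR : RB β ρ)
    (w : WOK P.ph1 P.ph2 D1 D2 a b) (hν : P.nu = 1 / 12) (hg : P.ga = fun _ => 0) (hx : 0 ≤ x) (hy : 0 ≤ y)
    (hbx : b ≤ 352 * x ^ 2) (hby : b ≤ 159 * y ^ 2) {T : ℝ} (hT : 0 ≤ T)
    (hq : ∀ n : ℕ, ∑ k ∈ Finset.range n, ‖qB P bs zs (k + 5)‖ ^ 2 / (lk (k + 5) ^ 2 - 1) ≤ T ^ 2) :
    |TailL P bs zs β ρ| ≤ 48 * (T * RT x y β ρ) := by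
  obtain ⟨C, h⟩ := hR.bb
  obtain ⟨C', k⟩ := hR.br
  rw [tailL_eq bs zs β ρ hg]
  exact lin_tail h k (per2 hR.pb) (per2n hR.pr) w hν hg hx hy hbx hby hT hq

/-- weights at most `5` -/
theorem tailL5 {P : Par} {bs zs β ρ : ℝ → ℂ} {a : ℝ} {D1 D2 : ℝ → ℝ} (hR : RB β ρ)
    (w : WOK P.ph1 P.ph2 D1 D2 a 5) (hν : P.nu = 1 / 12) (hg : P.ga = fun _ => 0) {T : ℝ} (hT : 0 ≤ T)
    (hq : ∀ n : ℕ, ∑ k ∈ Finset.range n, ‖qB P bs zs (k + 5)‖ ^ 2 / (lk (k + 5) ^ 2 - 1) ≤ T ^ 2) :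
    |TailL P bs zs β ρ| ≤ T * (144 / 25 * N2 (fun t => ‖ρ t‖) + 216 / 25 * Np (fun t => (β t).re)
      + 3198 / 125 * Np (fun t => (β t).im) + 163 / 20 * ‖fc (fun t => ((β t).re : ℂ)) 2‖
      + 1209 / 100 * ‖fc (fun t => ((β t).im : ℂ)) 2‖) := by
  obtain ⟨C, h⟩ := hR.bb
  have h1 := tailL_le hR w hν hg (x := 3 / 25) (y := 89 / 500) (by norm_num) (by norm_num) (by norm_num) (by norm_num)
    hT hq
  have h2 := N2_le (BR.re h)
  have h3 := N2_le (BR.im h)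
  have n2 := norm_nonneg (fc (fun t => ((β t).re : ℂ)) 2)
  have n3 := norm_nonneg (fc (fun t => ((β t).im : ℂ)) 2)
  refine h1.trans ?_
  rw [← mul_assoc, mul_comm 48 T, mul_assoc]
  refine mul_le_mul_of_nonneg_left ?_ hT
  unfold RT
  linarith

/-- weights at most `10/3` -/
theorem tailL10 {P : Par} {bs zs β ρ : ℝ → ℂ} {a : ℝ} {D1 D2 : ℝ → ℝ} (hR : RB β ρ)
    (w : WOK P.ph1 P.ph2 D1 D2 a (10 / 3)) (hν : P.nu = 1 / 12) (hg : P.ga = fun _ => 0) {T : ℝ} (hT : 0 ≤ T)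
    (hq : ∀ n : ℕ, ∑ k ∈ Finset.range n, ‖qB P bs zs (k + 5)‖ ^ 2 / (lk (k + 5) ^ 2 - 1) ≤ T ^ 2) :
    |TailL P bs zs β ρ| ≤ T * (588 / 125 * N2 (fun t => ‖ρ t‖) + 948 / 125 * Np (fun t => (β t).re)
      + 24 * Np (fun t => (β t).im) + 333 / 50 * ‖fc (fun t => ((β t).re : ℂ)) 2‖
      + 197 / 20 * ‖fc (fun t => ((β t).im : ℂ)) 2‖) := by
  obtain ⟨C, h⟩ := hR.bb
  have h1 := tailL_le hR w hν hg (x := 49 / 500) (y := 29 / 200) (by norm_num) (by norm_num) (by norm_num)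
    (by norm_num) hT hq
  have h2 := N2_le (BR.re h)
  have h3 := N2_le (BR.im h)
  have n2 := norm_nonneg (fc (fun t => ((β t).re : ℂ)) 2)
  have n3 := norm_nonneg (fc (fun t => ((β t).im : ℂ)) 2)
  refine h1.trans ?_
  rw [← mul_assoc, mul_comm 48 T, mul_assoc]
  refine mul_le_mul_of_nonneg_left ?_ hT
  unfold RT
  linarith

/-! ### the base: no rows `l ≥ 12` of `H`, the mass of the aligned moments -/

/-- if the base has no harmonics `l ≥ 12`, `qB = -(ν/2) e_l` -/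
theorem qB_eq {P : Par} {bs zs : ℝ → ℂ} {k : ℕ} (h : Hk (P.dal bs) k = 0) (hν : P.nu = 1 / 12) :
    ‖qB P bs zs k‖ ^ 2 = 1 / 576 * ‖P.eA bs zs k‖ ^ 2 := by
  unfold qB
  rw [h, mul_zero, zero_sub, norm_neg, norm_mul, Complex.norm_real, Real.norm_eq_abs, hν, mul_pow]
  norm_num

end Pool.Agent.Helper26.SH
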