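import Pool.Agent.Helper26.SH.Cont
import Pool.Agent.Helper26.SH.TailG
import Pool.Agent.Helper43.SH.GoodI

/-!
# Project RC, SHARP, zone I: `∑_{l ≥ 32} |e_l(s)|² / (l² - 1) ≤ (361/100 X⁴)²`, `X = A + (8/5) |B| ≤ 1/10`
-/

set_option autoImplicit false

open MeasureTheory Set Filter Topology

namespace Pool.Agent.Helper26.SH

open Helper49.LT hiding sg s3
open Helper49.RC Helper44.GQ Helper49.Sharp
open Helper95.RC (av)
open Helper95.SH (Dat)
open Pool.Agent.Helper43.SH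
open Pool.Agent.Helper33.SH
open Pool.Agent.Helper20.RC (lk lk_ge lk_sq wR eM eD)

theorem two_re' (z : ℂ) : ((2 * z.re : ℝ) : ℂ) = z + (starRingEnd ℂ) z := by
  rw [Complex.add_conj]

theorem sq_norm_c' (a : ℂ) : ((‖a‖ ^ 2 : ℝ) : ℂ) = a * (starRingEnd ℂ) a := by
  rw [Complex.mul_conj, Complex.normSq_eq_norm_sq]

theorem ee_npow (x : ℝ) (n : ℕ) : ee ((n : ℝ) * x) = ee x ^ n := by
  unfold ee
  rw [← Complex.exp_nat_mul]
  congr 1
  push_cast
  ring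

variable {A : ℝ} {B : ℂ}

/-! ### real points -/

theorem fU_real (t : ℝ) : fU A t = (A : ℂ) * ee (-3 * t) := by
  unfold fU
  rw [xx_real]
  norm_num
theorem fUs_real (t : ℝ) : fUs A t = (starRingEnd ℂ) (fU A t) := by
  rw [fU_real, map_mul, Complex.conj_ofReal, conj_ee]
  unfold fUs
  rw [xx_real]
  norm_num
theorem fV_real (t : ℝ) : fV B t = B * ee (-5 * t) := by
  unfold fV
  rw [xx_real]
  norm_num
theorem fVs_real (t : ℝ) : fVs B t = (starRingEnd ℂ) (fV B t) := by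
  rw [fV_real, map_mul, conj_ee]
  unfold fVs
  rw [xx_real]
  norm_num

theorem z0_real (t : ℝ) : fU A t + fV B t - 1 / 2 * fVs B t = z0I A B t := by
  show _ = zB A B t
  unfold zB zp
  rw [fVs_real, fU_real, fV_real]

theorem Zf_real (m : ℂ) (t : ℝ) : Zf A B m t = m * z0I A B t := by
  unfold Zf
  rw [z0_real]

theorem Zs_real (m : ℂ) (t : ℝ) : Zs A B m t = (starRingEnd ℂ) (Zf A B m t) := by
  unfold Zs Zf
  simp only [map_mul, map_sub, map_add, map_div₀, map_one, fUs_real, fVs_real, Complex.conj_conj]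
  have h2 : (starRingEnd ℂ) (2 : ℂ) = 2 := Complex.conj_ofReal 2
  rw [h2]

theorem b2f_real (t : ℝ) : b2f A B t = ((b0I A B t).re : ℂ) := by
  show _ = ((bB cI A B t).re : ℂ)
  rw [bB_re]
  show _ = (b2p cI ((A : ℂ) * ee (-3 * t)) (B * ee (-5 * t)) : ℂ)
  unfold b2p
  rw [Complex.ofReal_add, two_re', Complex.ofReal_add, Complex.ofReal_mul, Complex.ofReal_mul, sq_norm_c', sq_norm_c']
  unfold b2f b2C cI
  rw [fUs_real, fVs_real, fU_real, fV_real]
  simp only [map_add, map_mul, Complex.conj_ofReal, Complex.conj_conj]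
  push_cast
  ring

theorem b3f_real (t : ℝ) : b3f A B t = ((b0I A B t).im : ℂ) := by
  show _ = ((bB cI A B t).im : ℂ)
  rw [bB_im]
  show _ = (b3p cI ((A : ℂ) * ee (-3 * t)) (B * ee (-5 * t)) : ℂ)
  unfold b3p
  rw [two_re']
  unfold b3f b3C cI
  rw [fUs_real, fVs_real, fU_real, fV_real]
  simp only [map_add, map_mul, Complex.conj_ofReal, Complex.conj_conj, Complex.conj_I]
  push_cast
  ring

theorem wf_real (c : ZC) (t : ℝ) : wf A B t = ((PI c A B).w t : ℂ) := by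
  show _ = (wR (-2 * A * (starRingEnd ℂ) B) 0 0 t : ℂ)
  unfold wR
  rw [zero_mul, zero_mul, add_zero, add_zero, Complex.ofReal_add, two_re', map_mul, conj_ee]
  have e1 : ee (2 * t) = ee (-3 * t) * ee (-(-5 * t)) := by rw [← ee_add]; congr 1; ring
  have e2 : ee (-(2 * t)) = ee (-(-3 * t)) * ee (-5 * t) := by rw [← ee_add]; congr 1; ring
  have e3 : (starRingEnd ℂ) (2 : ℂ) = 2 := Complex.conj_ofReal 2
  rw [e1, e2]
  unfold wf wC
  rw [fUs_real, fVs_real, fU_real, fV_real]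
  simp only [map_mul, map_neg, Complex.conj_ofReal, Complex.conj_conj, conj_ee, e3]
  push_cast
  ring

/-- the direction of the edge -/
theorem Vf_real {κ m : ℂ} (hκ : ‖κ‖ = 1) {t : ℝ} (h1 : ‖Zf A B m t‖ < 1) :
    Vf A B κ m t = ee (-(κ * (1 + Zf A B m t)).arg) := by
  set ξ := 1 + Zf A B m t with hξ
  have hs := slit_one h1
  rw [← hξ] at hs
  have hn := slit_ne hs
  have hκ0 : κ ≠ 0 := by
    intro h
    rw [h, norm_zero] at hκ
    norm_num at hκ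
  have e1 : 1 + Zs A B m t = (starRingEnd ℂ) ξ := by rw [hξ, Zs_real, map_add, map_one]
  unfold Vf
  rw [e1, ← hξ, Complex.log_conj ξ (Complex.slitPlane_arg_ne_pi hs)]
  have e2 : ((starRingEnd ℂ) (Complex.log ξ) - Complex.log ξ) / 2 = ((-ξ.arg : ℝ) : ℂ) * Complex.I := by
    have : Complex.log ξ - (starRingEnd ℂ) (Complex.log ξ) = (2 * (Complex.log ξ).im : ℝ) * Complex.I :=
      Complex.sub_conj _
    rw [Complex.log_im] at this
    push_cast at this ⊢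
    linear_combination (-(1 : ℂ) / 2) * this
  rw [e2]
  show (starRingEnd ℂ) κ * ee (-ξ.arg) = _
  have e3 : ee ((κ * ξ).arg) = κ * ee ξ.arg := by
    rw [Pool.Agent.Helper33.SH.ee_arg (mul_ne_zero hκ0 hn), Pool.Agent.Helper33.SH.ee_arg hn, norm_mul, hκ, one_mul, mul_div_assoc]
  rw [← conj_ee, ← conj_ee, e3, map_mul]

/-- the density of one edge at real points -/
theorem Ph1_real {κ m x2 y2 x3 y3 : ℂ} {l : ℕ} (hκ : ‖κ‖ = 1) (hl : 1 ≤ l) (hx2 : (starRingEnd ℂ) x2 = y2)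
    (hx3 : (starRingEnd ℂ) x3 = y3) {t : ℝ} (h1 : ‖Zf A B m t‖ < 1) (c : ZC) (g : ℂ)
    (hg : g = κ * (1 + Zf A B m t) + (x2 * ((b0I A B t).re : ℂ) + x3 * ((b0I A B t).im : ℂ))) :
    ee (-((l : ℝ) * t)) * eF (l : ℝ) (((PI c A B).w t : ℂ) * g) (κ * (1 + Zf A B m t)).arg =
      Ph1 A B κ m x2 y2 x3 y3 l t := by
  have h2 : ‖Zs A B m t‖ < 1 := by rw [Zs_real, Complex.norm_conj]; exact h1
  have hκκ : κ * (starRingEnd ℂ) κ = 1 := by
    rw [Complex.mul_conj, Complex.normSq_eq_norm_sq, hκ]; norm_num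
  have hV := Vf_real hκ h1
  have hV2 := Vf_sq hκ h1 h2
  have hn := slit_ne (slit_one h1)
  set a := (κ * (1 + Zf A B m t)).arg with ha
  set V := Vf A B κ m t with hVd
  have e1 : ee (-(((l : ℝ) + 1) * a)) = V ^ (l - 1) * V ^ 2 := by
    rw [hV, ← pow_add, ← ee_npow]
    congr 1
    have : ((l - 1 + 2 : ℕ) : ℝ) = (l : ℝ) + 1 := by
      rw [show l - 1 + 2 = l + 1 by omega]; push_cast; ring
    rw [this]
    ring
  have e2 : ee (-(((l : ℝ) - 1) * a)) = V ^ (l - 1) := by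
    rw [hV, ← ee_npow]
    congr 1
    rw [Nat.cast_sub hl]
    push_cast
    ring
  have e3 : ee (-((l : ℝ) * t)) = xx (-(l : ℤ)) t := by
    rw [xx_real]
    congr 1
    push_cast
    ring
  have e4 : (starRingEnd ℂ) g = (starRingEnd ℂ) κ * (1 + Zs A B m t)
      + (y2 * ((b0I A B t).re : ℂ) + y3 * ((b0I A B t).im : ℂ)) := by
    rw [hg, Zs_real]
    simp only [map_add, map_mul, map_one, Complex.conj_ofReal, hx2, hx3]
  have e5 : κ * (1 + Zf A B m t) * V ^ 2 = (starRingEnd ℂ) κ * (1 + Zs A B m t) := by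
    rw [hV2]
    have : κ * (1 + Zf A B m t) * ((starRingEnd ℂ) κ ^ 2 * ((1 + Zs A B m t) / (1 + Zf A B m t))) =
        (κ * (starRingEnd ℂ) κ) * (starRingEnd ℂ) κ * (1 + Zs A B m t) := by
      field_simp
    rw [this, hκκ, one_mul]
  unfold eF Ph1 Lg
  rw [b2f_real, b3f_real, wf_real c, e3, map_mul, Complex.conj_ofReal, e1, e2, e4, hg]
  set w : ℂ := ((PI c A B).w t : ℂ)
  set b2 : ℂ := ((b0I A B t).re : ℂ)
  set b3 : ℂ := ((b0I A B t).im : ℂ)
  set X := 1 + Zf A B m t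
  set Xs := 1 + Zs A B m t
  have hc : (((l : ℕ) : ℝ) : ℂ) = (l : ℂ) := by push_cast; rfl
  rw [hc]
  linear_combination (xx (-(l : ℤ)) t * V ^ (l - 1) * w * ((1 - (l : ℂ)) / 2)) * e5

/-! ### the two edges -/

theorem g1_eq' (t : ℝ) : g1 (b0I A B t) (z0I A B t) = om * (1 + Zf A B ((starRingEnd ℂ) om) t)
    + ((starRingEnd ℂ) om * ((b0I A B t).re : ℂ) + (⟨Real.sqrt 3, 1 / 4⟩ : ℂ) * ((b0I A B t).im : ℂ)) := by
  rw [Zf_real]
  have e1 : om * (1 + (starRingEnd ℂ) om * z0I A B t) = om + z0I A B t := by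
    linear_combination (z0I A B t) * om_mul
  rw [e1]
  apply Complex.ext
  · rw [g1_re]
    simp only [Complex.add_re, Complex.mul_re, Complex.ofReal_re, Complex.ofReal_im, mul_zero, sub_zero,
      Complex.conj_re, om_r]
    ring
  · rw [g1_im]
    simp only [Complex.add_im, Complex.mul_im, Complex.ofReal_re, Complex.ofReal_im, mul_zero, zero_add,
      Complex.conj_im, om_i]
    ring

theorem g2_eq' (t : ℝ) : g2 (b0I A B t) (z0I A B t) = om ^ 2 * (1 + Zf A B om t)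
    + (-om * ((b0I A B t).re : ℂ) + (⟨Real.sqrt 3, -(1 / 4)⟩ : ℂ) * ((b0I A B t).im : ℂ)) := by
  rw [Zf_real]
  have e1 : om ^ 2 * (1 + om * z0I A B t) = om ^ 2 - z0I A B t := by
    linear_combination (z0I A B t) * om_cube
  rw [e1]
  apply Complex.ext
  · rw [g2_re]
    simp only [Complex.add_re, Complex.sub_re, Complex.mul_re, Complex.ofReal_re, Complex.ofReal_im, mul_zero,
      sub_zero, Complex.neg_re, om_r, om_sq_re]
    ring
  · rw [g2_im]
    simp only [Complex.add_im, Complex.sub_im, Complex.mul_im, Complex.ofReal_re, Complex.ofReal_im, mul_zero,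
      zero_add, Complex.neg_im, om_i, om_sq_im]
    ring

theorem norm_s34 (s : ℝ) (hs : s ^ 2 = 1 / 16) : ‖(⟨Real.sqrt 3, s⟩ : ℂ)‖ = 7 / 4 := by
  have h3 : Real.sqrt 3 ^ 2 = 3 := Real.sq_sqrt (by norm_num)
  have h := norm_sq_ri (⟨Real.sqrt 3, s⟩ : ℂ)
  simp only at h
  rw [h3, hs] at h
  have h2 : ‖(⟨Real.sqrt 3, s⟩ : ℂ)‖ ^ 2 = (7 / 4) ^ 2 := by rw [h]; norm_num
  exact (pow_left_inj₀ (norm_nonneg _) (by norm_num) (by norm_num)).1 h2

/-- EVERY MOMENT OF THE BASE, contour bound -/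
theorem eA_le (c : ZC) (hρ : 100 ≤ c.rho) (hm' : c.lam ≤ c.m) {E r : ℝ} (hE : 1 ≤ E) (hE2 : 459 / 200 ≤ E ^ 2)
    (hE6 : 12 ≤ E ^ 6) (hE10 : 64 ≤ E ^ 10) (hA : 0 ≤ A)
    (hX : (A + 8 / 5 * ‖B‖) * E ^ 5 ≤ 4 / 5) (hX1 : A + 8 / 5 * ‖B‖ ≤ 1 / 10)
    (hr : 0 ≤ r) (hr2 : r ^ 2 = 3 / 2) (k : ℕ) :
    ‖(PI c A B).eA (b0I A B) (z0I A B) k‖ ≤
      2 * ((E ^ (2 * k + 2))⁻¹ * r ^ (2 * k + 1) * (101 / 100) * (1483 / 1000 + 21 / 200 * (2 * k + 2))) := by
  have hB := norm_nonneg B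
  have hZ : |A| + 2 * ‖B‖ ≤ 1 / 4 := by rw [abs_of_nonneg hA]; linarith
  have hreg := reg_PI (c := c) hZ hρ hm'
  have hlog : 0 ≤ Real.log E := Real.log_nonneg hE
  set l : ℕ := 2 * k + 2 with hl
  have hk : lk k = (((l : ℕ) : ℤ) : ℝ) := by
    unfold lk
    rw [hl]
    push_cast
    ring
  have hlc : (((l : ℕ) : ℤ) : ℝ) = (l : ℝ) := by push_cast; rfl
  have hdat := dat_PI hZ
  have hF := eM_data hreg hdat (l : ℤ)
  have n1 : ‖(starRingEnd ℂ) om‖ = 1 := om_conj_norm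
  have hz : ∀ (m : ℂ), ‖m‖ = 1 → ∀ t : ℝ, ‖Zf A B m t‖ < 1 := fun m hm t =>
    (strip_lt hE hE2 hA hX hX1 hm (z := (t : ℂ)) (by simp; exact hlog) (by simp)).1
  have q1 : ∀ t : ℝ, ee (-((l : ℝ) * t)) * eF (l : ℝ) (((PI c A B).w t : ℂ) * g1 (b0I A B t) (z0I A B t))
      ((PI c A B).ph1 (t + Real.pi / 3) - t) = Ph1 A B om ((starRingEnd ℂ) om) ((starRingEnd ℂ) om) om
        ⟨Real.sqrt 3, 1 / 4⟩ ⟨Real.sqrt 3, -(1 / 4)⟩ l t := by
    intro t
    have ha : (PI c A B).ph1 (t + Real.pi / 3) - t = (om * (1 + Zf A B ((starRingEnd ℂ) om) t)).arg := by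
      show t + Real.pi / 3 - Real.pi / 3 + (om + z0I A B (t + Real.pi / 3 - Real.pi / 3)).arg - t = _
      rw [add_sub_cancel_right, Zf_real]
      have e1 : om * (1 + (starRingEnd ℂ) om * z0I A B t) = om + z0I A B t := by
        linear_combination (z0I A B t) * om_mul
      rw [e1]
      ring
    rw [ha]
    exact Ph1_real om_norm (by omega) (Complex.conj_conj om) (by apply Complex.ext <;> simp) (hz _ n1 t) c _
      (g1_eq' t)
  have q2 : ∀ t : ℝ, ee (-((l : ℝ) * t)) * eF (l : ℝ) (((PI c A B).w t : ℂ) * g2 (b0I A B t) (z0I A B t))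
      ((PI c A B).ph2 (t + 2 * Real.pi / 3) - t) = Ph1 A B (om ^ 2) om (-om) (-(starRingEnd ℂ) om)
        ⟨Real.sqrt 3, -(1 / 4)⟩ ⟨Real.sqrt 3, 1 / 4⟩ l t := by
    intro t
    have ha : (PI c A B).ph2 (t + 2 * Real.pi / 3) - t = (om ^ 2 * (1 + Zf A B om t)).arg := by
      show t + 2 * Real.pi / 3 - 2 * Real.pi / 3 + (om ^ 2 - z0I A B (t + 2 * Real.pi / 3 - 2 * Real.pi / 3)).arg - t = _
      rw [add_sub_cancel_right, Zf_real]
      have e1 : om ^ 2 * (1 + om * z0I A B t) = om ^ 2 - z0I A B t := by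
        linear_combination (z0I A B t) * om_cube
      rw [e1]
      ring
    rw [ha]
    exact Ph1_real (by rw [norm_pow, om_norm, one_pow]) (by omega) (by rw [map_neg]) (by apply Complex.ext <;> simp)
      (hz _ om_norm t) c _ (g2_eq' t)
  have hcont : ∀ {κ m x2 y2 x3 y3 : ℂ}, ‖m‖ = 1 → Continuous fun t : ℝ => Ph1 A B κ m x2 y2 x3 y3 l t := by
    intro κ m x2 y2 x3 y3 hm
    refine continuous_iff_continuousAt.2 fun t => ?_
    obtain ⟨z1, z2⟩ := strip_lt hE hE2 hA hX hX1 hm (z := (t : ℂ)) (by simp; exact hlog) (by simp)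
    exact ((Ph1_diff (κ := κ) (x2 := x2) (y2 := y2) (x3 := x3) (y3 := y3) (l := l) z1 z2).continuousAt).comp
      Complex.continuous_ofReal.continuousAt
  have e0 : (PI c A B).eA (b0I A B) (z0I A B) k =
      (1 / (2 * Real.pi) : ℂ) * (∫ t in (0 : ℝ)..(2 * Real.pi), Ph1 A B om ((starRingEnd ℂ) om) ((starRingEnd ℂ) om) om
        ⟨Real.sqrt 3, 1 / 4⟩ ⟨Real.sqrt 3, -(1 / 4)⟩ l t)
      + (1 / (2 * Real.pi) : ℂ) * (∫ t in (0 : ℝ)..(2 * Real.pi), Ph1 A B (om ^ 2) om (-om) (-(starRingEnd ℂ) om)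
        ⟨Real.sqrt 3, -(1 / 4)⟩ ⟨Real.sqrt 3, 1 / 4⟩ l t) := by
    unfold Par.eA
    rw [hk, hF, ← mul_add, ← intervalIntegral.integral_add ((hcont n1).intervalIntegrable _ _)
      ((hcont om_norm).intervalIntegrable _ _)]
    unfold av
    congr 1
    refine intervalIntegral.integral_congr fun t _ => ?_
    show ee (-((((l : ℕ) : ℤ) : ℝ) * t)) * (eF (((l : ℕ) : ℤ) : ℝ) _ _ + eF (((l : ℕ) : ℤ) : ℝ) _ _) = _
    rw [hlc, mul_add, q1, q2]
  have nO : (om ^ 2).re = -(1 / 2) := om_sq_re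
  have i1 := Ph1_int (κ := om) (m := (starRingEnd ℂ) om) (x2 := (starRingEnd ℂ) om) (y2 := om)
    (x3 := ⟨Real.sqrt 3, 1 / 4⟩) (y3 := ⟨Real.sqrt 3, -(1 / 4)⟩) (l := l) hE hE2 hE6 hE10 hA hX hX1 om_norm n1
    om_conj_sq_re n1 om_norm (norm_s34 _ (by norm_num)) (norm_s34 _ (by norm_num)) hr hr2 (by omega)
  have i2 := Ph1_int (κ := om ^ 2) (m := om) (x2 := -om) (y2 := -(starRingEnd ℂ) om)
    (x3 := ⟨Real.sqrt 3, -(1 / 4)⟩) (y3 := ⟨Real.sqrt 3, 1 / 4⟩) (l := l) hE hE2 hE6 hE10 hA hX hX1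
    (by rw [norm_pow, om_norm, one_pow]) om_norm nO (by rw [norm_neg, om_norm]) (by rw [norm_neg, n1])
    (norm_s34 _ (by norm_num)) (norm_s34 _ (by norm_num)) hr hr2 (by omega)
  rw [e0]
  refine (norm_add_le _ _).trans ((add_le_add i1 i2).trans (le_of_eq ?_))
  have hl2 : ((l : ℕ) : ℝ) = 2 * k + 2 := by rw [hl]; push_cast; ring
  rw [show l - 1 = 2 * k + 1 by omega, hl2]
  ring

end Pool.Agent.Helper26.SH
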