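import Mathlib

/-!
# Project RC, SHARP: the mean of `(a + b cos (5 t + φ))^7`
-/

set_option autoImplicit false

open MeasureTheory Set Filter Topology

namespace Pool.Agent.Helper26.SH

theorem cos4 (x : ℝ) : Real.cos (4 * x) = 8 * Real.cos x ^ 4 - 8 * Real.cos x ^ 2 + 1 := by
  rw [show 4 * x = 2 * (2 * x) by ring, Real.cos_two_mul, Real.cos_two_mul]
  ring

theorem cos5 (x : ℝ) : Real.cos (5 * x) = 16 * Real.cos x ^ 5 - 20 * Real.cos x ^ 3 + 5 * Real.cos x := by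
  have h1 := Real.cos_add (3 * x) (2 * x)
  have h2 := Real.cos_sub (3 * x) (2 * x)
  rw [show 3 * x + 2 * x = 5 * x by ring] at h1
  rw [show 3 * x - 2 * x = x by ring] at h2
  rw [Real.cos_two_mul, Real.cos_three_mul] at h1 h2
  linear_combination h1 + h2

theorem cos6 (x : ℝ) : Real.cos (6 * x) = 32 * Real.cos x ^ 6 - 48 * Real.cos x ^ 4 + 18 * Real.cos x ^ 2 - 1 := by
  rw [show 6 * x = 2 * (3 * x) by ring, Real.cos_two_mul, Real.cos_three_mul]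
  ring

theorem cos7 (x : ℝ) : Real.cos (7 * x) =
    64 * Real.cos x ^ 7 - 112 * Real.cos x ^ 5 + 56 * Real.cos x ^ 3 - 7 * Real.cos x := by
  have h1 := Real.cos_add (4 * x) (3 * x)
  have h2 := Real.cos_sub (4 * x) (3 * x)
  rw [show 4 * x + 3 * x = 7 * x by ring] at h1
  rw [show 4 * x - 3 * x = x by ring] at h2
  rw [cos4, Real.cos_three_mul] at h1 h2
  linear_combination h1 + h2

/-- the mean -/
noncomputable def M7 (a b : ℝ) : ℝ := a ^ 7 + 21 / 2 * a ^ 5 * b + 105 / 8 * a ^ 3 * b ^ 2 + 35 / 16 * a * b ^ 3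

theorem M7_mono {a a' b b' : ℝ} (ha : 0 ≤ a) (hb : 0 ≤ b) (h : a ≤ a') (h' : b ≤ b') : M7 a b ≤ M7 a' b' := by
  unfold M7
  have ha' := ha.trans h
  have hb' := hb.trans h'
  gcongr

theorem expand7 (a b x : ℝ) : (a + b * Real.cos x) ^ 7 = M7 a (b ^ 2)
    + (7 * a ^ 6 * b + 105 / 4 * a ^ 4 * b ^ 3 + 105 / 8 * a ^ 2 * b ^ 5 + 35 / 64 * b ^ 7) * Real.cos (1 * x)
    + (21 / 2 * a ^ 5 * b ^ 2 + 35 / 2 * a ^ 3 * b ^ 4 + 105 / 32 * a * b ^ 6) * Real.cos (2 * x)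
    + (35 / 4 * a ^ 4 * b ^ 3 + 105 / 16 * a ^ 2 * b ^ 5 + 21 / 64 * b ^ 7) * Real.cos (3 * x)
    + (35 / 8 * a ^ 3 * b ^ 4 + 21 / 16 * a * b ^ 6) * Real.cos (4 * x)
    + (21 / 16 * a ^ 2 * b ^ 5 + 7 / 64 * b ^ 7) * Real.cos (5 * x)
    + 7 / 32 * a * b ^ 6 * Real.cos (6 * x) + 1 / 64 * b ^ 7 * Real.cos (7 * x) := by
  rw [one_mul, Real.cos_two_mul, Real.cos_three_mul, cos4, cos5, cos6, cos7]
  unfold M7
  ring

theorem dsin (k φ c t : ℝ) (hk : k ≠ 0) : HasDerivAt (fun t : ℝ => c * (Real.sin (k * (5 * t + φ)) / (5 * k)))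
    (c * Real.cos (k * (5 * t + φ))) t := by
  have h1 : HasDerivAt (fun t : ℝ => k * (5 * t + φ)) (k * 5) t := by
    have := (((hasDerivAt_id t).const_mul 5).add_const φ).const_mul k
    simpa using this
  have h2 := ((h1.sin).div_const (5 * k)).const_mul c
  refine h2.congr_deriv ?_
  field_simp

theorem mean7 (a b φ : ℝ) : ∫ t in (0 : ℝ)..(2 * Real.pi), (a + b * Real.cos (5 * t + φ)) ^ 7 =
    2 * Real.pi * M7 a (b ^ 2) := by
  have hd : ∀ t ∈ Set.uIcc (0 : ℝ) (2 * Real.pi), HasDerivAt (fun t : ℝ => M7 a (b ^ 2) * t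
      + (7 * a ^ 6 * b + 105 / 4 * a ^ 4 * b ^ 3 + 105 / 8 * a ^ 2 * b ^ 5 + 35 / 64 * b ^ 7) * (Real.sin (1 * (5 * t + φ)) / (5 * 1))
      + (21 / 2 * a ^ 5 * b ^ 2 + 35 / 2 * a ^ 3 * b ^ 4 + 105 / 32 * a * b ^ 6) * (Real.sin (2 * (5 * t + φ)) / (5 * 2))
      + (35 / 4 * a ^ 4 * b ^ 3 + 105 / 16 * a ^ 2 * b ^ 5 + 21 / 64 * b ^ 7) * (Real.sin (3 * (5 * t + φ)) / (5 * 3))
      + (35 / 8 * a ^ 3 * b ^ 4 + 21 / 16 * a * b ^ 6) * (Real.sin (4 * (5 * t + φ)) / (5 * 4))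
      + (21 / 16 * a ^ 2 * b ^ 5 + 7 / 64 * b ^ 7) * (Real.sin (5 * (5 * t + φ)) / (5 * 5))
      + 7 / 32 * a * b ^ 6 * (Real.sin (6 * (5 * t + φ)) / (5 * 6)) + 1 / 64 * b ^ 7 * (Real.sin (7 * (5 * t + φ)) / (5 * 7)))
      ((a + b * Real.cos (5 * t + φ)) ^ 7) t := by
    intro t _
    rw [expand7]
    have h0 : HasDerivAt (fun t : ℝ => M7 a (b ^ 2) * t) (M7 a (b ^ 2)) t := by
      simpa using (hasDerivAt_id t).const_mul (M7 a (b ^ 2))
    exact ((((((h0.add (dsin 1 φ _ t (by norm_num))).add (dsin 2 φ _ t (by norm_num))).add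
      (dsin 3 φ _ t (by norm_num))).add (dsin 4 φ _ t (by norm_num))).add (dsin 5 φ _ t (by norm_num))).add
      (dsin 6 φ _ t (by norm_num))).add (dsin 7 φ _ t (by norm_num))
  have hi : IntervalIntegrable (fun t : ℝ => (a + b * Real.cos (5 * t + φ)) ^ 7) volume 0 (2 * Real.pi) :=
    (by fun_prop : Continuous fun t : ℝ => (a + b * Real.cos (5 * t + φ)) ^ 7).intervalIntegrable _ _
  rw [intervalIntegral.integral_eq_sub_of_hasDerivAt hd hi]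
  have hs : ∀ k : ℕ, Real.sin ((k : ℝ) * (5 * (2 * Real.pi) + φ)) = Real.sin ((k : ℝ) * (5 * 0 + φ)) := by
    intro k
    have := Real.sin_add_nat_mul_two_pi ((k : ℝ) * (5 * 0 + φ)) (5 * k)
    rw [← this]
    congr 1
    push_cast
    ring
  have s1 := hs 1
  have s2 := hs 2
  have s3 := hs 3
  have s4 := hs 4
  have s5 := hs 5
  have s6 := hs 6
  have s7 := hs 7
  push_cast at s1 s2 s3 s4 s5 s6 s7
  rw [s1, s2, s3, s4, s5, s6, s7]
  ring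

end Pool.Agent.Helper26.SH
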