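import Pool.Agent.Helper26.SH.ContR
import Pool.Agent.Helper26.SH.Mean7

/-!
# Project RC, SHARP, zone I: the moments `e_l`, `l ≥ 32`, mean on the contour

`aff`: `|1 + Q|² ≤ (α + Re (e Q) / d) |1 + c Q|²`. So `|V|⁴ ≤ k₁ (α + b cos (5 t + φ)) + k₀` on the shifted line, and the
mean of `|V|^28` is at most `88` instead of `(3/2)^14 = 291`.
-/

set_option autoImplicit false

open MeasureTheory Set Filter Topology

namespace Pool.Agent.Helper26.SH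

open Helper49.LT hiding sg s3

/-! ### the affine majorant -/

theorem formge {x y κ α σ Λ : ℝ} (hκ : κ ^ 2 = 3 / 16) (hα : α = 1 + σ) (hΛ : 0 < Λ) (hs : 0 ≤ σ) (hs1 : σ ≤ 1)
    (h : 3 / 4 ≤ Λ ^ 2 - σ * Λ) : 0 ≤ 4 * (x / 4 - κ * y) * (x - α * (x / 4 - κ * y)) + Λ * (x ^ 2 + y ^ 2) := by
  have ha : 0 < Λ + 1 - α / 4 := by rw [hα]; linarith
  have hc : (κ * (α - 2)) ^ 2 ≤ (Λ + 1 - α / 4) * (Λ - 3 / 4 * α) := by
    have e : (κ * (α - 2)) ^ 2 = 3 / 16 * (α - 2) ^ 2 := by rw [mul_pow, hκ]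
    rw [e, hα]
    nlinarith
  have e1 : (Λ + 1 - α / 4) * (4 * (x / 4 - κ * y) * (x - α * (x / 4 - κ * y)) + Λ * (x ^ 2 + y ^ 2)) =
      ((Λ + 1 - α / 4) * x + κ * (α - 2) * y) ^ 2
      + ((Λ + 1 - α / 4) * (Λ - 3 / 4 * α) - (κ * (α - 2)) ^ 2) * y ^ 2
      + (Λ + 1 - α / 4) * (3 / 4 * α - 4 * α * κ ^ 2) * y ^ 2 := by ring
  rw [hκ] at e1
  have h2 : 0 ≤ (Λ + 1 - α / 4) * (4 * (x / 4 - κ * y) * (x - α * (x / 4 - κ * y)) + Λ * (x ^ 2 + y ^ 2)) := by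
    rw [e1]
    have := mul_nonneg (sub_nonneg.2 hc) (sq_nonneg y)
    nlinarith [sq_nonneg ((Λ + 1 - α / 4) * x + κ * (α - 2) * y)]
  exact nonneg_of_mul_nonneg_right h2 ha

/-- `α` -/
noncomputable def alq (q : ℝ) : ℝ := 1 + 169 / 100 * q ^ 2
/-- `e` -/
noncomputable def eq2 (c : ℂ) (q : ℝ) : ℂ := 2 - 2 * (alq q : ℂ) * c

theorem aff {c Q : ℂ} {q : ℝ} (hc : ‖c‖ = 1 / 2) (hr : c.re = 1 / 4) (hQ : ‖Q‖ = q) (hq : q ≤ 1 / 2) :
    ‖1 + Q‖ ^ 2 ≤ (alq q + (eq2 c q * Q).re / (1 + q ^ 2 / 4)) * ‖1 + c * Q‖ ^ 2 := by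
  have hq0 : 0 ≤ q := by rw [← hQ]; exact norm_nonneg _
  have hd : 0 < 1 + q ^ 2 / 4 := by positivity
  have nc := norm_sq_ri c
  rw [hc, hr] at nc
  have nQ := norm_sq_ri Q
  rw [hQ] at nQ
  have hκ : c.im ^ 2 = 3 / 16 := by linarith
  set x := Q.re
  set y := Q.im
  set κ := c.im
  rw [norm_sq_ri, norm_sq_ri]
  have e1 : (eq2 c q * Q).re = 2 * (x - alq q * (x / 4 - κ * y)) := by
    unfold eq2
    have : (2 - 2 * (alq q : ℂ) * c) * Q = ((2 : ℝ) : ℂ) * Q - ((2 * alq q : ℝ) : ℂ) * (c * Q) := by push_cast; ring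
    rw [this, Complex.sub_re, Complex.re_ofReal_mul, Complex.re_ofReal_mul, Complex.mul_re, hr]
    ring
  rw [e1]
  simp only [Complex.add_re, Complex.add_im, Complex.one_re, Complex.one_im, Complex.mul_re, Complex.mul_im, hr]
  have hσ : 0 ≤ 169 / 100 * q ^ 2 := by positivity
  have hq2 : q ^ 2 ≤ 1 / 4 := by nlinarith
  have hσ1 : 169 / 100 * q ^ 2 ≤ 1 := by linarith
  set σ := 169 / 100 * q ^ 2 with hσd
  have hf := formge (x := x) (y := y) (κ := κ) (α := alq q) (σ := σ)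
    (Λ := σ / 2 + 866026 / 1000000 + 1444 / 10000 * σ ^ 2) hκ (by unfold alq; rw [hσd]) (by positivity) hσ hσ1
    (by nlinarith [sq_nonneg (σ ^ 2)])
  have hal : alq q = 1 + σ := by unfold alq; rw [hσd]
  set a := alq q
  set u := x / 4 - κ * y with hu
  have hΛ : (σ / 2 + 866026 / 1000000 + 1444 / 10000 * σ ^ 2) * q ^ 2 ≤
      a * (1 + q ^ 2 / 4) ^ 2 - (1 + q ^ 2 / 4) * (1 + q ^ 2) := by
    have e : a * (1 + q ^ 2 / 4) ^ 2 - (1 + q ^ 2 / 4) * (1 + q ^ 2) =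
        q ^ 2 * ((1 + q ^ 2 / 4) * (169 / 100 * (1 + q ^ 2 / 4) - 3 / 4)) := by rw [hal, hσd]; ring
    rw [e, mul_comm]
    refine mul_le_mul_of_nonneg_left ?_ (sq_nonneg q)
    rw [hσd]
    nlinarith [sq_nonneg q, mul_nonneg (sq_nonneg q) (sub_nonneg.2 hq2)]
  have hdef : (1 + (1 / 4 * x - κ * y)) ^ 2 + (0 + (1 / 4 * y + κ * x)) ^ 2 = (1 + q ^ 2 / 4) + 2 * u := by
    have h1 : (1 + (1 / 4 * x - κ * y)) ^ 2 + (0 + (1 / 4 * y + κ * x)) ^ 2 =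
        1 + 2 * u + (1 / 16 + κ ^ 2) * (x ^ 2 + y ^ 2) := by rw [hu]; ring
    rw [h1, hκ, ← nQ]
    ring
  have hdef2 : (1 + x) ^ 2 + (0 + y) ^ 2 = 1 + q ^ 2 + 2 * x := by rw [nQ]; ring
  rw [hdef, hdef2]
  rw [← nQ] at hf
  have key : (1 + q ^ 2 / 4) * (1 + q ^ 2 + 2 * x) ≤
      (a * (1 + q ^ 2 / 4) + 2 * (x - a * u)) * ((1 + q ^ 2 / 4) + 2 * u) := by nlinarith
  have e2 : (a + 2 * (x - a * u) / (1 + q ^ 2 / 4)) * (1 + q ^ 2 / 4 + 2 * u) =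
      (a * (1 + q ^ 2 / 4) + 2 * (x - a * u)) * ((1 + q ^ 2 / 4) + 2 * u) / (1 + q ^ 2 / 4) := by
    field_simp
  rw [e2, le_div_iff₀ hd]
  linarith

theorem eq2_norm {c : ℂ} {q : ℝ} (hc : ‖c‖ = 1 / 2) (hr : c.re = 1 / 4) :
    ‖eq2 c q‖ ^ 2 = 3 + (169 / 100 * q ^ 2) ^ 2 := by
  have nc := norm_sq_ri c
  rw [hc, hr] at nc
  rw [norm_sq_ri]
  unfold eq2
  have e : (2 - 2 * (alq q : ℂ) * c) = ((2 : ℝ) : ℂ) - ((2 * alq q : ℝ) : ℂ) * c := by push_cast; ring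
  rw [e, Complex.sub_re, Complex.sub_im, Complex.re_ofReal_mul, Complex.im_ofReal_mul, Complex.ofReal_re,
    Complex.ofReal_im, hr]
  unfold alq
  nlinarith

/-- perturbation of the quotient -/
theorem rat2 {N1 N2 a S L p1 ε S0 h : ℝ} (h1 : N1 ≤ a + p1) (h1' : 0 ≤ N1) (h2 : S - ε ≤ N2) (hp1 : 0 ≤ p1)
    (hε : 0 ≤ ε) (hL : 0 ≤ L) (haL : a ^ 2 ≤ L * S ^ 2) (hS : S0 ≤ S) (hS0 : ε < S0)
    (hh : h * (S0 - ε) = 1) :
    N1 ^ 2 ≤ (((S0 * h) ^ 2 + S0 * h * (h * p1) * (5 / 6)) * L + (6 / 5 * (S0 * h) * (h * p1) + (h * p1) ^ 2)) * N2 ^ 2 := by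
  have hX0 : 0 < S0 - ε := by linarith
  have hX : 0 < S - ε := by linarith
  have hh0 : 0 < h := by
    by_contra hc
    push Not at hc
    nlinarith
  have hS00 : 0 < S0 := by linarith
  have hSp : 0 < S := by linarith
  obtain ⟨r, hr, hr2⟩ : ∃ r : ℝ, 0 ≤ r ∧ r ^ 2 = L := ⟨Real.sqrt L, Real.sqrt_nonneg _, Real.sq_sqrt hL⟩
  have ha : a ≤ r * S := by
    refine le_of_sq_le_sq ?_ (by positivity)
    rw [mul_pow, hr2]
    exact haL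
  have g1 : S ≤ S0 * h * (S - ε) := by
    have e : S0 * h * (S - ε) - S = h * ε * (S - S0) := by linear_combination S * hh
    have : 0 ≤ h * ε * (S - S0) := mul_nonneg (mul_nonneg hh0.le hε) (by linarith)
    linarith
  have g2 : 1 ≤ h * (S - ε) := by
    have : h * (S0 - ε) ≤ h * (S - ε) := mul_le_mul_of_nonneg_left (by linarith) hh0.le
    linarith
  have g3 : N1 ≤ (r * (S0 * h) + h * p1) * (S - ε) := by
    have q1 := mul_le_mul_of_nonneg_left g1 hr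
    have q2 := mul_le_mul_of_nonneg_left g2 hp1
    nlinarith
  have g4 : N1 ≤ (r * (S0 * h) + h * p1) * N2 :=
    g3.trans (mul_le_mul_of_nonneg_left h2 (by positivity))
  have g5 := pow_le_pow_left₀ h1' g4 2
  refine g5.trans ?_
  rw [mul_pow]
  refine mul_le_mul_of_nonneg_right ?_ (sq_nonneg _)
  rw [← hr2]
  have q3 : 0 ≤ S0 * h * (h * p1) * (r - 6 / 5) ^ 2 := by positivity
  nlinarith

/-! ### the boxes -/

section box

variable (q0 q1 : ℚ)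

def bP : ℚ := (4 / 5 - 8 / 5 * q0) * (100 / 247)
def bS : ℚ := 1 - q1 / 2
def bE : ℚ := bP q0 / 15 + q1 / 92
def bp : ℚ := bP q0 + q1 / 184
def bh : ℚ := 1 / (bS q1 - bE q0 q1)
def bk1 : ℚ := (bS q1 * bh q0 q1) ^ 2 + bS q1 * bh q0 q1 * (bh q0 q1 * bp q0 q1) * (5 / 6)
def bk0 : ℚ := 6 / 5 * (bS q1 * bh q0 q1) * (bh q0 q1 * bp q0 q1) + (bh q0 q1 * bp q0 q1) ^ 2
def ba : ℚ := bk1 q0 q1 * (1 + 169 / 100 * q1 ^ 2) + bk0 q0 q1
def bb : ℚ := bk1 q0 q1 ^ 2 * ((3 + (169 / 100 * q1 ^ 2) ^ 2) * q1 ^ 2 / (1 + q0 ^ 2 / 4) ^ 2)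

def okBox : Bool := decide (0 ≤ q0) && decide (q1 ≤ 1 / 2) && decide (bE q0 q1 < bS q1) && decide (
  ba q0 q1 ^ 7 + 21 / 2 * ba q0 q1 ^ 5 * bb q0 q1 + 105 / 8 * ba q0 q1 ^ 3 * bb q0 q1 ^ 2
    + 35 / 16 * ba q0 q1 * bb q0 q1 ^ 3 ≤ 88)

end box

def okB : List ℚ → Bool
  | a :: b :: L => okBox a b && okB (b :: L)
  | _ => true

def brk : List ℚ := [0, 1 / 20, 1 / 10, 3 / 20, 1 / 5, 1 / 4, 29 / 100, 31 / 100, 33 / 100, 7 / 20, 37 / 100, 39 / 100, 2 / 5, 41 / 100, 21 / 50, 43 / 100, 11 / 25, 9 / 20, 91 / 200, 23 / 50, 93 / 200, 47 / 100, 19 / 40, 12 / 25, 193 / 400, 97 / 200, 39 / 80, 49 / 100, 197 / 400, 99 / 200, 199 / 400, 1 / 2]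

theorem ok_brk : okB brk = true := by decide +kernel

theorem find_box {q : ℝ} : ∀ (L : List ℚ) (a : ℚ), okB (a :: L) = true → (a : ℝ) ≤ q →
    q ≤ (((a :: L).getLast (by simp) : ℚ) : ℝ) → (∃ x y : ℚ, (x : ℝ) ≤ q ∧ q ≤ (y : ℝ) ∧ okBox x y = true) ∨ L = []
  | [], _, _, _, _ => Or.inr rfl
  | b :: L, a, h, h1, h2 => by
    unfold okB at h
    rw [Bool.and_eq_true] at h
    rcases le_total q (b : ℝ) with hb | hb
    · exact Or.inl ⟨a, b, h1, hb, h.1⟩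
    · rw [List.getLast_cons (by simp)] at h2
      rcases find_box L b h.2 hb h2 with h3 | h3
      · exact Or.inl h3
      · subst h3
        rw [List.getLast_singleton] at h2
        exact Or.inl ⟨a, b, h1, h2, h.1⟩

theorem exists_box {q : ℝ} (h0 : 0 ≤ q) (h1 : q ≤ 1 / 2) : ∃ x y : ℚ, (x : ℝ) ≤ q ∧ q ≤ (y : ℝ) ∧ okBox x y = true := by
  have e : brk = 0 :: brk.tail := rfl
  have hl : (((0 :: brk.tail).getLast (by simp) : ℚ) : ℝ) = 1 / 2 := by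
    have : (0 :: brk.tail).getLast (by simp) = 1 / 2 := by decide +kernel
    rw [this]
    norm_num
  rcases find_box (q := q) brk.tail 0 (by rw [← e]; exact ok_brk) (by simpa using h0) (by rw [hl]; exact h1) with h | h
  · exact h
  · exact absurd h (by decide)

end Pool.Agent.Helper26.SH
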