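import Pool.Agent.Helper26.SH.ContM

/-!
# Project RC, SHARP, zone I: the moments `e_l`, `l ≥ 32`, mean on the contour (line estimates and the sum)
-/

set_option autoImplicit false

open MeasureTheory Set Filter Topology

namespace Pool.Agent.Helper26.SH

open Helper49.LT hiding sg s3
open Helper49.RC Helper44.GQ Helper49.Sharp
open Helper95.RC (av)
open Helper95.SH (Dat)
open Pool.Agent.Helper43.SH
open Pool.Agent.Helper33.SH
open Pool.Agent.Helper20.RC (lk lk_ge lk_sq wR eM eD)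

section line7

variable {A : ℝ} {B κ m x2 y2 x3 y3 : ℂ} {l : ℕ}

/-- the unit vector on the line -/
theorem xx5_line {E : ℝ} (hE : 0 < E) (t : ℝ) : xx 5 (t - (Real.log E : ℂ) * Complex.I) = ((E ^ 5 : ℝ) : ℂ) * ee (5 * t) := by
  unfold xx ee
  have e : ((5 : ℤ) : ℂ) * Complex.I * ((t : ℂ) - (Real.log E : ℂ) * Complex.I) =
      ((5 * Real.log E : ℝ) : ℂ) + Complex.I * ((5 * t : ℝ) : ℂ) := by
    push_cast
    linear_combination (-(5 : ℂ) * (Real.log E : ℂ)) * Complex.I_sq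
  rw [e, Complex.exp_add]
  congr 1
  · rw [← Complex.ofReal_exp]
    congr 1
    have h1 := Real.exp_nat_mul (Real.log E) 5
    rw [Real.exp_log hE] at h1
    rw [← h1]
    push_cast
    rfl
  · congr 1
    push_cast
    ring

theorem re_ee (W : ℂ) : ∃ φ : ℝ, ∀ t : ℝ, (W * ee (5 * t)).re = ‖W‖ * Real.cos (5 * t + φ) := by
  refine ⟨W.arg, fun t => ?_⟩
  have h := Complex.norm_mul_exp_arg_mul_I W
  unfold ee
  conv_lhs => rw [← h]
  rw [mul_assoc, ← Complex.exp_add, Complex.re_ofReal_mul]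
  congr 1
  have : (W.arg : ℂ) * Complex.I + ((5 * t : ℝ) : ℂ) * Complex.I = ((5 * t + W.arg : ℝ) : ℂ) * Complex.I := by
    push_cast; ring
  rw [this, Complex.exp_ofReal_mul_I_re]

theorem V4_le {E : ℝ} (hE : 1 ≤ E) (hE2 : 247 / 100 ≤ E ^ 2) (hE6 : 15 ≤ E ^ 6) (hE10 : 92 ≤ E ^ 10) (hA : 0 ≤ A)
    (hX : (A + 8 / 5 * ‖B‖) * E ^ 5 ≤ 4 / 5) (hX1 : A + 8 / 5 * ‖B‖ ≤ 1 / 10) (hκ : ‖κ‖ = 1) (hm : ‖m‖ = 1)
    (hmr : (m ^ 2).re = -(1 / 2)) :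
    ∃ a b φ : ℝ, (∀ t : ℝ, ‖Vf A B κ m (t - (Real.log E : ℂ) * Complex.I)‖ ^ 4 ≤ a + b * Real.cos (5 * t + φ)) ∧
      M7 a (b ^ 2) ≤ 88 := by
  have hE0 : 0 < E := by linarith
  have hB := norm_nonneg B
  have hlog : 0 ≤ Real.log E := Real.log_nonneg hE
  obtain ⟨p, hp⟩ : ∃ p, p = A * E ^ 3 := ⟨_, rfl⟩
  obtain ⟨q, hq⟩ : ∃ q, q = ‖B‖ * E ^ 5 := ⟨_, rfl⟩
  have hp0 : 0 ≤ p := by rw [hp]; positivity
  have hq0 : 0 ≤ q := by rw [hq]; positivity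
  have hpq : 247 / 100 * p + 8 / 5 * q ≤ 4 / 5 := by
    have h1 : 247 / 100 * (A * E ^ 3) ≤ E ^ 2 * (A * E ^ 3) := mul_le_mul_of_nonneg_right hE2 (by positivity)
    rw [hp, hq]
    nlinarith
  have hq1 : q ≤ 1 / 2 := by linarith
  obtain ⟨x, y, hx, hy, hok⟩ := exists_box hq0 hq1
  unfold okBox at hok
  simp only [Bool.and_eq_true, decide_eq_true_eq] at hok
  obtain ⟨⟨⟨hx0, hy1⟩, hES⟩, hM⟩ := hok
  have hx0' : (0 : ℝ) ≤ (x : ℝ) := by exact_mod_cast hx0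
  have hy1' : (y : ℝ) ≤ 1 / 2 := by
    have := (Rat.cast_le (K := ℝ)).2 hy1
    push_cast at this
    exact this
  have hy0' : (0 : ℝ) ≤ (y : ℝ) := hq0.trans hy
  have hES' : ((bE x y : ℚ) : ℝ) < ((bS y : ℚ) : ℝ) := by exact_mod_cast hES
  have pP : p ≤ ((bP x : ℚ) : ℝ) := by
    unfold bP
    push_cast
    linarith
  have eE : ((bE x y : ℚ) : ℝ) = ((bP x : ℚ) : ℝ) / 15 + (y : ℝ) / 92 := by unfold bE; push_cast; ring
  have ep : ((bp x y : ℚ) : ℝ) = ((bP x : ℚ) : ℝ) + (y : ℝ) / 184 := by unfold bp; push_cast; ring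
  have eS : ((bS y : ℚ) : ℝ) = 1 - (y : ℝ) / 2 := by unfold bS; push_cast; ring
  have eh : ((bh x y : ℚ) : ℝ) * (((bS y : ℚ) : ℝ) - ((bE x y : ℚ) : ℝ)) = 1 := by
    unfold bh
    push_cast
    rw [one_div, inv_mul_cancel₀]
    exact (sub_pos.2 hES').ne'
  have hbp : 0 ≤ ((bp x y : ℚ) : ℝ) := by rw [ep]; linarith [hp0.trans pP]
  have hbE : 0 ≤ ((bE x y : ℚ) : ℝ) := by rw [eE]; linarith [hp0.trans pP]
  have hh0 : 0 < ((bh x y : ℚ) : ℝ) := by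
    by_contra hc
    push Not at hc
    nlinarith
  have hS0 : 0 < ((bS y : ℚ) : ℝ) := hbE.trans_lt hES'
  set ε : ℝ := ((bE x y : ℚ) : ℝ)
  set p1 : ℝ := ((bp x y : ℚ) : ℝ)
  set S0 : ℝ := ((bS y : ℚ) : ℝ)
  set h : ℝ := ((bh x y : ℚ) : ℝ)
  have ek1 : ((bk1 x y : ℚ) : ℝ) = (S0 * h) ^ 2 + S0 * h * (h * p1) * (5 / 6) := by unfold bk1; push_cast; rfl
  have ek0 : ((bk0 x y : ℚ) : ℝ) = 6 / 5 * (S0 * h) * (h * p1) + (h * p1) ^ 2 := by unfold bk0; push_cast; rfl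
  set k1 : ℝ := ((bk1 x y : ℚ) : ℝ)
  set k0 : ℝ := ((bk0 x y : ℚ) : ℝ)
  have hk1 : 0 ≤ k1 := by rw [ek1]; positivity
  have hk0 : 0 ≤ k0 := by rw [ek0]; positivity
  set c : ℂ := -(1 / 2) * m ^ 2 with hc
  have nc : ‖c‖ = 1 / 2 := by rw [hc, norm_mul, norm_pow, hm]; norm_num
  have cr : c.re = 1 / 4 := by
    have e : c = ((-(1 / 2) : ℝ) : ℂ) * m ^ 2 := by rw [hc]; push_cast; ring
    rw [e, Complex.re_ofReal_mul, hmr]
    norm_num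
  set d : ℝ := 1 + q ^ 2 / 4 with hd
  have hd1 : 1 ≤ d := by rw [hd]; nlinarith [sq_nonneg q]
  set W : ℂ := eq2 c q * ((starRingEnd ℂ) m * ((starRingEnd ℂ) B * ((E ^ 5 : ℝ) : ℂ))) with hW
  obtain ⟨φ, hφ⟩ := re_ee W
  have nW : ‖W‖ = ‖eq2 c q‖ * q := by
    rw [hW, norm_mul, norm_mul, norm_mul, Complex.norm_conj, Complex.norm_conj, hm, Complex.norm_real,
      Real.norm_of_nonneg (by positivity), hq]
    ring
  refine ⟨k1 * alq q + k0, k1 * (‖W‖ / d), φ, ?_, ?_⟩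
  · intro t
    set z : ℂ := t - (Real.log E : ℂ) * Complex.I with hz
    have hzi : z.im = -Real.log E := by rw [hz]; simp
    obtain ⟨z1, z2⟩ := strip_lt hE (by linarith) hA hX hX1 hm (z := z) (by rw [hzi]) (by rw [hzi]; linarith)
    have ex : ∀ n : ℤ, ‖xx n z‖ = E ^ n := by
      intro n
      rw [xx_norm, hzi]
      have : -((n : ℝ) * -Real.log E) = Real.log E * n := by ring
      rw [this, ← Real.rpow_def_of_pos hE0, Real.rpow_intCast]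
    have e3 : E ^ (3 : ℤ) = E ^ 3 := by norm_cast
    have e5 : E ^ (5 : ℤ) = E ^ 5 := by norm_cast
    have e3' : E ^ (-3 : ℤ) = (E ^ 3)⁻¹ := by rw [zpow_neg, e3]
    have e5' : E ^ (-5 : ℤ) = (E ^ 5)⁻¹ := by rw [zpow_neg, e5]
    have nA : ‖(A : ℂ)‖ = A := by rw [Complex.norm_real, Real.norm_eq_abs, abs_of_nonneg hA]
    have a1 : ‖fUs A z‖ ≤ p := by
      unfold fUs
      rw [norm_mul, ex, nA, e3, hp]
    have a2 : ‖fU A z‖ ≤ p / 15 := by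
      unfold fU
      rw [norm_mul, ex, nA, e3', le_div_iff₀ (by norm_num)]
      have h1 : (E ^ 3)⁻¹ * 15 ≤ E ^ 3 := by
        rw [inv_mul_le_iff₀ (by positivity)]
        calc (15 : ℝ) ≤ E ^ 6 := hE6
          _ = E ^ 3 * E ^ 3 := by ring
      calc A * (E ^ 3)⁻¹ * 15 = A * ((E ^ 3)⁻¹ * 15) := by ring
        _ ≤ A * E ^ 3 := mul_le_mul_of_nonneg_left h1 hA
        _ = p := hp.symm
    have a3 : ‖fV B z‖ ≤ q / 92 := by
      unfold fV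
      rw [norm_mul, ex, e5', le_div_iff₀ (by norm_num)]
      have h1 : (E ^ 5)⁻¹ * 92 ≤ E ^ 5 := by
        rw [inv_mul_le_iff₀ (by positivity)]
        calc (92 : ℝ) ≤ E ^ 10 := hE10
          _ = E ^ 5 * E ^ 5 := by ring
      calc ‖B‖ * (E ^ 5)⁻¹ * 92 = ‖B‖ * ((E ^ 5)⁻¹ * 92) := by ring
        _ ≤ ‖B‖ * E ^ 5 := mul_le_mul_of_nonneg_left h1 hB
        _ = q := hq.symm
    set Q : ℂ := (starRingEnd ℂ) m * fVs B z with hQ
    have hQe : Q = (starRingEnd ℂ) m * ((starRingEnd ℂ) B * ((E ^ 5 : ℝ) : ℂ)) * ee (5 * t) := by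
      rw [hQ]
      unfold fVs
      rw [hz, xx5_line hE0]
      ring
    have nQ : ‖Q‖ = q := by
      rw [hQe, norm_mul, norm_mul, norm_mul, norm_ee, Complex.norm_conj, Complex.norm_conj, hm, Complex.norm_real,
        Real.norm_of_nonneg (by positivity), hq]
      ring
    have haff := aff nc cr nQ hq1
    have hLe : alq q + (eq2 c q * Q).re / (1 + q ^ 2 / 4) = alq q + ‖W‖ / d * Real.cos (5 * t + φ) := by
      have : eq2 c q * Q = W * ee (5 * t) := by rw [hQe, hW]; ring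
      rw [this, hφ t, ← hd]
      ring
    rw [hLe] at haff
    set L : ℝ := alq q + ‖W‖ / d * Real.cos (5 * t + φ) with hL
    have nm : ‖(starRingEnd ℂ) m‖ = 1 := by rw [Complex.norm_conj, hm]
    have n3 : 1 - q / 2 ≤ ‖1 + c * Q‖ := by
      have h2 := norm_sub_norm_le (1 : ℂ) (-(c * Q))
      rw [sub_neg_eq_add, norm_neg, norm_one, norm_mul, nc, nQ] at h2
      linarith
    have hSp : 0 < ‖1 + c * Q‖ := by linarith
    have hL0 : 0 ≤ L := by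
      by_contra hcon
      push Not at hcon
      have h1 : L * ‖1 + c * Q‖ ^ 2 < 0 := mul_neg_of_neg_of_pos hcon (by positivity)
      have h2 : 0 ≤ ‖1 + Q‖ ^ 2 := by positivity
      linarith
    have hmm := mm_conj hm
    have g1 : ‖1 + Zs A B m z‖ ≤ ‖1 + Q‖ + p1 := by
      have e1 : 1 + Zs A B m z = (1 + Q) + (starRingEnd ℂ) m * (fUs A z - 1 / 2 * fV B z) := by
        rw [hQ]; unfold Zs; ring
      rw [e1]
      refine (norm_add_le _ _).trans (add_le_add le_rfl ?_)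
      rw [norm_mul, nm, one_mul]
      refine (norm_sub_le _ _).trans ?_
      rw [norm_mul, ep]
      have : ‖(1 / 2 : ℂ)‖ = 1 / 2 := by norm_num
      rw [this]
      linarith
    have g2 : ‖1 + c * Q‖ - ε ≤ ‖1 + Zf A B m z‖ := by
      have e2 : 1 + Zf A B m z = (1 + c * Q) + m * (fU A z + fV B z) := by
        rw [hQ, hc]
        unfold Zf
        linear_combination (1 / 2 * m * fVs B z) * hmm
      have n2 : ‖m * (fU A z + fV B z)‖ ≤ ε := by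
        rw [norm_mul, hm, one_mul, eE]
        refine (norm_add_le _ _).trans ?_
        linarith
      rw [e2]
      have h2 := norm_sub_norm_le (1 + c * Q) (-(m * (fU A z + fV B z)))
      rw [sub_neg_eq_add, norm_neg] at h2
      linarith
    have hr := rat2 (N1 := ‖1 + Zs A B m z‖) (N2 := ‖1 + Zf A B m z‖) (a := ‖1 + Q‖) (S := ‖1 + c * Q‖) (L := L)
      (p1 := p1) (ε := ε) (S0 := S0) (h := h) g1 (norm_nonneg _) g2 hbp hbE hL0 haff (by rw [eS]; linarith) hES' eh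
    rw [← ek1, ← ek0] at hr
    have nz : 0 < ‖1 + Zf A B m z‖ := norm_pos_iff.2 (slit_ne (slit_one z1))
    have nκ : ‖(starRingEnd ℂ) κ‖ = 1 := by rw [Complex.norm_conj, hκ]
    have hV2 : ‖Vf A B κ m z‖ ^ 2 = ‖1 + Zs A B m z‖ / ‖1 + Zf A B m z‖ := by
      rw [← norm_pow, Vf_sq hκ z1 z2, norm_mul, norm_pow, nκ, one_pow, one_mul, norm_div]
    have hV4 : ‖Vf A B κ m z‖ ^ 4 = ‖1 + Zs A B m z‖ ^ 2 / ‖1 + Zf A B m z‖ ^ 2 := by
      rw [← div_pow, ← hV2]; ring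
    rw [hV4, div_le_iff₀ (by positivity)]
    refine hr.trans (le_of_eq ?_)
    rw [hL]
    ring
  · have n2 := eq2_norm (q := q) nc cr
    have e1 : (k1 * (‖W‖ / d)) ^ 2 = k1 ^ 2 * ((3 + (169 / 100 * q ^ 2) ^ 2) * q ^ 2 / d ^ 2) := by
      rw [nW, ← n2]
      field_simp
    rw [e1]
    have hal : alq q ≤ 1 + 169 / 100 * (y : ℝ) ^ 2 := by
      unfold alq
      have := pow_le_pow_left₀ hq0 hy 2
      linarith
    have hal0 : 0 ≤ alq q := by unfold alq; positivity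
    have hb : (3 + (169 / 100 * q ^ 2) ^ 2) * q ^ 2 / d ^ 2 ≤
        (3 + (169 / 100 * (y : ℝ) ^ 2) ^ 2) * (y : ℝ) ^ 2 / (1 + (x : ℝ) ^ 2 / 4) ^ 2 := by
      have hxd : 1 + (x : ℝ) ^ 2 / 4 ≤ d := by
        rw [hd]
        have := pow_le_pow_left₀ hx0' hx 2
        linarith
      gcongr
    have hM' : M7 ((ba x y : ℚ) : ℝ) ((bb x y : ℚ) : ℝ) ≤ 88 := by
      have := (Rat.cast_le (K := ℝ)).2 hM
      push_cast at this
      unfold M7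
      exact this
    refine le_trans (M7_mono ?_ ?_ ?_ ?_) hM'
    · positivity
    · positivity
    · unfold ba
      push_cast
      exact add_le_add (mul_le_mul_of_nonneg_left hal hk1) le_rfl
    · unfold bb
      push_cast
      exact mul_le_mul_of_nonneg_left hb (sq_nonneg _)

/-- the bound on the shifted line -/
theorem Ph1_le7 {E : ℝ} (hE : 1 ≤ E) (hE2 : 459 / 200 ≤ E ^ 2) (hE6 : 12 ≤ E ^ 6) (hE10 : 64 ≤ E ^ 10) (hA : 0 ≤ A)
    (hX : (A + 8 / 5 * ‖B‖) * E ^ 5 ≤ 4 / 5) (hX1 : A + 8 / 5 * ‖B‖ ≤ 1 / 10) (hκ : ‖κ‖ = 1) (hm : ‖m‖ = 1)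
    (hmr : (m ^ 2).re = -(1 / 2)) (nx2 : ‖x2‖ = 1) (ny2 : ‖y2‖ = 1) (nx3 : ‖x3‖ = 7 / 4) (ny3 : ‖y3‖ = 7 / 4)
    {r : ℝ} (hr : 0 ≤ r) (hr2 : r ^ 2 = 3 / 2) (hl : 29 ≤ l) (t : ℝ) :
    ‖Ph1 A B κ m x2 y2 x3 y3 l (t - (Real.log E : ℂ) * Complex.I)‖ ≤
      (E ^ l)⁻¹ * ((‖Vf A B κ m (t - (Real.log E : ℂ) * Complex.I)‖ ^ 4) ^ 7 * r ^ (l - 29)) * (101 / 100)
        * (1483 / 1000 + 21 / 200 * l) := by
  have hE0 : 0 < E := by linarith
  set z : ℂ := t - (Real.log E : ℂ) * Complex.I with hz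
  have hzi : z.im = -Real.log E := by rw [hz]; simp
  have hlog : 0 ≤ Real.log E := Real.log_nonneg hE
  have hLN := strip_LN hE0 hE2 hE6 hE10 hA hX hzi
  obtain ⟨z1, z2⟩ := strip_lt hE hE2 hA hX hX1 hm (z := z) (by rw [hzi]) (by rw [hzi]; linarith)
  have hrat : ‖1 + Zs A B m z‖ ≤ 3 / 2 * ‖1 + Zf A B m z‖ := ratio hLN hm hmr
  have hone : ‖1 + Zs A B m z‖ ≤ 188 / 125 := one_le hLN hm
  have hL1 : ‖Lg A B x2 x3 z‖ ≤ 21 / 250 := L_le hLN nx2 nx3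
  have hL2 : ‖Lg A B y2 y3 z‖ ≤ 21 / 250 := L_le hLN ny2 ny3
  have hw : ‖wf A B z‖ ≤ 101 / 100 := wC_le hLN
  have nκ : ‖(starRingEnd ℂ) κ‖ = 1 := by rw [Complex.norm_conj, hκ]
  have hV2 : ‖Vf A B κ m z‖ ^ 2 ≤ 3 / 2 := by
    rw [← norm_pow, Vf_sq hκ z1 z2, norm_mul, norm_pow, nκ, one_pow, one_mul, norm_div,
      div_le_iff₀ (norm_pos_iff.2 (slit_ne (slit_one z1)))]
    exact hrat
  have hVr : ‖Vf A B κ m z‖ ≤ r := by
    refine le_of_sq_le_sq ?_ hr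
    rw [hr2]
    exact hV2
  have hx : ‖xx (-(l : ℤ)) z‖ = (E ^ l)⁻¹ := by
    rw [xx_norm, hzi]
    have : -((((-(l : ℤ) : ℤ)) : ℝ) * -Real.log E) = -(l * Real.log E) := by push_cast; ring
    rw [this, Real.exp_neg, Real.exp_nat_mul, Real.exp_log hE0]
  have hl' : (29 : ℝ) ≤ l := by exact_mod_cast hl
  have n1 : ‖(1 - (l : ℂ)) / 2‖ = ((l : ℝ) - 1) / 2 := by
    have : (1 - (l : ℂ)) / 2 = (((1 - (l : ℝ)) / 2 : ℝ) : ℂ) := by push_cast; ring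
    rw [this, Complex.norm_real, Real.norm_eq_abs, abs_of_nonpos (by linarith)]
    ring
  have n2 : ‖(1 + (l : ℂ)) / 2‖ = ((l : ℝ) + 1) / 2 := by
    have : (1 + (l : ℂ)) / 2 = (((1 + (l : ℝ)) / 2 : ℝ) : ℂ) := by push_cast; ring
    rw [this, Complex.norm_real, Real.norm_eq_abs, abs_of_nonneg (by linarith)]
    ring
  have hbr : ‖(starRingEnd ℂ) κ * (1 + Zs A B m z) + (1 - (l : ℂ)) / 2 * Lg A B x2 x3 z * Vf A B κ m z ^ 2
      + (1 + (l : ℂ)) / 2 * Lg A B y2 y3 z‖ ≤ 1483 / 1000 + 21 / 200 * l := by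
    refine (norm_add_le _ _).trans ((add_le_add (norm_add_le _ _) le_rfl).trans ?_)
    rw [norm_mul, nκ, one_mul, norm_mul, norm_mul, norm_mul, norm_pow, n1, n2]
    have q1 : ((l : ℝ) - 1) / 2 * ‖Lg A B x2 x3 z‖ * ‖Vf A B κ m z‖ ^ 2 ≤ ((l : ℝ) - 1) / 2 * (21 / 250) * (3 / 2) := by
      refine mul_le_mul (mul_le_mul_of_nonneg_left hL1 (by linarith)) hV2 (by positivity) ?_
      nlinarith
    have q2 : ((l : ℝ) + 1) / 2 * ‖Lg A B y2 y3 z‖ ≤ ((l : ℝ) + 1) / 2 * (21 / 250) :=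
      mul_le_mul_of_nonneg_left hL2 (by linarith)
    linarith
  unfold Ph1
  rw [norm_mul, norm_mul, norm_mul, norm_pow, hx]
  have hE1 : 0 ≤ (E ^ l)⁻¹ := by positivity
  have hVl : ‖Vf A B κ m z‖ ^ (l - 1) ≤ (‖Vf A B κ m z‖ ^ 4) ^ 7 * r ^ (l - 29) := by
    have e : l - 1 = 4 * 7 + (l - 29) := by omega
    rw [e, pow_add, pow_mul]
    exact mul_le_mul_of_nonneg_left (pow_le_pow_left₀ (norm_nonneg _) hVr _) (by positivity)
  refine mul_le_mul (mul_le_mul (mul_le_mul_of_nonneg_left hVl hE1) hw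
    (norm_nonneg _) (by positivity)) hbr (norm_nonneg _) (by positivity)

/-- the mean over the period -/
theorem Ph1_int7 {E : ℝ} (hE : 1 ≤ E) (hE2 : 247 / 100 ≤ E ^ 2) (hE6 : 15 ≤ E ^ 6) (hE10 : 92 ≤ E ^ 10) (hA : 0 ≤ A)
    (hX : (A + 8 / 5 * ‖B‖) * E ^ 5 ≤ 4 / 5) (hX1 : A + 8 / 5 * ‖B‖ ≤ 1 / 10) (hκ : ‖κ‖ = 1) (hm : ‖m‖ = 1)
    (hmr : (m ^ 2).re = -(1 / 2)) (nx2 : ‖x2‖ = 1) (ny2 : ‖y2‖ = 1) (nx3 : ‖x3‖ = 7 / 4) (ny3 : ‖y3‖ = 7 / 4)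
    {r : ℝ} (hr : 0 ≤ r) (hr2 : r ^ 2 = 3 / 2) (hl : 29 ≤ l) :
    ‖(1 / (2 * Real.pi) : ℂ) * ∫ t in (0 : ℝ)..(2 * Real.pi), Ph1 A B κ m x2 y2 x3 y3 l t‖ ≤
      (E ^ l)⁻¹ * (88 * r ^ (l - 29)) * (101 / 100) * (1483 / 1000 + 21 / 200 * l) := by
  have hp := Real.pi_pos
  have hlog : 0 ≤ Real.log E := Real.log_nonneg hE
  have hc := contour (F := Ph1 A B κ m x2 y2 x3 y3 l) hlog (fun z h1 h2 => by
    obtain ⟨z1, z2⟩ := strip_lt hE (by linarith) hA hX hX1 hm h1 h2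
    exact Ph1_diff z1 z2) (Ph1_per A B κ m x2 y2 x3 y3 l)
  obtain ⟨a, b, φ, hV, hM⟩ := V4_le (A := A) (B := B) (κ := κ) (m := m) hE hE2 hE6 hE10 hA hX hX1 hκ hm hmr
  obtain ⟨K, hK⟩ : ∃ K : ℝ, K = (E ^ l)⁻¹ * r ^ (l - 29) * (101 / 100) * (1483 / 1000 + 21 / 200 * l) := ⟨_, rfl⟩
  have hK0 : 0 ≤ K := by rw [hK]; positivity
  have hpt : ∀ t : ℝ, ‖Ph1 A B κ m x2 y2 x3 y3 l (t - (Real.log E : ℂ) * Complex.I)‖ ≤
      K * (a + b * Real.cos (5 * t + φ)) ^ 7 := by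
    intro t
    refine (Ph1_le7 hE (by linarith) (by linarith) (by linarith) hA hX hX1 hκ hm hmr nx2 ny2 nx3 ny3 hr hr2 hl t).trans ?_
    have h1 := pow_le_pow_left₀ (by positivity) (hV t) 7
    have h2 := mul_le_mul_of_nonneg_left h1 hK0
    refine le_trans (le_of_eq ?_) h2
    rw [hK]
    ring
  have hb := intervalIntegral.norm_integral_le_of_norm_le (a := 0) (b := 2 * Real.pi) (μ := volume)
    (f := fun t : ℝ => Ph1 A B κ m x2 y2 x3 y3 l (t - (Real.log E : ℂ) * Complex.I))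
    (g := fun t : ℝ => K * (a + b * Real.cos (5 * t + φ)) ^ 7) (by linarith)
    (Filter.Eventually.of_forall fun t _ => hpt t)
    ((by fun_prop : Continuous fun t : ℝ => K * (a + b * Real.cos (5 * t + φ)) ^ 7).intervalIntegrable _ _)
  rw [intervalIntegral.integral_const_mul, mean7] at hb
  rw [hc, norm_mul]
  have n1 : ‖(1 / (2 * Real.pi) : ℂ)‖ = 1 / (2 * Real.pi) := by
    have : (1 / (2 * Real.pi) : ℂ) = ((1 / (2 * Real.pi) : ℝ) : ℂ) := by push_cast; rfl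
    rw [this, Complex.norm_real, Real.norm_eq_abs, abs_of_pos (by positivity)]
  rw [n1]
  calc 1 / (2 * Real.pi) * ‖∫ t in (0 : ℝ)..(2 * Real.pi), Ph1 A B κ m x2 y2 x3 y3 l (t - (Real.log E : ℂ) * Complex.I)‖
      ≤ 1 / (2 * Real.pi) * (K * (2 * Real.pi * M7 a (b ^ 2))) :=
        mul_le_mul_of_nonneg_left hb (by positivity)
    _ = K * M7 a (b ^ 2) := by field_simp
    _ ≤ K * 88 := mul_le_mul_of_nonneg_left hM hK0
    _ = _ := by rw [hK]; ring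

end line7

variable {A : ℝ} {B : ℂ}

/-- EVERY MOMENT `l ≥ 30` OF THE BASE, mean on the contour -/
theorem eA_le7 (c : ZC) (hρ : 100 ≤ c.rho) (hm' : c.lam ≤ c.m) {E r : ℝ} (hE : 1 ≤ E) (hE2 : 247 / 100 ≤ E ^ 2)
    (hE6 : 15 ≤ E ^ 6) (hE10 : 92 ≤ E ^ 10) (hA : 0 ≤ A)
    (hX : (A + 8 / 5 * ‖B‖) * E ^ 5 ≤ 4 / 5) (hX1 : A + 8 / 5 * ‖B‖ ≤ 1 / 10)
    (hr : 0 ≤ r) (hr2 : r ^ 2 = 3 / 2) (k : ℕ) (hk14 : 14 ≤ k) :
    ‖(PI c A B).eA (b0I A B) (z0I A B) k‖ ≤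
      2 * ((E ^ (2 * k + 2))⁻¹ * (88 * r ^ (2 * k - 27)) * (101 / 100) * (1483 / 1000 + 21 / 200 * (2 * k + 2))) := by
  have hB := norm_nonneg B
  have hZ : |A| + 2 * ‖B‖ ≤ 1 / 4 := by rw [abs_of_nonneg hA]; linarith
  have hreg := reg_PI (c := c) hZ hρ hm'
  have hlog : 0 ≤ Real.log E := Real.log_nonneg hE
  set l : ℕ := 2 * k + 2 with hl
  have hk : lk k = (((l : ℕ) : ℤ) : ℝ) := by
    unfold lk
    rw [hl]
    push_cast
    ring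
  have hlc : (((l : ℕ) : ℤ) : ℝ) = (l : ℝ) := by push_cast; rfl
  have hdat := dat_PI hZ
  have hF := eM_data hreg hdat (l : ℤ)
  have n1 : ‖(starRingEnd ℂ) om‖ = 1 := om_conj_norm
  have hz : ∀ (m : ℂ), ‖m‖ = 1 → ∀ t : ℝ, ‖Zf A B m t‖ < 1 := fun m hm t =>
    (strip_lt hE (by linarith) hA hX hX1 hm (z := (t : ℂ)) (by simp; exact hlog) (by simp)).1
  have q1 : ∀ t : ℝ, ee (-((l : ℝ) * t)) * eF (l : ℝ) (((PI c A B).w t : ℂ) * g1 (b0I A B t) (z0I A B t))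
      ((PI c A B).ph1 (t + Real.pi / 3) - t) = Ph1 A B om ((starRingEnd ℂ) om) ((starRingEnd ℂ) om) om
        ⟨Real.sqrt 3, 1 / 4⟩ ⟨Real.sqrt 3, -(1 / 4)⟩ l t := by
    intro t
    have ha : (PI c A B).ph1 (t + Real.pi / 3) - t = (om * (1 + Zf A B ((starRingEnd ℂ) om) t)).arg := by
      show t + Real.pi / 3 - Real.pi / 3 + (om + z0I A B (t + Real.pi / 3 - Real.pi / 3)).arg - t = _
      rw [add_sub_cancel_right, Zf_real]
      have e1 : om * (1 + (starRingEnd ℂ) om * z0I A B t) = om + z0I A B t := by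
        linear_combination (z0I A B t) * om_mul
      rw [e1]
      ring
    rw [ha]
    exact Ph1_real om_norm (by omega) (Complex.conj_conj om) (by apply Complex.ext <;> simp) (hz _ n1 t) c _
      (g1_eq' t)
  have q2 : ∀ t : ℝ, ee (-((l : ℝ) * t)) * eF (l : ℝ) (((PI c A B).w t : ℂ) * g2 (b0I A B t) (z0I A B t))
      ((PI c A B).ph2 (t + 2 * Real.pi / 3) - t) = Ph1 A B (om ^ 2) om (-om) (-(starRingEnd ℂ) om)
        ⟨Real.sqrt 3, -(1 / 4)⟩ ⟨Real.sqrt 3, 1 / 4⟩ l t := by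
    intro t
    have ha : (PI c A B).ph2 (t + 2 * Real.pi / 3) - t = (om ^ 2 * (1 + Zf A B om t)).arg := by
      show t + 2 * Real.pi / 3 - 2 * Real.pi / 3 + (om ^ 2 - z0I A B (t + 2 * Real.pi / 3 - 2 * Real.pi / 3)).arg - t = _
      rw [add_sub_cancel_right, Zf_real]
      have e1 : om ^ 2 * (1 + om * z0I A B t) = om ^ 2 - z0I A B t := by
        linear_combination (z0I A B t) * om_cube
      rw [e1]
      ring
    rw [ha]
    exact Ph1_real (by rw [norm_pow, om_norm, one_pow]) (by omega) (by rw [map_neg]) (by apply Complex.ext <;> simp)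
      (hz _ om_norm t) c _ (g2_eq' t)
  have hcont : ∀ {κ m x2 y2 x3 y3 : ℂ}, ‖m‖ = 1 → Continuous fun t : ℝ => Ph1 A B κ m x2 y2 x3 y3 l t := by
    intro κ m x2 y2 x3 y3 hm
    refine continuous_iff_continuousAt.2 fun t => ?_
    obtain ⟨z1, z2⟩ := strip_lt hE (by linarith) hA hX hX1 hm (z := (t : ℂ)) (by simp; exact hlog) (by simp)
    exact ((Ph1_diff (κ := κ) (x2 := x2) (y2 := y2) (x3 := x3) (y3 := y3) (l := l) z1 z2).continuousAt).comp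
      Complex.continuous_ofReal.continuousAt
  have e0 : (PI c A B).eA (b0I A B) (z0I A B) k =
      (1 / (2 * Real.pi) : ℂ) * (∫ t in (0 : ℝ)..(2 * Real.pi), Ph1 A B om ((starRingEnd ℂ) om) ((starRingEnd ℂ) om) om
        ⟨Real.sqrt 3, 1 / 4⟩ ⟨Real.sqrt 3, -(1 / 4)⟩ l t)
      + (1 / (2 * Real.pi) : ℂ) * (∫ t in (0 : ℝ)..(2 * Real.pi), Ph1 A B (om ^ 2) om (-om) (-(starRingEnd ℂ) om)
        ⟨Real.sqrt 3, -(1 / 4)⟩ ⟨Real.sqrt 3, 1 / 4⟩ l t) := by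
    unfold Par.eA
    rw [hk, hF, ← mul_add, ← intervalIntegral.integral_add ((hcont n1).intervalIntegrable _ _)
      ((hcont om_norm).intervalIntegrable _ _)]
    unfold av
    congr 1
    refine intervalIntegral.integral_congr fun t _ => ?_
    show ee (-((((l : ℕ) : ℤ) : ℝ) * t)) * (eF (((l : ℕ) : ℤ) : ℝ) _ _ + eF (((l : ℕ) : ℤ) : ℝ) _ _) = _
    rw [hlc, mul_add, q1, q2]
  have nO : (om ^ 2).re = -(1 / 2) := om_sq_re
  have i1 := Ph1_int7 (A := A) (B := B) (κ := om) (m := (starRingEnd ℂ) om) (x2 := (starRingEnd ℂ) om) (y2 := om)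
    (x3 := ⟨Real.sqrt 3, 1 / 4⟩) (y3 := ⟨Real.sqrt 3, -(1 / 4)⟩) (l := l) hE hE2 hE6 hE10 hA hX hX1 om_norm n1
    om_conj_sq_re n1 om_norm (norm_s34 _ (by norm_num)) (norm_s34 _ (by norm_num)) hr hr2 (by omega)
  have i2 := Ph1_int7 (A := A) (B := B) (κ := om ^ 2) (m := om) (x2 := -om) (y2 := -(starRingEnd ℂ) om)
    (x3 := ⟨Real.sqrt 3, -(1 / 4)⟩) (y3 := ⟨Real.sqrt 3, 1 / 4⟩) (l := l) hE hE2 hE6 hE10 hA hX hX1
    (by rw [norm_pow, om_norm, one_pow]) om_norm nO (by rw [norm_neg, om_norm]) (by rw [norm_neg, n1])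
    (norm_s34 _ (by norm_num)) (norm_s34 _ (by norm_num)) hr hr2 (by omega)
  rw [e0]
  refine (norm_add_le _ _).trans ((add_le_add i1 i2).trans (le_of_eq ?_))
  have hl2 : ((l : ℕ) : ℝ) = 2 * k + 2 := by rw [hl]; push_cast; ring
  rw [show l - 29 = 2 * k - 27 by omega, hl2]
  ring

/-- the sum, for one `E`, `E⁵ ≥ 48/5` -/
theorem sum_E7 (c : ZC) (hρ : 100 ≤ c.rho) (hm' : c.lam ≤ c.m) {E : ℝ} (hE : 0 < E) (h5 : 48 / 5 ≤ E ^ 5) (hA : 0 ≤ A)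
    (hX : (A + 8 / 5 * ‖B‖) * E ^ 5 ≤ 4 / 5) (hX1 : A + 8 / 5 * ‖B‖ ≤ 1 / 10) (n : ℕ) :
    ∑ k ∈ Finset.range n, ‖(PI c A B).eA (b0I A B) (z0I A B) (k + 15)‖ ^ 2 / (lk (k + 15) ^ 2 - 1) ≤
      757 / 10000 * (E ^ 40)⁻¹ := by
  obtain ⟨hE1, hE2, hE6, hE10⟩ := E_facts hE (by linarith)
  obtain ⟨hF2, hF6⟩ := E_facts12 hE h5
  have hF10 : 92 ≤ E ^ 10 := by
    have h3 := pow_le_pow_left₀ (by norm_num) h5 2
    calc (92 : ℝ) ≤ (48 / 5) ^ 2 := by norm_num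
      _ ≤ (E ^ 5) ^ 2 := h3
      _ = E ^ 10 := by ring
  set r := Real.sqrt (3 / 2) with hr
  have hr0 : 0 ≤ r := Real.sqrt_nonneg _
  have hr2 : r ^ 2 = 3 / 2 := Real.sq_sqrt (by norm_num)
  set x := 3 / 2 * (E ^ 2)⁻¹ with hx
  have hx0 : 0 ≤ x := by positivity
  have hx1 : x ≤ 150 / 247 := by
    rw [hx]
    have : (E ^ 2)⁻¹ ≤ (247 / 100)⁻¹ := inv_anti₀ (by norm_num) hF2
    norm_num at this ⊢
    linarith
  have hterm : ∀ k : ℕ, ‖(PI c A B).eA (b0I A B) (z0I A B) (k + 15)‖ ^ 2 / (lk (k + 15) ^ 2 - 1) ≤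
      5740 / 1000000 * (x ^ 32 * (x ^ 2) ^ k) := by
    intro k
    have h := eA_le7 (A := A) (B := B) c hρ hm' hE1 hF2 (by linarith) hF10 hA hX hX1 hr0 hr2 (k + 15) (by omega)
    have hpos := lk_sq (k + 15)
    rw [div_le_iff₀ hpos]
    have h2 := pow_le_pow_left₀ (norm_nonneg _) h 2
    refine h2.trans ?_
    have hlk : lk (k + 15) = 2 * (k : ℝ) + 32 := by unfold lk; push_cast; ring
    rw [hlk]
    set L : ℝ := 2 * (k : ℝ) + 32 with hL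
    have hk0 : (0 : ℝ) ≤ k := by positivity
    have hL32 : 32 ≤ L := by rw [hL]; linarith
    have e1 : (2 * (((k + 15 : ℕ) : ℝ)) + 2) = L := by rw [hL]; push_cast; ring
    rw [e1]
    have e2 : (2 * ((E ^ (2 * (k + 15) + 2))⁻¹ * (88 * r ^ (2 * (k + 15) - 27)) * (101 / 100) *
        (1483 / 1000 + 21 / 200 * L))) ^ 2 = 4 * 88 ^ 2 * (101 / 100) ^ 2 * (1483 / 1000 + 21 / 200 * L) ^ 2 *
        (((E ^ (2 * (k + 15) + 2))⁻¹) ^ 2 * (r ^ (2 * (k + 15) - 27)) ^ 2) := by ring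
    have e3 : ((E ^ (2 * (k + 15) + 2))⁻¹) ^ 2 * (r ^ (2 * (k + 15) - 27)) ^ 2 = (2 / 3) ^ 29 * (x ^ 32 * (x ^ 2) ^ k) := by
      have a1 : ((E ^ (2 * (k + 15) + 2))⁻¹) ^ 2 = ((E ^ 2)⁻¹) ^ (2 * k + 32) := by
        rw [← inv_pow, ← inv_pow, ← pow_mul, ← pow_mul]
        congr 1
        ring
      have a2 : (r ^ (2 * (k + 15) - 27)) ^ 2 = (3 / 2) ^ (2 * k + 3) := by
        rw [← pow_mul, mul_comm, pow_mul, hr2]
        congr 1
      rw [a1, a2, hx]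
      have a3 : (3 / 2 * (E ^ 2)⁻¹) ^ 32 * ((3 / 2 * (E ^ 2)⁻¹) ^ 2) ^ k = (3 / 2) ^ (2 * k + 32) * ((E ^ 2)⁻¹) ^ (2 * k + 32) := by
        rw [← pow_mul, ← pow_add, mul_pow]
        congr 2 <;> ring
      rw [a3]
      have a4 : (3 / 2 : ℝ) ^ (2 * k + 32) = (3 / 2) ^ (2 * k + 3) * (3 / 2) ^ 29 := by rw [← pow_add]
      rw [a4]
      have a5 : (2 / 3 : ℝ) ^ 29 * (3 / 2) ^ 29 = 1 := by rw [← mul_pow]; norm_num
      linear_combination (-((3 / 2 : ℝ) ^ (2 * k + 3)) * ((E ^ 2)⁻¹) ^ (2 * k + 32)) * a5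
    rw [e2, e3]
    have hy : 0 ≤ x ^ 32 * (x ^ 2) ^ k := by positivity
    have h3 : (1483 / 1000 + 21 / 200 * L) ^ 2 ≤ 232 / 10000 * (L ^ 2 - 1) := by nlinarith
    have h5' : 4 * 88 ^ 2 * (101 / 100) ^ 2 * (2 / 3 : ℝ) ^ 29 * (232 / 10000) ≤ 5740 / 1000000 := by norm_num
    have hc0 : (0 : ℝ) ≤ 4 * 88 ^ 2 * (101 / 100) ^ 2 * (2 / 3 : ℝ) ^ 29 := by positivity
    have hL1 : 0 ≤ L ^ 2 - 1 := by nlinarith
    have h4 : 4 * 88 ^ 2 * (101 / 100) ^ 2 * (1483 / 1000 + 21 / 200 * L) ^ 2 * (2 / 3) ^ 29 ≤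
        5740 / 1000000 * (L ^ 2 - 1) := by
      calc 4 * 88 ^ 2 * (101 / 100) ^ 2 * (1483 / 1000 + 21 / 200 * L) ^ 2 * (2 / 3) ^ 29
          = (4 * 88 ^ 2 * (101 / 100) ^ 2 * (2 / 3) ^ 29) * (1483 / 1000 + 21 / 200 * L) ^ 2 := by ring
        _ ≤ (4 * 88 ^ 2 * (101 / 100) ^ 2 * (2 / 3) ^ 29) * (232 / 10000 * (L ^ 2 - 1)) :=
            mul_le_mul_of_nonneg_left h3 hc0
        _ = (4 * 88 ^ 2 * (101 / 100) ^ 2 * (2 / 3) ^ 29 * (232 / 10000)) * (L ^ 2 - 1) := by ring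
        _ ≤ _ := mul_le_mul_of_nonneg_right h5' hL1
    calc 4 * 88 ^ 2 * (101 / 100) ^ 2 * (1483 / 1000 + 21 / 200 * L) ^ 2 * ((2 / 3) ^ 29 * (x ^ 32 * (x ^ 2) ^ k))
        = (4 * 88 ^ 2 * (101 / 100) ^ 2 * (1483 / 1000 + 21 / 200 * L) ^ 2 * (2 / 3) ^ 29) * (x ^ 32 * (x ^ 2) ^ k) := by ring
      _ ≤ (5740 / 1000000 * (L ^ 2 - 1)) * (x ^ 32 * (x ^ 2) ^ k) := mul_le_mul_of_nonneg_right h4 hy
      _ = _ := by ring
  refine (Finset.sum_le_sum fun k _ => hterm k).trans ?_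
  rw [← Finset.mul_sum, ← Finset.mul_sum]
  have hx2 : x ^ 2 ≤ 22500 / 61009 := by
    have := pow_le_pow_left₀ hx0 hx1 2
    norm_num at this ⊢
    exact this
  have hx2n : 0 ≤ x ^ 2 := by positivity
  have hgeo : ∑ k ∈ Finset.range n, (x ^ 2) ^ k ≤ 15844 / 10000 := by
    have h1 : x ^ 2 < 1 := by linarith
    have hs := (summable_geometric_of_lt_one hx2n h1).sum_le_tsum (Finset.range n) (fun k _ => by positivity)
    rw [tsum_geometric_of_lt_one hx2n h1] at hs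
    refine hs.trans ?_
    rw [inv_le_comm₀ (by linarith) (by norm_num)]
    norm_num
    linarith
  have hx32 : x ^ 32 ≤ 431440 / 51850 * (E ^ 40)⁻¹ := by
    have e1 : x ^ 32 = (3 / 2) ^ 32 * ((E ^ 24)⁻¹ * (E ^ 40)⁻¹) := by
      rw [hx, mul_pow]
      congr 1
      rw [← mul_inv, ← inv_pow, ← pow_mul, ← pow_add, inv_pow]
    have h1 : (E ^ 24)⁻¹ ≤ (51850)⁻¹ := by
      refine inv_anti₀ (by norm_num) ?_
      have := pow_le_pow_left₀ (by norm_num) hF6 4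
      calc (51850 : ℝ) ≤ (1509 / 100) ^ 4 := by norm_num
        _ ≤ (E ^ 6) ^ 4 := this
        _ = E ^ 24 := by ring
    rw [e1]
    have h2 : (E ^ 24)⁻¹ * (E ^ 40)⁻¹ ≤ (51850)⁻¹ * (E ^ 40)⁻¹ := mul_le_mul_of_nonneg_right h1 (by positivity)
    have h3 : (3 / 2 : ℝ) ^ 32 ≤ 431440 := by norm_num
    calc (3 / 2 : ℝ) ^ 32 * ((E ^ 24)⁻¹ * (E ^ 40)⁻¹) ≤ 431440 * ((51850)⁻¹ * (E ^ 40)⁻¹) :=
          mul_le_mul h3 h2 (by positivity) (by norm_num)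
      _ = _ := by ring
  have hE40 : 0 ≤ (E ^ 40)⁻¹ := by positivity
  have hx32n : 0 ≤ x ^ 32 := by positivity
  calc 5740 / 1000000 * (x ^ 32 * ∑ k ∈ Finset.range n, (x ^ 2) ^ k)
      ≤ 5740 / 1000000 * (431440 / 51850 * (E ^ 40)⁻¹ * (15844 / 10000)) :=
        mul_le_mul_of_nonneg_left (mul_le_mul hx32 hgeo (Finset.sum_nonneg fun k _ => by positivity)
          (by positivity)) (by norm_num)
    _ ≤ _ := by
      have : 5740 / 1000000 * (431440 / 51850 * (E ^ 40)⁻¹ * (15844 / 10000)) =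
        (5740 / 1000000 * (431440 / 51850) * (15844 / 10000)) * (E ^ 40)⁻¹ := by ring
      rw [this]
      exact mul_le_mul_of_nonneg_right (by norm_num) hE40

/-- THE MOMENTS `l ≥ 32` OF THE BASE on the ball of radius `1/12`, mean on the contour -/
theorem sum32m (c : ZC) (hρ : 100 ≤ c.rho) (hm' : c.lam ≤ c.m) (hA : 0 ≤ A) (hX1 : A + 8 / 5 * ‖B‖ ≤ 1 / 12) (n : ℕ) :
    ∑ k ∈ Finset.range n, ‖(PI c A B).eA (b0I A B) (z0I A B) (k + 15)‖ ^ 2 / (lk (k + 15) ^ 2 - 1) ≤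
      (68 / 100 * (A + 8 / 5 * ‖B‖) ^ 4) ^ 2 := by
  have hB := norm_nonneg B
  set X := A + 8 / 5 * ‖B‖ with hXd
  have hX0 : 0 ≤ X := by positivity
  rcases hX0.eq_or_lt with h0 | hpos
  · have h := sum32 (A := A) (B := B) c hρ hm' hA (by rw [← hXd]; linarith) n
    rw [← hXd, ← h0] at h
    rw [← h0]
    norm_num at h ⊢
    exact h
  · set a : ℝ := 4 / (5 * X) with ha
    have ha0 : 0 < a := by positivity
    set E : ℝ := a ^ ((5 : ℕ) : ℝ)⁻¹ with hE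
    have hE0 : 0 < E := Real.rpow_pos_of_pos ha0 _
    have h5 : E ^ 5 = a := Real.rpow_inv_natCast_pow ha0.le (by norm_num)
    have ha8 : 48 / 5 ≤ a := by
      rw [ha, le_div_iff₀ (by positivity)]
      linarith
    have hXa : X * a = 4 / 5 := by
      rw [ha]
      field_simp
    have h := sum_E7 (A := A) (B := B) c hρ hm' hE0 (by rw [h5]; exact ha8) hA (by rw [h5, ← hXd, hXa])
      (by rw [← hXd]; linarith) n
    have e40 : (E ^ 40)⁻¹ = (5 / 4 * X) ^ 8 := by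
      have : E ^ 40 = (E ^ 5) ^ 8 := by ring
      rw [this, h5, ← inv_pow, ha]
      congr 1
      field_simp
    rw [e40] at h
    refine h.trans ?_
    have : 0 ≤ X ^ 8 := by positivity
    nlinarith

end Pool.Agent.Helper26.SH
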