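import Pool.Agent.Helper26.SH.ContS

/-!
# Project RC, SHARP, zone I: `∑_{l ≥ 32} |e_l(s)|² / (l² - 1) ≤ (223/100 X⁴)²`, `X = A + (8/5) |B| ≤ 1/12`
-/

set_option autoImplicit false

open MeasureTheory Set Filter Topology

namespace Pool.Agent.Helper26.SH

open Helper49.LT hiding sg s3
open Helper49.RC Helper44.GQ Helper49.Sharp
open Pool.Agent.Helper43.SH
open Pool.Agent.Helper33.SH
open Pool.Agent.Helper20.RC (lk lk_ge lk_sq)

variable {A : ℝ} {B : ℂ}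

theorem E_facts12 {E : ℝ} (hE : 0 < E) (h5 : 48 / 5 ≤ E ^ 5) : 247 / 100 ≤ E ^ 2 ∧ 1509 / 100 ≤ E ^ 6 := by
  refine ⟨?_, ?_⟩
  · by_contra h
    push Not at h
    have h1 := pow_lt_pow_left₀ h (by positivity) (n := 5) (by norm_num)
    have h2 : (E ^ 5) ^ 2 = (E ^ 2) ^ 5 := by ring
    have h3 := pow_le_pow_left₀ (by norm_num) h5 2
    rw [h2] at h3
    norm_num at h1 h3
    linarith
  · by_contra h
    push Not at h
    have h1 := pow_lt_pow_left₀ h (by positivity) (n := 5) (by norm_num)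
    have h2 : (E ^ 5) ^ 6 = (E ^ 6) ^ 5 := by ring
    have h3 := pow_le_pow_left₀ (by norm_num) h5 6
    rw [h2] at h3
    norm_num at h1 h3
    linarith

/-- the sum, for one `E`, `E⁵ ≥ 48/5` -/
theorem sum_E12 (c : ZC) (hρ : 100 ≤ c.rho) (hm' : c.lam ≤ c.m) {E : ℝ} (hE : 0 < E) (h5 : 48 / 5 ≤ E ^ 5) (hA : 0 ≤ A)
    (hX : (A + 8 / 5 * ‖B‖) * E ^ 5 ≤ 4 / 5) (hX1 : A + 8 / 5 * ‖B‖ ≤ 1 / 10) (n : ℕ) :
    ∑ k ∈ Finset.range n, ‖(PI c A B).eA (b0I A B) (z0I A B) (k + 15)‖ ^ 2 / (lk (k + 15) ^ 2 - 1) ≤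
      8323 / 10000 * (E ^ 40)⁻¹ := by
  obtain ⟨hE1, hE2, hE6, hE10⟩ := E_facts hE (by linarith)
  obtain ⟨hF2, hF6⟩ := E_facts12 hE h5
  set r := Real.sqrt (3 / 2) with hr
  have hr0 : 0 ≤ r := Real.sqrt_nonneg _
  have hr2 : r ^ 2 = 3 / 2 := Real.sq_sqrt (by norm_num)
  set x := 3 / 2 * (E ^ 2)⁻¹ with hx
  have hx0 : 0 ≤ x := by positivity
  have hx1 : x ≤ 150 / 247 := by
    rw [hx]
    have : (E ^ 2)⁻¹ ≤ (247 / 100)⁻¹ := inv_anti₀ (by norm_num) hF2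
    norm_num at this ⊢
    linarith
  have hterm : ∀ k : ℕ, ‖(PI c A B).eA (b0I A B) (z0I A B) (k + 15)‖ ^ 2 / (lk (k + 15) ^ 2 - 1) ≤
      63111 / 1000000 * (x ^ 32 * (x ^ 2) ^ k) := by
    intro k
    have h := eA_le (A := A) (B := B) c hρ hm' hE1 hE2 hE6 hE10 hA hX hX1 hr0 hr2 (k + 15)
    have hpos := lk_sq (k + 15)
    rw [div_le_iff₀ hpos]
    have h2 := pow_le_pow_left₀ (norm_nonneg _) h 2
    refine h2.trans ?_
    have hlk : lk (k + 15) = 2 * (k : ℝ) + 32 := by unfold lk; push_cast; ring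
    rw [hlk]
    set L : ℝ := 2 * (k : ℝ) + 32 with hL
    have hk0 : (0 : ℝ) ≤ k := by positivity
    have hL32 : 32 ≤ L := by rw [hL]; linarith
    have e1 : (2 * (((k + 15 : ℕ) : ℝ)) + 2) = L := by rw [hL]; push_cast; ring
    rw [e1]
    have e2 : (2 * ((E ^ (2 * (k + 15) + 2))⁻¹ * r ^ (2 * (k + 15) + 1) * (101 / 100) *
        (1483 / 1000 + 21 / 200 * L))) ^ 2 = 4 * (101 / 100) ^ 2 * (1483 / 1000 + 21 / 200 * L) ^ 2 *
        (((E ^ (2 * (k + 15) + 2))⁻¹) ^ 2 * (r ^ (2 * (k + 15) + 1)) ^ 2) := by ring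
    have e3 : ((E ^ (2 * (k + 15) + 2))⁻¹) ^ 2 * (r ^ (2 * (k + 15) + 1)) ^ 2 = 2 / 3 * (x ^ 32 * (x ^ 2) ^ k) := by
      have a1 : ((E ^ (2 * (k + 15) + 2))⁻¹) ^ 2 = ((E ^ 2)⁻¹) ^ (2 * k + 32) := by
        rw [← inv_pow, ← inv_pow, ← pow_mul, ← pow_mul]
        congr 1
        ring
      have a2 : (r ^ (2 * (k + 15) + 1)) ^ 2 = (3 / 2) ^ (2 * k + 31) := by
        rw [← pow_mul, mul_comm, pow_mul, hr2]
        congr 1
      rw [a1, a2, hx]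
      have a3 : (3 / 2 * (E ^ 2)⁻¹) ^ 32 * ((3 / 2 * (E ^ 2)⁻¹) ^ 2) ^ k = (3 / 2) ^ (2 * k + 32) * ((E ^ 2)⁻¹) ^ (2 * k + 32) := by
        rw [← pow_mul, ← pow_add, mul_pow]
        congr 2 <;> ring
      rw [a3]
      have a4 : (3 / 2 : ℝ) ^ (2 * k + 32) = (3 / 2) ^ (2 * k + 31) * (3 / 2) := pow_succ _ _
      rw [a4]
      ring
    rw [e2, e3]
    have h3 : (1483 / 1000 + 21 / 200 * L) ^ 2 ≤ 232 / 10000 * (L ^ 2 - 1) := by nlinarith
    have hy : 0 ≤ x ^ 32 * (x ^ 2) ^ k := by positivity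
    have h4 : 4 * (101 / 100) ^ 2 * (1483 / 1000 + 21 / 200 * L) ^ 2 * (2 / 3) ≤ 63111 / 1000000 * (L ^ 2 - 1) := by
      nlinarith
    calc 4 * (101 / 100) ^ 2 * (1483 / 1000 + 21 / 200 * L) ^ 2 * (2 / 3 * (x ^ 32 * (x ^ 2) ^ k))
        = (4 * (101 / 100) ^ 2 * (1483 / 1000 + 21 / 200 * L) ^ 2 * (2 / 3)) * (x ^ 32 * (x ^ 2) ^ k) := by ring
      _ ≤ (63111 / 1000000 * (L ^ 2 - 1)) * (x ^ 32 * (x ^ 2) ^ k) := mul_le_mul_of_nonneg_right h4 hy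
      _ = _ := by ring
  refine (Finset.sum_le_sum fun k _ => hterm k).trans ?_
  rw [← Finset.mul_sum, ← Finset.mul_sum]
  have hx2 : x ^ 2 ≤ 22500 / 61009 := by
    have := pow_le_pow_left₀ hx0 hx1 2
    norm_num at this ⊢
    exact this
  have hx2n : 0 ≤ x ^ 2 := by positivity
  have hgeo : ∑ k ∈ Finset.range n, (x ^ 2) ^ k ≤ 15844 / 10000 := by
    have h1 : x ^ 2 < 1 := by linarith
    have hs := (summable_geometric_of_lt_one hx2n h1).sum_le_tsum (Finset.range n) (fun k _ => by positivity)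
    rw [tsum_geometric_of_lt_one hx2n h1] at hs
    refine hs.trans ?_
    rw [inv_le_comm₀ (by linarith) (by norm_num)]
    norm_num
    linarith
  have hx32 : x ^ 32 ≤ 431440 / 51850 * (E ^ 40)⁻¹ := by
    have e1 : x ^ 32 = (3 / 2) ^ 32 * ((E ^ 24)⁻¹ * (E ^ 40)⁻¹) := by
      rw [hx, mul_pow]
      congr 1
      rw [← mul_inv, ← inv_pow, ← pow_mul, ← pow_add, inv_pow]
    have h1 : (E ^ 24)⁻¹ ≤ (51850)⁻¹ := by
      refine inv_anti₀ (by norm_num) ?_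
      have := pow_le_pow_left₀ (by norm_num) hF6 4
      calc (51850 : ℝ) ≤ (1509 / 100) ^ 4 := by norm_num
        _ ≤ (E ^ 6) ^ 4 := this
        _ = E ^ 24 := by ring
    rw [e1]
    have h2 : (E ^ 24)⁻¹ * (E ^ 40)⁻¹ ≤ (51850)⁻¹ * (E ^ 40)⁻¹ := mul_le_mul_of_nonneg_right h1 (by positivity)
    have h3 : (3 / 2 : ℝ) ^ 32 ≤ 431440 := by norm_num
    calc (3 / 2 : ℝ) ^ 32 * ((E ^ 24)⁻¹ * (E ^ 40)⁻¹) ≤ 431440 * ((51850)⁻¹ * (E ^ 40)⁻¹) :=
          mul_le_mul h3 h2 (by positivity) (by norm_num)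
      _ = _ := by ring
  have hE40 : 0 ≤ (E ^ 40)⁻¹ := by positivity
  have hx32n : 0 ≤ x ^ 32 := by positivity
  calc 63111 / 1000000 * (x ^ 32 * ∑ k ∈ Finset.range n, (x ^ 2) ^ k)
      ≤ 63111 / 1000000 * (431440 / 51850 * (E ^ 40)⁻¹ * (15844 / 10000)) :=
        mul_le_mul_of_nonneg_left (mul_le_mul hx32 hgeo (Finset.sum_nonneg fun k _ => by positivity)
          (by positivity)) (by norm_num)
    _ ≤ _ := by
      have : 63111 / 1000000 * (431440 / 51850 * (E ^ 40)⁻¹ * (15844 / 10000)) =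
        (63111 / 1000000 * (431440 / 51850) * (15844 / 10000)) * (E ^ 40)⁻¹ := by ring
      rw [this]
      exact mul_le_mul_of_nonneg_right (by norm_num) hE40

/-- THE MOMENTS `l ≥ 32` OF THE BASE on the ball of radius `1/12` -/
theorem sum32b (c : ZC) (hρ : 100 ≤ c.rho) (hm' : c.lam ≤ c.m) (hA : 0 ≤ A) (hX1 : A + 8 / 5 * ‖B‖ ≤ 1 / 12) (n : ℕ) :
    ∑ k ∈ Finset.range n, ‖(PI c A B).eA (b0I A B) (z0I A B) (k + 15)‖ ^ 2 / (lk (k + 15) ^ 2 - 1) ≤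
      (223 / 100 * (A + 8 / 5 * ‖B‖) ^ 4) ^ 2 := by
  have hB := norm_nonneg B
  set X := A + 8 / 5 * ‖B‖ with hXd
  have hX0 : 0 ≤ X := by positivity
  rcases hX0.eq_or_lt with h0 | hpos
  · have h := sum32 (A := A) (B := B) c hρ hm' hA (by rw [← hXd]; linarith) n
    rw [← hXd, ← h0] at h
    rw [← h0]
    norm_num at h ⊢
    exact h
  · set a : ℝ := 4 / (5 * X) with ha
    have ha0 : 0 < a := by positivity
    set E : ℝ := a ^ ((5 : ℕ) : ℝ)⁻¹ with hE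
    have hE0 : 0 < E := Real.rpow_pos_of_pos ha0 _
    have h5 : E ^ 5 = a := Real.rpow_inv_natCast_pow ha0.le (by norm_num)
    have ha8 : 48 / 5 ≤ a := by
      rw [ha, le_div_iff₀ (by positivity)]
      linarith
    have hXa : X * a = 4 / 5 := by
      rw [ha]
      field_simp
    have h := sum_E12 (A := A) (B := B) c hρ hm' hE0 (by rw [h5]; exact ha8) hA (by rw [h5, ← hXd, hXa])
      (by rw [← hXd]; linarith) n
    have e40 : (E ^ 40)⁻¹ = (5 / 4 * X) ^ 8 := by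
      have : E ^ 40 = (E ^ 5) ^ 8 := by ring
      rw [this, h5, ← inv_pow, ha]
      congr 1
      field_simp
    rw [e40] at h
    refine h.trans ?_
    have : 0 ≤ X ^ 8 := by positivity
    nlinarith

end Pool.Agent.Helper26.SH
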