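import Pool.Agent.Helper26.SH.ContE

/-!
# Project RC, SHARP, zone I: `∑_{l ≥ 32} |e_l(s)|² / (l² - 1) ≤ (37/10 X⁴)²`, `X = A + (8/5) |B| ≤ 1/10`
-/

set_option autoImplicit false

open MeasureTheory Set Filter Topology

namespace Pool.Agent.Helper26.SH

open Helper49.LT hiding sg s3
open Helper49.RC Helper44.GQ Helper49.Sharp
open Pool.Agent.Helper43.SH
open Pool.Agent.Helper33.SH
open Pool.Agent.Helper20.RC (lk lk_ge lk_sq)

variable {A : ℝ} {B : ℂ}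

theorem E_facts {E : ℝ} (hE : 0 < E) (h5 : 8 ≤ E ^ 5) :
    1 ≤ E ∧ 459 / 200 ≤ E ^ 2 ∧ 12 ≤ E ^ 6 ∧ 64 ≤ E ^ 10 := by
  refine ⟨?_, ?_, ?_, ?_⟩
  · by_contra h
    push Not at h
    have := pow_lt_one₀ hE.le h (n := 5) (by norm_num)
    linarith
  · by_contra h
    push Not at h
    have h1 := pow_lt_pow_left₀ h (by positivity) (n := 5) (by norm_num)
    have h2 : (E ^ 5) ^ 2 = (E ^ 2) ^ 5 := by ring
    have h3 := pow_le_pow_left₀ (by norm_num) h5 2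
    rw [h2] at h3
    norm_num at h1 h3
    linarith
  · by_contra h
    push Not at h
    have h1 := pow_lt_pow_left₀ h (by positivity) (n := 5) (by norm_num)
    have h2 : (E ^ 5) ^ 6 = (E ^ 6) ^ 5 := by ring
    have h3 := pow_le_pow_left₀ (by norm_num) h5 6
    rw [h2] at h3
    norm_num at h1 h3
    linarith
  · have h3 := pow_le_pow_left₀ (by norm_num) h5 2
    calc (64 : ℝ) = 8 ^ 2 := by norm_num
      _ ≤ (E ^ 5) ^ 2 := h3
      _ = E ^ 10 := by ring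

/-- the sum, for one `E` -/
theorem sum_E (c : ZC) (hρ : 100 ≤ c.rho) (hm' : c.lam ≤ c.m) {E : ℝ} (hE : 0 < E) (h5 : 8 ≤ E ^ 5) (hA : 0 ≤ A)
    (hX : (A + 8 / 5 * ‖B‖) * E ^ 5 ≤ 4 / 5) (hX1 : A + 8 / 5 * ‖B‖ ≤ 1 / 10) (n : ℕ) :
    ∑ k ∈ Finset.range n, ‖(PI c A B).eA (b0I A B) (z0I A B) (k + 15)‖ ^ 2 / (lk (k + 15) ^ 2 - 1) ≤
      22927 / 10000 * (E ^ 40)⁻¹ := by
  obtain ⟨hE1, hE2, hE6, hE10⟩ := E_facts hE h5
  set r := Real.sqrt (3 / 2) with hr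
  have hr0 : 0 ≤ r := Real.sqrt_nonneg _
  have hr2 : r ^ 2 = 3 / 2 := Real.sq_sqrt (by norm_num)
  set x := 3 / 2 * (E ^ 2)⁻¹ with hx
  have hx0 : 0 ≤ x := by positivity
  have hx1 : x ≤ 100 / 153 := by
    rw [hx]
    have : (E ^ 2)⁻¹ ≤ (459 / 200)⁻¹ := inv_anti₀ (by norm_num) hE2
    norm_num at this ⊢
    linarith
  have hterm : ∀ k : ℕ, ‖(PI c A B).eA (b0I A B) (z0I A B) (k + 15)‖ ^ 2 / (lk (k + 15) ^ 2 - 1) ≤
      63111 / 1000000 * (x ^ 32 * (x ^ 2) ^ k) := by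
    intro k
    have h := eA_le (A := A) (B := B) c hρ hm' hE1 hE2 hE6 hE10 hA hX hX1 hr0 hr2 (k + 15)
    have hpos := lk_sq (k + 15)
    rw [div_le_iff₀ hpos]
    have h2 := pow_le_pow_left₀ (norm_nonneg _) h 2
    refine h2.trans ?_
    have hlk : lk (k + 15) = 2 * (k : ℝ) + 32 := by unfold lk; push_cast; ring
    rw [hlk]
    set L : ℝ := 2 * (k : ℝ) + 32 with hL
    have hk0 : (0 : ℝ) ≤ k := by positivity
    have hL32 : 32 ≤ L := by rw [hL]; linarith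
    have e1 : (2 * (((k + 15 : ℕ) : ℝ)) + 2) = L := by rw [hL]; push_cast; ring
    rw [e1]
    have e2 : (2 * ((E ^ (2 * (k + 15) + 2))⁻¹ * r ^ (2 * (k + 15) + 1) * (101 / 100) *
        (1483 / 1000 + 21 / 200 * L))) ^ 2 = 4 * (101 / 100) ^ 2 * (1483 / 1000 + 21 / 200 * L) ^ 2 *
        (((E ^ (2 * (k + 15) + 2))⁻¹) ^ 2 * (r ^ (2 * (k + 15) + 1)) ^ 2) := by ring
    have e3 : ((E ^ (2 * (k + 15) + 2))⁻¹) ^ 2 * (r ^ (2 * (k + 15) + 1)) ^ 2 = 2 / 3 * (x ^ 32 * (x ^ 2) ^ k) := by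
      have a1 : ((E ^ (2 * (k + 15) + 2))⁻¹) ^ 2 = ((E ^ 2)⁻¹) ^ (2 * k + 32) := by
        rw [← inv_pow, ← inv_pow, ← pow_mul, ← pow_mul]
        congr 1
        ring
      have a2 : (r ^ (2 * (k + 15) + 1)) ^ 2 = (3 / 2) ^ (2 * k + 31) := by
        rw [← pow_mul, mul_comm, pow_mul, hr2]
        congr 1
      rw [a1, a2, hx]
      have a3 : (3 / 2 * (E ^ 2)⁻¹) ^ 32 * ((3 / 2 * (E ^ 2)⁻¹) ^ 2) ^ k = (3 / 2) ^ (2 * k + 32) * ((E ^ 2)⁻¹) ^ (2 * k + 32) := by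
        rw [← pow_mul, ← pow_add, mul_pow]
        congr 2 <;> ring
      rw [a3]
      have a4 : (3 / 2 : ℝ) ^ (2 * k + 32) = (3 / 2) ^ (2 * k + 31) * (3 / 2) := pow_succ _ _
      rw [a4]
      ring
    rw [e2, e3]
    have h3 : (1483 / 1000 + 21 / 200 * L) ^ 2 ≤ 232 / 10000 * (L ^ 2 - 1) := by nlinarith
    have hy : 0 ≤ x ^ 32 * (x ^ 2) ^ k := by positivity
    have h4 : 4 * (101 / 100) ^ 2 * (1483 / 1000 + 21 / 200 * L) ^ 2 * (2 / 3) ≤ 63111 / 1000000 * (L ^ 2 - 1) := by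
      nlinarith
    calc 4 * (101 / 100) ^ 2 * (1483 / 1000 + 21 / 200 * L) ^ 2 * (2 / 3 * (x ^ 32 * (x ^ 2) ^ k))
        = (4 * (101 / 100) ^ 2 * (1483 / 1000 + 21 / 200 * L) ^ 2 * (2 / 3)) * (x ^ 32 * (x ^ 2) ^ k) := by ring
      _ ≤ (63111 / 1000000 * (L ^ 2 - 1)) * (x ^ 32 * (x ^ 2) ^ k) := mul_le_mul_of_nonneg_right h4 hy
      _ = _ := by ring
  refine (Finset.sum_le_sum fun k _ => hterm k).trans ?_
  rw [← Finset.mul_sum, ← Finset.mul_sum]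
  have hx2 : x ^ 2 ≤ 10000 / 23409 := by
    have := pow_le_pow_left₀ hx0 hx1 2
    norm_num at this ⊢
    exact this
  have hx2n : 0 ≤ x ^ 2 := by positivity
  have hgeo : ∑ k ∈ Finset.range n, (x ^ 2) ^ k ≤ 17459 / 10000 := by
    have h1 : x ^ 2 < 1 := by linarith
    have hs := (summable_geometric_of_lt_one hx2n h1).sum_le_tsum (Finset.range n) (fun k _ => by positivity)
    rw [tsum_geometric_of_lt_one hx2n h1] at hs
    refine hs.trans ?_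
    rw [inv_le_comm₀ (by linarith) (by norm_num)]
    norm_num
    linarith
  have hx32 : x ^ 32 ≤ 431440 / 20736 * (E ^ 40)⁻¹ := by
    have e1 : x ^ 32 = (3 / 2) ^ 32 * ((E ^ 24)⁻¹ * (E ^ 40)⁻¹) := by
      rw [hx, mul_pow]
      congr 1
      rw [← mul_inv, ← inv_pow, ← pow_mul, ← pow_add, inv_pow]
    have h1 : (E ^ 24)⁻¹ ≤ (20736)⁻¹ := by
      refine inv_anti₀ (by norm_num) ?_
      have := pow_le_pow_left₀ (by norm_num) hE6 4
      calc (20736 : ℝ) = 12 ^ 4 := by norm_num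
        _ ≤ (E ^ 6) ^ 4 := this
        _ = E ^ 24 := by ring
    rw [e1]
    have h2 : (E ^ 24)⁻¹ * (E ^ 40)⁻¹ ≤ (20736)⁻¹ * (E ^ 40)⁻¹ := mul_le_mul_of_nonneg_right h1 (by positivity)
    have h3 : (3 / 2 : ℝ) ^ 32 ≤ 431440 := by norm_num
    calc (3 / 2 : ℝ) ^ 32 * ((E ^ 24)⁻¹ * (E ^ 40)⁻¹) ≤ 431440 * ((20736)⁻¹ * (E ^ 40)⁻¹) :=
          mul_le_mul h3 h2 (by positivity) (by norm_num)
      _ = _ := by ring
  have hE40 : 0 ≤ (E ^ 40)⁻¹ := by positivity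
  have hx32n : 0 ≤ x ^ 32 := by positivity
  calc 63111 / 1000000 * (x ^ 32 * ∑ k ∈ Finset.range n, (x ^ 2) ^ k)
      ≤ 63111 / 1000000 * (431440 / 20736 * (E ^ 40)⁻¹ * (17459 / 10000)) :=
        mul_le_mul_of_nonneg_left (mul_le_mul hx32 hgeo (Finset.sum_nonneg fun k _ => by positivity)
          (by positivity)) (by norm_num)
    _ ≤ _ := by
      have : 63111 / 1000000 * (431440 / 20736 * (E ^ 40)⁻¹ * (17459 / 10000)) =
        (63111 / 1000000 * (431440 / 20736) * (17459 / 10000)) * (E ^ 40)⁻¹ := by ring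
      rw [this]
      exact mul_le_mul_of_nonneg_right (by norm_num) hE40

/-- THE MOMENTS `l ≥ 32` OF THE BASE -/
theorem sum32 (c : ZC) (hρ : 100 ≤ c.rho) (hm' : c.lam ≤ c.m) (hA : 0 ≤ A) (hX1 : A + 8 / 5 * ‖B‖ ≤ 1 / 10) (n : ℕ) :
    ∑ k ∈ Finset.range n, ‖(PI c A B).eA (b0I A B) (z0I A B) (k + 15)‖ ^ 2 / (lk (k + 15) ^ 2 - 1) ≤
      (37 / 10 * (A + 8 / 5 * ‖B‖) ^ 4) ^ 2 := by
  have hB := norm_nonneg B
  set X := A + 8 / 5 * ‖B‖ with hXd
  have hX0 : 0 ≤ X := by positivity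
  set S := ∑ k ∈ Finset.range n, ‖(PI c A B).eA (b0I A B) (z0I A B) (k + 15)‖ ^ 2 / (lk (k + 15) ^ 2 - 1) with hS
  rcases hX0.eq_or_lt with h0 | hpos
  · -- `X = 0`
    have key : ∀ E : ℝ, 2 ≤ E → S ≤ 22927 / 10000 * (E ^ 40)⁻¹ := by
      intro E hE
      have h5 : 8 ≤ E ^ 5 := by
        have := pow_le_pow_left₀ (by norm_num) hE 5
        norm_num at this
        linarith
      exact sum_E c hρ hm' (by linarith) h5 hA (by rw [← hXd, ← h0, zero_mul]; norm_num) (by rw [← hXd, ← h0]; norm_num) n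
    rw [← h0]
    norm_num
    by_contra hcon
    push Not at hcon
    have h1 := key (2 + 3 / S) (by have : 0 ≤ 3 / S := by positivity
                                   linarith)
    have hE : 1 ≤ 2 + 3 / S := by have : 0 ≤ 3 / S := by positivity
                                  linarith
    have h2 : 2 + 3 / S ≤ (2 + 3 / S) ^ 40 := by
      calc 2 + 3 / S = (2 + 3 / S) ^ 1 := (pow_one _).symm
        _ ≤ (2 + 3 / S) ^ 40 := pow_le_pow_right₀ hE (by norm_num)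
    have h3 : ((2 + 3 / S) ^ 40)⁻¹ ≤ (2 + 3 / S)⁻¹ := inv_anti₀ (by linarith) h2
    have h4 : (2 + 3 / S)⁻¹ ≤ S / 3 := by
      rw [inv_le_comm₀ (by linarith) (by positivity)]
      have : (S / 3)⁻¹ = 3 / S := inv_div _ _
      rw [this]
      linarith
    nlinarith
  · set a : ℝ := 4 / (5 * X) with ha
    have ha0 : 0 < a := by positivity
    set E : ℝ := a ^ ((5 : ℕ) : ℝ)⁻¹ with hE
    have hE0 : 0 < E := Real.rpow_pos_of_pos ha0 _
    have h5 : E ^ 5 = a := Real.rpow_inv_natCast_pow ha0.le (by norm_num)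
    have ha8 : 8 ≤ a := by
      rw [ha, le_div_iff₀ (by positivity)]
      linarith
    have hXa : X * a = 4 / 5 := by
      rw [ha]
      field_simp
    have h := sum_E (A := A) (B := B) c hρ hm' hE0 (by rw [h5]; exact ha8) hA (by rw [h5, ← hXd, hXa]) (by rw [← hXd]; exact hX1) n
    have e40 : (E ^ 40)⁻¹ = (5 / 4 * X) ^ 8 := by
      have : E ^ 40 = (E ^ 5) ^ 8 := by ring
      rw [this, h5, ← inv_pow, ha]
      congr 1
      field_simp
    rw [e40] at h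
    refine h.trans ?_
    have : 0 ≤ X ^ 8 := by positivity
    nlinarith

end Pool.Agent.Helper26.SH
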