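import Pool.Agent.Helper33.SH.ETail2

/-!
# Project RC, SHARP, zone I: the aligned moment `e_12(s)`, ten orders
-/

set_option autoImplicit false

namespace Pool.Agent.Helper26.SH

open Pool.Agent.Helper35.Cas
open Pool.Agent.Helper33.ET
open Pool.Agent.Helper27.SH (P2 evR)
open Pool.Agent.Helper33.SH (PI ZC z0I b0I)

def G12b (i : ℕ) : ℚ := [51110, 18890, 12030, 3639, 38810, 9412].getD i 0
/-- `|e_12| ≤` -/
def R12b : P2 :=
  [(4, 0, 8643 / 100), (1, 3, 1747 / 10), (6, 0, 3857 / 5), (4, 2, 2381 / 5), (3, 3, 1301), (1, 5, 4613 / 5),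
   (8, 0, 2480), (6, 2, 8945), (5, 3, 9434), (4, 4, 3215), (3, 5, 47570), (1, 7, 2344), (10, 0, 803200),
   (9, 1, 12720000), (8, 2, 87630000), (7, 3, 346400000), (6, 4, 869940000), (5, 5, 1447300000),
   (4, 6, 1607900000), (3, 7, 1168600000), (2, 8, 524160000), (1, 9, 127590000), (0, 10, 12070000)]
theorem c12b : chkRow 12 10 (32000 * 16 ^ 10) G12b R12b = true := by decide +kernel

theorem e12b_le (c : ZC) {A : ℝ} {B : ℂ} (hA : 0 ≤ A) (h : A + 3 / 2 * ‖B‖ ≤ 1 / 6) :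
    ‖(PI c A B).eA (b0I A B) (z0I A B) 5‖ ≤ evR A ‖B‖ R12b := el6 c hA h 5 10 _ _ _ c12b

end Pool.Agent.Helper26.SH
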