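import Pool.Agent.Helper33.SH.ETail2

/-!
# Project RC, SHARP, zone I: the aligned moment `e_30(s)`
-/

set_option autoImplicit false
set_option maxRecDepth 100000

namespace Pool.Agent.Helper26.SH

open Pool.Agent.Helper35.Cas
open Pool.Agent.Helper33.ET
open Pool.Agent.Helper27.SH (P2 evR)
open Pool.Agent.Helper33.SH (PI ZC z0I b0I)

def G30 (i : ℕ) : ℚ := [1958000000, 254200000, 191000000, 19420000, 370900000, 34000000].getD i 0
/-- `|e_30| ≤` -/
def R30 : P2 :=
  [(0, 6, 5076), (5, 3, 276700), (2, 6, 883800), (0, 8, 91290), (10, 0, 97950), (7, 3, 22400000), (5, 5, 56010000),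
   (4, 6, 55040000), (2, 8, 12130000), (0, 10, 3899000), (12, 0, 23970000000),
   (11, 1, 435300000000), (10, 2, 3574000000000), (9, 3, 17550000000000), (8, 4, 57290000000000),
   (7, 5, 131000000000000), (6, 6, 214700000000000), (5, 7, 253400000000000), (4, 8, 213000000000000),
   (3, 9, 123600000000000), (2, 10, 46520000000000), (1, 11, 10040000000000), (0, 12, 906000000000)]
theorem c30 : chkRow 30 12 (32000 * 16 ^ 12) G30 R30 = true := by decide +kernel

theorem e30_le (c : ZC) {A : ℝ} {B : ℂ} (hA : 0 ≤ A) (h : A + 3 / 2 * ‖B‖ ≤ 1 / 6) :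
    ‖(PI c A B).eA (b0I A B) (z0I A B) 14‖ ≤ evR A ‖B‖ R30 := el6 c hA h 14 12 _ _ _ c30

end Pool.Agent.Helper26.SH
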