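import Pool.Agent.Helper33.SH.Inst
import Pool.Agent.Helper17.RC.TailD2

/-!
# Project RC, SHARP, zone I: the slopes of the alignments

`φ_j' = 1 + Im (ζ_j' / (1 + ζ_j))`. `dph1_ge`, `dph2_ge`: `φ_j' ≥ 2/5` if `A + 2 |B| ≤ 1/4`; `dph1_ge20`,
`dph2_ge20`: `φ_j' ≥ 3/5` if `A + (8/5) |B| ≤ 3/20`. `wok4`, `wok20`: the density weights `2 / φ_j'` (`WOK`).
-/

set_option autoImplicit false

open MeasureTheory Set Filter Topology

namespace Pool.Agent.Helper26.SH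

open Helper49.LT hiding sg s3
open Helper49.RC Helper44.GQ Helper49.Sharp
open Pool.Agent.Helper43.SH
open Pool.Agent.Helper33.SH
open Pool.Agent.Helper17.RC (WOK DensW densW_slope)

/-! ### the inequality -/

theorem norm_sq_ri (z : ℂ) : ‖z‖ ^ 2 = z.re ^ 2 + z.im ^ 2 := by
  rw [← Complex.normSq_eq_norm_sq, Complex.normSq_apply]; ring

theorem re_le_prod (x y : ℂ) : x.re * y.re + x.im * y.im ≤ ‖x‖ * ‖y‖ := by
  have h := Complex.abs_re_le_norm (x * (starRingEnd ℂ) y)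
  rw [norm_mul, Complex.norm_conj, Complex.mul_re, Complex.conj_re, Complex.conj_im] at h
  have := le_abs_self (x.re * y.re - x.im * -y.im)
  linarith

/-- the core of the bound; `κ` with `|κ| = 1`, `Re κ = -1/2` -/
theorem core {a b κ : ℂ} {lam q : ℝ} (hκ : ‖κ‖ = 1) (hr : κ.re = -(1 / 2)) (hl : 0 ≤ lam) (hl2 : lam ≤ 3 / 2)
    (hq : 0 ≤ q) (hq2 : 75 / 4 - 15 * lam + 7 * lam ^ 2 ≤ q ^ 2)
    (h : 0 ≤ lam - (3 - 2 * lam) * ‖a‖ - q * ‖b‖ - (3 - lam) * ‖a‖ ^ 2 - (9 - lam) * (‖a‖ * ‖b‖)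
      - (15 / 4 - lam / 4) * ‖b‖ ^ 2) :
    ((3 * a + 5 * b + 5 / 2 * (κ * (starRingEnd ℂ) b)) * (starRingEnd ℂ) (1 + (a + b - 1 / 2 * (κ * (starRingEnd ℂ) b)))).re
      ≤ lam * ‖1 + (a + b - 1 / 2 * (κ * (starRingEnd ℂ) b))‖ ^ 2 := by
  set c := κ * (starRingEnd ℂ) b with hc
  have nc : ‖c‖ = ‖b‖ := by rw [hc, norm_mul, hκ, one_mul, Complex.norm_conj]
  have ki : κ.im ^ 2 = 3 / 4 := by
    have := norm_sq_ri κ
    rw [hκ, hr] at this
    linarith
  have c1 : c.re = -(1 / 2) * b.re + κ.im * b.im := by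
    rw [hc, Complex.mul_re, Complex.conj_re, Complex.conj_im, hr]; ring
  have c2 : c.im = κ.im * b.re + 1 / 2 * b.im := by
    rw [hc, Complex.mul_im, Complex.conj_re, Complex.conj_im, hr]; ring
  have e1 : ((3 * a + 5 * b + 5 / 2 * c) * (starRingEnd ℂ) (1 + (a + b - 1 / 2 * c))).re =
      (3 * a.re + 5 * b.re + 5 / 2 * c.re) * (1 + (a.re + b.re - 1 / 2 * c.re)) +
        (3 * a.im + 5 * b.im + 5 / 2 * c.im) * (a.im + b.im - 1 / 2 * c.im) := by
    simp only [Complex.mul_re, Complex.mul_im, Complex.conj_re, Complex.conj_im, Complex.add_re, Complex.add_im,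
      Complex.sub_re, Complex.sub_im, Complex.one_re, Complex.one_im, Complex.re_ofNat, Complex.im_ofNat,
      Complex.div_ofNat_re, Complex.div_ofNat_im]
    ring
  have e2 : ‖1 + (a + b - 1 / 2 * c)‖ ^ 2 =
      (1 + (a.re + b.re - 1 / 2 * c.re)) ^ 2 + (a.im + b.im - 1 / 2 * c.im) ^ 2 := by
    rw [norm_sq_ri]
    simp only [Complex.mul_re, Complex.mul_im, Complex.add_re, Complex.add_im,
      Complex.sub_re, Complex.sub_im, Complex.one_re, Complex.one_im, Complex.re_ofNat, Complex.im_ofNat,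
      Complex.div_ofNat_re, Complex.div_ofNat_im]
    ring
  rw [e1, e2]
  -- the pieces
  have na := norm_sq_ri a
  have nb := norm_sq_ri b
  have nc2 := norm_sq_ri c
  rw [nc] at nc2
  have p1 : a.re ≤ ‖a‖ := (le_abs_self _).trans (Complex.abs_re_le_norm a)
  -- linear part in b
  have p2 : (5 - 2 * lam) * b.re + (lam + 5 / 2) * c.re ≤ q * ‖b‖ := by
    set w : ℂ := ⟨(5 - 2 * lam) - (lam + 5 / 2) / 2, (lam + 5 / 2) * κ.im⟩ with hw
    have hwn : ‖w‖ ≤ q := by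
      refine le_of_sq_le_sq ?_ hq
      rw [norm_sq_ri, hw]
      simp only
      nlinarith
    have h1 := re_le_prod w b
    rw [hw] at h1
    simp only at h1
    rw [← hw] at h1
    have h2 := mul_le_mul_of_nonneg_right hwn (norm_nonneg b)
    rw [c1]
    nlinarith
  -- quadratic cross part
  have p3 : a.re * ((8 - 2 * lam) * b.re + (lam + 1) * c.re) + a.im * ((8 - 2 * lam) * b.im + (lam + 1) * c.im) ≤
      (9 - lam) * (‖a‖ * ‖b‖) := by
    have h1 := re_le_prod a b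
    have h2 := re_le_prod a c
    rw [nc] at h2
    have h3 := mul_le_mul_of_nonneg_left h1 (by linarith : 0 ≤ 8 - 2 * lam)
    have h4 := mul_le_mul_of_nonneg_left h2 (by linarith : 0 ≤ lam + 1)
    linarith
  -- the square
  have p4 : 1 / 4 * ‖b‖ ^ 2 ≤ (b.re - 1 / 2 * c.re) ^ 2 + (b.im - 1 / 2 * c.im) ^ 2 := by
    have h1 := re_le_prod b c
    rw [nc] at h1
    nlinarith
  have p5 := mul_le_mul_of_nonneg_left p4 hl
  have e3 : lam * ((1 + (a.re + b.re - 1 / 2 * c.re)) ^ 2 + (a.im + b.im - 1 / 2 * c.im) ^ 2) -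
      ((3 * a.re + 5 * b.re + 5 / 2 * c.re) * (1 + (a.re + b.re - 1 / 2 * c.re)) +
        (3 * a.im + 5 * b.im + 5 / 2 * c.im) * (a.im + b.im - 1 / 2 * c.im)) =
      lam - (3 - 2 * lam) * a.re - ((5 - 2 * lam) * b.re + (lam + 5 / 2) * c.re) - (3 - lam) * (a.re ^ 2 + a.im ^ 2)
        - (a.re * ((8 - 2 * lam) * b.re + (lam + 1) * c.re) + a.im * ((8 - 2 * lam) * b.im + (lam + 1) * c.im))
        + lam * ((b.re - 1 / 2 * c.re) ^ 2 + (b.im - 1 / 2 * c.im) ^ 2)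
        - 5 * (b.re ^ 2 + b.im ^ 2) + 5 / 4 * (c.re ^ 2 + c.im ^ 2) := by ring
  rw [← na, ← nb, ← nc2] at e3
  have p6 := mul_le_mul_of_nonneg_left p1 (by linarith : 0 ≤ 3 - 2 * lam)
  linarith

/-! ### the derivatives -/

variable (c : ZC) (A : ℝ) (B : ℂ)

/-- `z0'` -/
noncomputable def dz0 (t : ℝ) : ℂ := -Complex.I * (3 * (A * ee (-3 * t)) + 5 * (B * ee (-5 * t))
  + 5 / 2 * ((starRingEnd ℂ) B * ee (5 * t)))

theorem hasDerivAt_z0I (t : ℝ) : HasDerivAt (z0I A B) (dz0 A B t) t := by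
  have h3 := hasDerivAt_ee (-3) t
  have h5 := hasDerivAt_ee (-5) t
  have h5' := hasDerivAt_ee 5 t
  have h := ((h3.const_mul (A : ℂ)).add (h5.const_mul B)).sub ((h5'.const_mul ((starRingEnd ℂ) B)).const_mul (1 / 2 : ℂ))
  have e : z0I A B = fun s : ℝ => (A : ℂ) * ee (-3 * s) + B * ee (-5 * s) - 1 / 2 * ((starRingEnd ℂ) B * ee (5 * s)) := by
    funext s
    exact zB_eq A B s
  rw [e]
  refine HasDerivAt.congr_deriv h ?_
  unfold dz0
  push_cast
  ring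

theorem continuous_z0I : Continuous (z0I A B) :=
  continuous_iff_continuousAt.2 fun t => (hasDerivAt_z0I A B t).continuousAt

theorem continuous_dz0 : Continuous (dz0 A B) := by
  have h : ∀ c : ℝ, Continuous fun t : ℝ => ee (c * t) := fun c => continuous_ee.comp (continuous_const.mul continuous_id)
  have h3 := h (-3)
  have h5 := h (-5)
  have h5' := h 5
  unfold dz0
  fun_prop

/-- the slopes -/
noncomputable def dph1 (θ : ℝ) : ℝ := 1 + (dz0 A B (θ - Real.pi / 3) / (om + z0I A B (θ - Real.pi / 3))).im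
noncomputable def dph2 (θ : ℝ) : ℝ := 1 + (-dz0 A B (θ - 2 * Real.pi / 3) / (om ^ 2 - z0I A B (θ - 2 * Real.pi / 3))).im

theorem om_r : om.re = 1 / 2 := by
  have : om = Complex.exp (((Real.pi / 3 : ℝ) : ℂ) * Complex.I) := rfl
  rw [this, Complex.exp_ofReal_mul_I_re, Real.cos_pi_div_three]
theorem om_i : om.im = Real.sqrt 3 / 2 := by
  have : om = Complex.exp (((Real.pi / 3 : ℝ) : ℂ) * Complex.I) := rfl
  rw [this, Complex.exp_ofReal_mul_I_im, Real.sin_pi_div_three]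
theorem om_sq_re : (om ^ 2).re = -(1 / 2) := by
  rw [om_sq, Complex.sub_re, om_r, Complex.one_re]; norm_num
theorem om_sq_im : (om ^ 2).im = Real.sqrt 3 / 2 := by
  rw [om_sq, Complex.sub_im, om_i, Complex.one_im]; ring

variable {A B}

theorem z0_le (h0 : 0 ≤ A) (h : A + 2 * ‖B‖ ≤ 1 / 4) (t : ℝ) : ‖z0I A B t‖ ≤ 1 / 4 := by
  have := norm_z0I A B t
  rw [abs_of_nonneg h0] at this
  have := norm_nonneg B
  linarith

theorem slit1 (h0 : 0 ≤ A) (h : A + 2 * ‖B‖ ≤ 1 / 4) (t : ℝ) : om + z0I A B t ∈ Complex.slitPlane := by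
  refine Or.inl ?_
  have h1 := z0_le h0 h t
  have h2 := (abs_le.1 (Complex.abs_re_le_norm (z0I A B t))).1
  rw [Complex.add_re, om_r]
  linarith

theorem slit2 (h0 : 0 ≤ A) (h : A + 2 * ‖B‖ ≤ 1 / 4) (t : ℝ) : om ^ 2 - z0I A B t ∈ Complex.slitPlane := by
  refine Or.inr ?_
  have h1 := z0_le h0 h t
  have h2 := (abs_le.1 (Complex.abs_im_le_norm (z0I A B t))).2
  have h3 : 1 ≤ Real.sqrt 3 := Real.one_le_sqrt.2 (by norm_num)
  have h4 : 0 < (om ^ 2 - z0I A B t).im := by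
    rw [Complex.sub_im, om_sq_im]
    linarith
  exact h4.ne'

theorem hasDerivAt_arg {F : ℝ → ℂ} {F' : ℂ} {x : ℝ} (h : HasDerivAt F F' x) (hs : F x ∈ Complex.slitPlane) :
    HasDerivAt (fun t => (F t).arg) (F' / F x).im x := by
  have h1 := h.clog_real hs
  have h2 := Complex.imCLM.hasFDerivAt.comp_hasDerivAt x h1
  have e : (fun t => (F t).arg) = Complex.imCLM ∘ fun t => Complex.log (F t) := by
    funext t
    show _ = (Complex.log (F t)).im
    rw [Complex.log_im]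
  rw [e]
  exact h2

theorem hasDerivAt_ph1 (h0 : 0 ≤ A) (h : A + 2 * ‖B‖ ≤ 1 / 4) (θ : ℝ) :
    HasDerivAt (PI c A B).ph1 (dph1 A B θ) θ := by
  have h1 : HasDerivAt (fun t => om + z0I A B t) (dz0 A B (θ - Real.pi / 3)) (θ - Real.pi / 3) :=
    (hasDerivAt_z0I A B _).const_add _
  have h2 := hasDerivAt_arg h1 (slit1 h0 h _)
  have h3 : HasDerivAt (fun s : ℝ => s - Real.pi / 3) 1 θ := (hasDerivAt_id θ).sub_const _
  have h4 := HasDerivAt.comp θ h2 h3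
  have h5 := h3.add h4
  refine HasDerivAt.congr_deriv h5 ?_
  unfold dph1
  rw [mul_one]

theorem hasDerivAt_ph2 (h0 : 0 ≤ A) (h : A + 2 * ‖B‖ ≤ 1 / 4) (θ : ℝ) :
    HasDerivAt (PI c A B).ph2 (dph2 A B θ) θ := by
  have h1 : HasDerivAt (fun t => om ^ 2 - z0I A B t) (-dz0 A B (θ - 2 * Real.pi / 3)) (θ - 2 * Real.pi / 3) :=
    (hasDerivAt_z0I A B _).const_sub _
  have h2 := hasDerivAt_arg h1 (slit2 h0 h _)
  have h3 : HasDerivAt (fun s : ℝ => s - 2 * Real.pi / 3) 1 θ := (hasDerivAt_id θ).sub_const _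
  have h4 := HasDerivAt.comp θ h2 h3
  have h5 := h3.add h4
  refine HasDerivAt.congr_deriv h5 ?_
  unfold dph2
  rw [mul_one]

theorem slit_ne {z : ℂ} (h : z ∈ Complex.slitPlane) : z ≠ 0 := Complex.slitPlane_ne_zero h

theorem continuous_dph1 (h0 : 0 ≤ A) (h : A + 2 * ‖B‖ ≤ 1 / 4) : Continuous (dph1 A B) := by
  have c1 := (continuous_dz0 A B).comp (continuous_id.sub (continuous_const (y := Real.pi / 3)))
  have c2 := (continuous_z0I A B).comp (continuous_id.sub (continuous_const (y := Real.pi / 3)))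
  exact continuous_const.add (Complex.continuous_im.comp (c1.div (continuous_const.add c2) fun t =>
    slit_ne (slit1 h0 h _)))

theorem continuous_dph2 (h0 : 0 ≤ A) (h : A + 2 * ‖B‖ ≤ 1 / 4) : Continuous (dph2 A B) := by
  have c1 := (continuous_dz0 A B).comp (continuous_id.sub (continuous_const (y := 2 * Real.pi / 3)))
  have c2 := (continuous_z0I A B).comp (continuous_id.sub (continuous_const (y := 2 * Real.pi / 3)))
  exact continuous_const.add (Complex.continuous_im.comp (c1.neg.div (continuous_const.sub c2) fun t =>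
    slit_ne (slit2 h0 h _)))

/-! ### the bounds -/

/-- the quotient, common form of the two edges -/
theorem quot {w x y : ℂ} {t : ℝ} (hw : ‖w‖ = 1) (hr : (w ^ 2).re = -(1 / 2)) {lam q : ℝ} (hl : 0 ≤ lam)
    (hl2 : lam ≤ 3 / 2) (hq : 0 ≤ q) (hq2 : 75 / 4 - 15 * lam + 7 * lam ^ 2 ≤ q ^ 2) (h0 : 0 ≤ A)
    (h : 0 ≤ lam - (3 - 2 * lam) * A - q * ‖B‖ - (3 - lam) * A ^ 2 - (9 - lam) * (A * ‖B‖)
      - (15 / 4 - lam / 4) * ‖B‖ ^ 2) (hx : x = w * dz0 A B t) (hy : y = 1 + w * z0I A B t) (hy0 : y ≠ 0) :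
    -lam ≤ (x / y).im := by
  set a : ℂ := w * (A * ee (-3 * t)) with ha
  set b : ℂ := w * (B * ee (-5 * t)) with hb
  have na : ‖a‖ = A := by
    rw [ha, norm_mul, norm_mul, norm_ee, hw, Complex.norm_real, Real.norm_eq_abs, abs_of_nonneg h0]; ring
  have nb : ‖b‖ = ‖B‖ := by
    rw [hb, norm_mul, norm_mul, norm_ee, hw]; ring
  have hww : w * (starRingEnd ℂ) w = 1 := by
    rw [Complex.mul_conj, Complex.normSq_eq_norm_sq, hw]; norm_num
  have hcb : w ^ 2 * (starRingEnd ℂ) b = w * ((starRingEnd ℂ) B * ee (5 * t)) := by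
    have e5 : (starRingEnd ℂ) (ee (-5 * t)) = ee (5 * t) := by
      rw [conj_ee]; congr 1; ring
    rw [hb, map_mul, map_mul, e5]
    linear_combination (w * ((starRingEnd ℂ) B * ee (5 * t))) * hww
  have hk : ‖w ^ 2‖ = 1 := by rw [norm_pow, hw, one_pow]
  have hcore := core (a := a) (b := b) (κ := w ^ 2) hk hr hl hl2 hq hq2 (by rw [na, nb]; exact h)
  rw [hcb] at hcore
  set N := 3 * a + 5 * b + 5 / 2 * (w * ((starRingEnd ℂ) B * ee (5 * t))) with hN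
  have hyD : y = 1 + (a + b - 1 / 2 * (w * ((starRingEnd ℂ) B * ee (5 * t)))) := by
    have e := zB_eq A B t
    rw [hy]
    unfold z0I
    rw [e, ha, hb]
    ring
  have hxN : x = -Complex.I * N := by
    rw [hx, hN, ha, hb]
    unfold dz0
    ring
  rw [← hyD] at hcore
  have hyn : 0 < ‖y‖ ^ 2 := by
    have := norm_pos_iff.2 hy0
    positivity
  have e1 : (x / y).im = -((N * (starRingEnd ℂ) y).re / ‖y‖ ^ 2) := by
    rw [hxN, Complex.div_im, ← Complex.normSq_eq_norm_sq]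
    simp only [Complex.mul_re, Complex.mul_im, Complex.neg_re, Complex.neg_im, Complex.I_re, Complex.I_im,
      Complex.conj_re, Complex.conj_im]
    ring
  rw [e1]
  have : (N * (starRingEnd ℂ) y).re / ‖y‖ ^ 2 ≤ lam := by rw [div_le_iff₀ hyn]; exact hcore
  linarith

theorem om_conj_norm : ‖(starRingEnd ℂ) om‖ = 1 := by rw [Complex.norm_conj, om_norm]

theorem om_conj_sq_re : ((starRingEnd ℂ) om ^ 2).re = -(1 / 2) := by
  rw [← map_pow, Complex.conj_re, om_sq_re]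

theorem om_ne : om ≠ 0 := by
  intro h0
  have := om_norm
  rw [h0] at this
  simp at this

theorem dph1_gen {lam q : ℝ} (hl : 0 ≤ lam) (hl2 : lam ≤ 3 / 2) (hq : 0 ≤ q)
    (hq2 : 75 / 4 - 15 * lam + 7 * lam ^ 2 ≤ q ^ 2) (h0 : 0 ≤ A) (h4 : A + 2 * ‖B‖ ≤ 1 / 4)
    (h : 0 ≤ lam - (3 - 2 * lam) * A - q * ‖B‖ - (3 - lam) * A ^ 2 - (9 - lam) * (A * ‖B‖)
      - (15 / 4 - lam / 4) * ‖B‖ ^ 2) (θ : ℝ) : 1 - lam ≤ dph1 A B θ := by
  set t := θ - Real.pi / 3 with ht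
  have hne := slit_ne (slit1 (A := A) (B := B) h0 h4 t)
  have e := e1_eq A B t
  have hy0 : 1 + ζ1 A B t ≠ 0 := by
    intro h1
    rw [e, h1, mul_zero] at hne
    exact hne rfl
  have hq := quot (A := A) (B := B) (x := (starRingEnd ℂ) om * dz0 A B t) (y := 1 + ζ1 A B t) (t := t) om_conj_norm
    om_conj_sq_re hl hl2 hq hq2 h0 h rfl rfl hy0
  have e2 : dz0 A B t / (om + z0I A B t) = (starRingEnd ℂ) om * dz0 A B t / (1 + ζ1 A B t) := by
    rw [e, div_eq_div_iff (mul_ne_zero om_ne hy0) hy0]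
    linear_combination (-(dz0 A B t * (1 + ζ1 A B t))) * om_mul
  unfold dph1
  rw [← ht, e2]
  linarith

theorem dph2_gen {lam q : ℝ} (hl : 0 ≤ lam) (hl2 : lam ≤ 3 / 2) (hq : 0 ≤ q)
    (hq2 : 75 / 4 - 15 * lam + 7 * lam ^ 2 ≤ q ^ 2) (h0 : 0 ≤ A) (h4 : A + 2 * ‖B‖ ≤ 1 / 4)
    (h : 0 ≤ lam - (3 - 2 * lam) * A - q * ‖B‖ - (3 - lam) * A ^ 2 - (9 - lam) * (A * ‖B‖)
      - (15 / 4 - lam / 4) * ‖B‖ ^ 2) (θ : ℝ) : 1 - lam ≤ dph2 A B θ := by
  set t := θ - 2 * Real.pi / 3 with ht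
  have hne := slit_ne (slit2 (A := A) (B := B) h0 h4 t)
  have e := e2_eq A B t
  have hy0 : 1 + ζ2 A B t ≠ 0 := by
    intro h1
    rw [e, h1, mul_zero] at hne
    exact hne rfl
  have hq := quot (A := A) (B := B) (x := om * dz0 A B t) (y := 1 + ζ2 A B t) (t := t) om_norm
    om_sq_re hl hl2 hq hq2 h0 h rfl rfl hy0
  have e2 : -dz0 A B t / (om ^ 2 - z0I A B t) = om * dz0 A B t / (1 + ζ2 A B t) := by
    rw [e, div_eq_div_iff (mul_ne_zero (pow_ne_zero 2 om_ne) hy0) hy0]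
    linear_combination (-(dz0 A B t * (1 + ζ2 A B t))) * om_cube
  unfold dph2
  rw [← ht, e2]
  linarith

/-- the condition at the radius `1/4` -/
theorem cond4 {x y : ℝ} (hx : 0 ≤ x) (hy : 0 ≤ y) (h : x + 2 * y ≤ 1 / 4) :
    0 ≤ 3 / 5 - (3 - 2 * (3 / 5)) * x - 3503 / 1000 * y - (3 - 3 / 5) * x ^ 2 - (9 - 3 / 5) * (x * y)
      - (15 / 4 - 3 / 5 / 4) * y ^ 2 := by
  nlinarith [mul_nonneg hx hy, mul_nonneg hx (sub_nonneg.2 h), mul_nonneg hy (sub_nonneg.2 h), sq_nonneg y]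

/-- the condition at the radius `3/20` -/
theorem cond20 {x y : ℝ} (hx : 0 ≤ x) (hy : 0 ≤ y) (h : x + 8 / 5 * y ≤ 3 / 20) :
    0 ≤ 2 / 5 - (3 - 2 * (2 / 5)) * x - 149 / 40 * y - (3 - 2 / 5) * x ^ 2 - (9 - 2 / 5) * (x * y)
      - (15 / 4 - 2 / 5 / 4) * y ^ 2 := by
  have h1 := mul_nonneg hx (sub_nonneg.2 h)
  have h2 := mul_nonneg hy (sub_nonneg.2 h)
  nlinarith [sq_nonneg (y - 9 / 250), sq_nonneg (3 / 20 - (x + 8 / 5 * y))]

/-- SLOPES, radius `1/4` -/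
theorem dph1_ge (h0 : 0 ≤ A) (h4 : A + 2 * ‖B‖ ≤ 1 / 4) (θ : ℝ) : 2 / 5 ≤ dph1 A B θ := by
  have := dph1_gen (lam := 3 / 5) (q := 3503 / 1000) (by norm_num) (by norm_num) (by norm_num) (by norm_num) h0 h4
    (cond4 h0 (norm_nonneg B) h4) θ
  linarith
theorem dph2_ge (h0 : 0 ≤ A) (h4 : A + 2 * ‖B‖ ≤ 1 / 4) (θ : ℝ) : 2 / 5 ≤ dph2 A B θ := by
  have := dph2_gen (lam := 3 / 5) (q := 3503 / 1000) (by norm_num) (by norm_num) (by norm_num) (by norm_num) h0 h4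
    (cond4 h0 (norm_nonneg B) h4) θ
  linarith

/-- SLOPES, radius `3/20` -/
theorem dph1_ge20 (h0 : 0 ≤ A) (h4 : A + 8 / 5 * ‖B‖ ≤ 3 / 20) (θ : ℝ) : 3 / 5 ≤ dph1 A B θ := by
  have := dph1_gen (lam := 2 / 5) (q := 149 / 40) (by norm_num) (by norm_num) (by norm_num) (by norm_num) h0
    (by linarith) (cond20 h0 (norm_nonneg B) h4) θ
  linarith
theorem dph2_ge20 (h0 : 0 ≤ A) (h4 : A + 8 / 5 * ‖B‖ ≤ 3 / 20) (θ : ℝ) : 3 / 5 ≤ dph2 A B θ := by
  have := dph2_gen (lam := 2 / 5) (q := 149 / 40) (by norm_num) (by norm_num) (by norm_num) (by norm_num) h0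
    (by linarith) (cond20 h0 (norm_nonneg B) h4) θ
  linarith

/-- upper bound of the slopes -/
theorem dz0_le (h0 : 0 ≤ A) (h4 : A + 2 * ‖B‖ ≤ 1 / 4) (t : ℝ) : ‖dz0 A B t‖ ≤ 15 / 16 := by
  unfold dz0
  rw [norm_mul, norm_neg, Complex.norm_I, one_mul]
  refine (norm_add_le _ _).trans ((add_le_add (norm_add_le _ _) le_rfl).trans ?_)
  rw [norm_mul, norm_mul, norm_mul, norm_mul, norm_mul, norm_mul, norm_ee, norm_ee, norm_ee, Complex.norm_conj,
    Complex.norm_real, Real.norm_eq_abs, abs_of_nonneg h0]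
  have := norm_nonneg B
  norm_num
  linarith

theorem im_div_le {x y : ℂ} {r s : ℝ} (hx : ‖x‖ ≤ r) (hy : s ≤ ‖y‖) (hs : 0 < s) : (x / y).im ≤ r / s := by
  refine (le_abs_self _).trans ((Complex.abs_im_le_norm _).trans ?_)
  rw [norm_div]
  exact div_le_div₀ ((norm_nonneg _).trans hx) hx hs hy

theorem dph1_le (h0 : 0 ≤ A) (h4 : A + 2 * ‖B‖ ≤ 1 / 4) (θ : ℝ) : dph1 A B θ ≤ 9 / 4 := by
  have h1 := z0_le h0 h4 (θ - Real.pi / 3)
  have h2 : 3 / 4 ≤ ‖om + z0I A B (θ - Real.pi / 3)‖ := by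
    have := norm_sub_norm_le om (-z0I A B (θ - Real.pi / 3))
    rw [sub_neg_eq_add, norm_neg, om_norm] at this
    linarith
  have h3 := im_div_le (dz0_le h0 h4 (θ - Real.pi / 3)) h2 (by norm_num)
  unfold dph1
  norm_num at h3
  linarith

theorem dph2_le (h0 : 0 ≤ A) (h4 : A + 2 * ‖B‖ ≤ 1 / 4) (θ : ℝ) : dph2 A B θ ≤ 9 / 4 := by
  have h1 := z0_le h0 h4 (θ - 2 * Real.pi / 3)
  have h2 : 3 / 4 ≤ ‖om ^ 2 - z0I A B (θ - 2 * Real.pi / 3)‖ := by
    have := norm_sub_norm_le (om ^ 2) (z0I A B (θ - 2 * Real.pi / 3))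
    rw [norm_pow, om_norm, one_pow] at this
    linarith
  have h3 := im_div_le (x := -dz0 A B (θ - 2 * Real.pi / 3)) (r := 15 / 16) (by rw [norm_neg]; exact dz0_le h0 h4 _)
    h2 (by norm_num)
  unfold dph2
  norm_num at h3
  linarith

/-! ### the period and the density weights -/

theorem z0I_per (t : ℝ) : z0I A B (t + 2 * Real.pi) = z0I A B t := by
  have e : ∀ n : ℤ, ee ((n : ℝ) * (t + 2 * Real.pi)) = ee ((n : ℝ) * t) := by
    intro n
    have h1 : ((n : ℝ) * (t + 2 * Real.pi)) = (n : ℝ) * t + n * (2 * Real.pi) := by ring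
    rw [h1, ee_add]
    have h2 : ee ((n : ℝ) * (2 * Real.pi)) = 1 := by
      unfold ee
      have : (((n : ℝ) * (2 * Real.pi) : ℝ) : ℂ) * Complex.I = (n : ℂ) * (2 * Real.pi * Complex.I) := by
        push_cast; ring
      rw [this, Complex.exp_int_mul_two_pi_mul_I]
    rw [h2, mul_one]
  have e3 := e (-3)
  have e5 := e (-5)
  push_cast at e3 e5
  unfold z0I zB
  rw [e3, e5]

theorem ph1_per (θ : ℝ) : (PI c A B).ph1 (θ + 2 * Real.pi) = (PI c A B).ph1 θ + 2 * Real.pi := by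
  show θ + 2 * Real.pi - Real.pi / 3 + (om + z0I A B (θ + 2 * Real.pi - Real.pi / 3)).arg =
    θ - Real.pi / 3 + (om + z0I A B (θ - Real.pi / 3)).arg + 2 * Real.pi
  rw [show θ + 2 * Real.pi - Real.pi / 3 = θ - Real.pi / 3 + 2 * Real.pi by ring, z0I_per]
  ring

theorem ph2_per (θ : ℝ) : (PI c A B).ph2 (θ + 2 * Real.pi) = (PI c A B).ph2 θ + 2 * Real.pi := by
  show θ + 2 * Real.pi - 2 * Real.pi / 3 + (om ^ 2 - z0I A B (θ + 2 * Real.pi - 2 * Real.pi / 3)).arg =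
    θ - 2 * Real.pi / 3 + (om ^ 2 - z0I A B (θ - 2 * Real.pi / 3)).arg + 2 * Real.pi
  rw [show θ + 2 * Real.pi - 2 * Real.pi / 3 = θ - 2 * Real.pi / 3 + 2 * Real.pi by ring, z0I_per]
  ring

theorem wok_gen {s : ℝ} (h0 : 0 ≤ A) (h4 : A + 2 * ‖B‖ ≤ 1 / 4) (hs : 0 < s) (g1 : ∀ θ, s ≤ dph1 A B θ)
    (g2 : ∀ θ, s ≤ dph2 A B θ) :
    WOK (PI c A B).ph1 (PI c A B).ph2 (fun θ => 2 / dph1 A B θ) (fun θ => 2 / dph2 A B θ) (8 / 9) (2 / s) where
  n1 := (continuous_iff_continuousAt.2 fun x => (hasDerivAt_ph1 c h0 h4 x).continuousAt).measurable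
  n2 := (continuous_iff_continuousAt.2 fun x => (hasDerivAt_ph2 c h0 h4 x).continuousAt).measurable
  k1 := measurable_const.div (continuous_dph1 h0 h4).measurable
  k2 := measurable_const.div (continuous_dph2 h0 h4).measurable
  pos := by norm_num
  l1 := fun t => by
    have h1 := dph1_le h0 h4 t
    have h2 := g1 t
    rw [div_le_div_iff₀ (by norm_num) (hs.trans_le h2)]
    linarith
  u1 := fun t => div_le_div_of_nonneg_left (by norm_num) hs (g1 t)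
  l2 := fun t => by
    have h1 := dph2_le h0 h4 t
    have h2 := g2 t
    rw [div_le_div_iff₀ (by norm_num) (hs.trans_le h2)]
    linarith
  u2 := fun t => div_le_div_of_nonneg_left (by norm_num) hs (g2 t)
  dens := densW_slope (fun x => hasDerivAt_ph1 c h0 h4 x) (fun x => hasDerivAt_ph2 c h0 h4 x) (continuous_dph1 h0 h4)
    (continuous_dph2 h0 h4) (fun x => hs.trans_le (g1 x)) (fun x => hs.trans_le (g2 x)) (ph1_per c) (ph2_per c)

/-- THE DENSITY WEIGHTS, radius `1/4` -/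
theorem wok4 (h0 : 0 ≤ A) (h4 : A + 2 * ‖B‖ ≤ 1 / 4) :
    WOK (PI c A B).ph1 (PI c A B).ph2 (fun θ => 2 / dph1 A B θ) (fun θ => 2 / dph2 A B θ) (8 / 9) 5 := by
  have := wok_gen c h0 h4 (by norm_num : (0 : ℝ) < 2 / 5) (dph1_ge h0 h4) (dph2_ge h0 h4)
  norm_num at this
  exact this

/-- THE DENSITY WEIGHTS, radius `3/20` -/
theorem wok20 (h0 : 0 ≤ A) (h4 : A + 8 / 5 * ‖B‖ ≤ 3 / 20) :
    WOK (PI c A B).ph1 (PI c A B).ph2 (fun θ => 2 / dph1 A B θ) (fun θ => 2 / dph2 A B θ) (8 / 9) (10 / 3) := by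
  have := wok_gen c h0 (by linarith) (by norm_num : (0 : ℝ) < 3 / 5) (dph1_ge20 h0 h4) (dph2_ge20 h0 h4)
  norm_num at this
  exact this

end Pool.Agent.Helper26.SH
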