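import Pool.Agent.Helper33.SH.GFun

/-!
# Project RC, SHARP, zone I: comparison of polynomials on `A + (8/5) |B| ≤ 1/12` (framework)
-/

set_option autoImplicit false

namespace Pool.Agent.Helper26.SH

open Helper27.SH (P2 evR okL evR_nonneg)
open Pool.Agent.Helper33.GM (evR_nil evR_cons evR_append mul1 evR_mul1 mulR evR_mulR coR dlR evR_dl sum_range_list)

/-- `(A + 8/5 y)^n` -/
def powY (n : ℕ) : P2 := (List.range (n + 1)).map fun j => (n - j, j, (n.choose j : ℚ) * (8 / 5) ^ j)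

theorem evR_powY (A y : ℝ) (n : ℕ) : evR A y (powY n) = (A + 8 / 5 * y) ^ n := by
  unfold powY evR
  rw [List.map_map, sum_range_list, add_comm A, add_pow]
  refine Finset.sum_congr rfl fun j _ => ?_
  simp only [Function.comp]
  push_cast
  rw [mul_pow]
  ring

/-- all coefficients of the collected polynomial are at most `0` -/
def leD : ℕ → P2 → Bool
  | _, [] => true
  | 0, _ :: _ => false
  | n + 1, m :: p => decide (coR m.1 m.2.1 (m :: p) ≤ 0) && leD n (dlR m.1 m.2.1 (m :: p))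

theorem leD_ok {A y : ℝ} (hA : 0 ≤ A) (hy : 0 ≤ y) : ∀ (n : ℕ) (p : P2), leD n p = true → evR A y p ≤ 0
  | _, [], _ => by rw [evR_nil]
  | 0, _ :: _, h => by simp [leD] at h
  | n + 1, m :: p, h => by
    unfold leD at h
    rw [Bool.and_eq_true, decide_eq_true_eq] at h
    rw [evR_dl A y m.1 m.2.1 (m :: p)]
    have h1 : (coR m.1 m.2.1 (m :: p) : ℝ) ≤ 0 := by exact_mod_cast h.1
    have h2 := leD_ok hA hy n _ h.2
    have h3 : 0 ≤ A ^ m.1 * y ^ m.2.1 := by positivity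
    nlinarith

/-- comparison, coefficient by coefficient -/
def cmpR (p q : P2) : Bool := leD 200 (p ++ mul1 0 0 (-1) q)

theorem cmpR_ok {A y : ℝ} (hA : 0 ≤ A) (hy : 0 ≤ y) {p q : P2} (h : cmpR p q = true) : evR A y p ≤ evR A y q := by
  have h1 := leD_ok hA hy _ _ h
  rw [evR_append, evR_mul1] at h1
  push_cast at h1
  linarith

/-- reduction of a row to degree 4 on the ball of radius `1/12` -/
def chkS (R Q0 Q2 Q4 Q6 Q8 S : P2) : Bool :=
  cmpR R (Q0 ++ (mulR Q2 (powY 2) ++ (mulR Q4 (powY 4) ++ (mulR Q6 (powY 6) ++ mulR Q8 (powY 8)))))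
  && cmpR (Q0 ++ (mul1 0 0 (1 / 144) Q2 ++ (mul1 0 0 (1 / 20736) Q4 ++ (mul1 0 0 (1 / 2985984) Q6
    ++ mul1 0 0 (1 / 429981696) Q8)))) S
  && okL 0 Q2 && okL 0 Q4 && okL 0 Q6 && okL 0 Q8

theorem chkS_ok {R Q0 Q2 Q4 Q6 Q8 S : P2} (h : chkS R Q0 Q2 Q4 Q6 Q8 S = true) {A y : ℝ} (hA : 0 ≤ A) (hy : 0 ≤ y)
    (hX : A + 8 / 5 * y ≤ 1 / 12) : evR A y R ≤ evR A y S := by
  unfold chkS at h
  simp only [Bool.and_eq_true] at h
  obtain ⟨⟨⟨⟨⟨h1, h2⟩, q2⟩, q4⟩, q6⟩, q8⟩ := h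
  refine (cmpR_ok hA hy h1).trans (le_trans ?_ (cmpR_ok hA hy h2))
  simp only [evR_append, evR_mul1, evR_mulR, evR_powY, pow_zero, mul_one]
  have e2 := evR_nonneg q2 hA hy
  have e4 := evR_nonneg q4 hA hy
  have e6 := evR_nonneg q6 hA hy
  have e8 := evR_nonneg q8 hA hy
  have hX0 : 0 ≤ A + 8 / 5 * y := by positivity
  have p2 := pow_le_pow_left₀ hX0 hX 2
  have p4 := pow_le_pow_left₀ hX0 hX 4
  have p6 := pow_le_pow_left₀ hX0 hX 6
  have p8 := pow_le_pow_left₀ hX0 hX 8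
  norm_num at p2 p4 p6 p8
  have m2 := mul_le_mul_of_nonneg_left p2 e2
  have m4 := mul_le_mul_of_nonneg_left p4 e4
  have m6 := mul_le_mul_of_nonneg_left p6 e6
  have m8 := mul_le_mul_of_nonneg_left p8 e8
  push_cast
  linarith

/-- weighted sum of squares -/
def sqs : List (ℚ × P2) → P2
  | [] => []
  | x :: L => mul1 0 0 x.1 (mulR x.2 x.2) ++ sqs L

theorem evR_sqs (A y : ℝ) : ∀ L : List (ℚ × P2),
    evR A y (sqs L) = (L.map fun x => (x.1 : ℝ) * evR A y x.2 ^ 2).sum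
  | [] => by simp [sqs, evR]
  | x :: L => by
    rw [sqs, evR_append, evR_mul1, evR_mulR, evR_sqs A y L, List.map_cons, List.sum_cons]
    ring

/-- the final comparison, after multiplication by `X^8` -/
def chkP (L : List (ℚ × P2)) (P : P2) : Bool := cmpR (mulR (sqs L) (powY 8)) (mulR (mulR P P) (powY 8))

theorem chkP_ok {L : List (ℚ × P2)} {P : P2} (h : chkP L P = true) {A y : ℝ} (hA : 0 ≤ A) (hy : 0 ≤ y)
    (hX : 0 < A + 8 / 5 * y) : (L.map fun x => (x.1 : ℝ) * evR A y x.2 ^ 2).sum ≤ evR A y P ^ 2 := by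
  have h1 := cmpR_ok hA hy h
  rw [evR_mulR, evR_mulR, evR_mulR, evR_powY, evR_sqs] at h1
  have h2 := le_of_mul_le_mul_right h1 (pow_pos hX 8)
  rw [pow_two]
  exact h2

/-- rows and tail -/
theorem sum_split {f : ℕ → ℝ} (hf : ∀ k, 0 ≤ f k) {S : ℝ} (hS : ∀ n, ∑ k ∈ Finset.range n, f (10 + k) ≤ S) (n : ℕ) :
    ∑ k ∈ Finset.range n, f k ≤ f 0 + (f 1 + (f 2 + (f 3 + (f 4 + (f 5 + (f 6 + (f 7 + (f 8 + (f 9 + S))))))))) := by
  have h1 : ∑ k ∈ Finset.range n, f k ≤ ∑ k ∈ Finset.range (10 + n), f k :=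
    Finset.sum_le_sum_of_subset_of_nonneg (by
      intro k hk
      rw [Finset.mem_range] at *
      omega) (fun k _ _ => hf k)
  rw [Finset.sum_range_add] at h1
  have h2 := hS n
  simp only [Finset.sum_range_succ, Finset.sum_range_zero] at h1
  linarith

end Pool.Agent.Helper26.SH
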