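import Pool.Agent.Helper26.SH.TailF
import Pool.Agent.Helper26.SH.ER12
import Pool.Agent.Helper26.SH.ER30
import Pool.Agent.Helper33.SH.ET1
import Pool.Agent.Helper33.SH.ET2
import Pool.Agent.Helper33.SH.ET3
import Pool.Agent.Helper33.SH.ET4

/-!
# Project RC, SHARP, zone I: the moments `e_l`, `l = 12, .., 30`, homogeneous bounds of degree 4 (generated)
-/

set_option autoImplicit false

namespace Pool.Agent.Helper26.SH

open Pool.Agent.Helper27.SH (P2 evR)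
open Pool.Agent.Helper33.SH (PI ZC z0I b0I)
open Pool.Agent.Helper33.ET (R14 R16 R18 R20 R22 R24 R26 R28 e14_le e16_le e18_le e20_le e22_le e24_le e26_le e28_le)

variable {A : ℝ} {B : ℂ}

theorem h16 (hX : A + 8 / 5 * ‖B‖ ≤ 1 / 12) : A + 3 / 2 * ‖B‖ ≤ 1 / 6 := by
  have := norm_nonneg B
  linarith

def S12 : P2 := [(4, 0, 11522 / 125), (3, 1, 841 / 500), (2, 2, 253 / 50), (1, 3, 17887 / 100), (0, 4, 241 / 1000)]
theorem s12_ok : chkS R12b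
    [(4, 0, 8643 / 100), (1, 3, 1747 / 10)]
    [(4, 0, 3857 / 5), (2, 2, 294), (1, 3, 1802 / 5)]
    [(4, 0, 2480), (2, 2, 2569), (1, 3, 3577 / 10)]
    [(4, 0, 803300), (3, 1, 5022000), (2, 2, 8640000), (1, 3, 4908000), (0, 4, 719500)]
    [] S12 = true := by decide +kernel
theorem s12_le (c : ZC) (hA : 0 ≤ A) (hX : A + 8 / 5 * ‖B‖ ≤ 1 / 12) :
    ‖(PI c A B).eA (b0I A B) (z0I A B) 5‖ ≤ evR A ‖B‖ S12 :=
  (e12b_le c hA (h16 hX)).trans (chkS_ok s12_ok hA (norm_nonneg B) hX)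

def S14 : P2 := [(4, 0, 28 / 25), (3, 1, 7231 / 200), (2, 2, 10333 / 1000), (1, 3, 8883 / 1000), (0, 4, 181 / 200)]
theorem s14_ok : chkS R14
    [(3, 1, 1221 / 100)]
    [(3, 1, 2607), (1, 3, 425)]
    [(4, 0, 3391), (2, 2, 4676)]
    [(4, 0, 2855000), (3, 1, 17440000), (2, 2, 30180000), (1, 3, 17710000), (0, 4, 2702000)]
    [] S14 = true := by decide +kernel
theorem s14_le (c : ZC) (hA : 0 ≤ A) (hX : A + 8 / 5 * ‖B‖ ≤ 1 / 12) :
    ‖(PI c A B).eA (b0I A B) (z0I A B) 6‖ ≤ evR A ‖B‖ S14 :=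
  (e14_le c hA (h16 hX)).trans (chkS_ok s14_ok hA (norm_nonneg B) hX)

def S16 : P2 := [(4, 0, 367 / 125), (3, 1, 28743 / 1000), (2, 2, 101891 / 100), (1, 3, 18569 / 1000), (0, 4, 2833 / 1000)]
theorem s16_ok : chkS R16
    [(2, 2, 4841 / 5)]
    [(3, 1, 1584), (2, 2, 2939)]
    [(3, 1, 5692), (2, 2, 1819 / 10), (1, 3, 9620)]
    [(4, 0, 8766000), (3, 1, 52160000), (2, 2, 90430000), (1, 3, 54060000), (0, 4, 8458000)]
    [] S16 = true := by decide +kernel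
theorem s16_le (c : ZC) (hA : 0 ≤ A) (hX : A + 8 / 5 * ‖B‖ ≤ 1 / 12) :
    ‖(PI c A B).eA (b0I A B) (z0I A B) 7‖ ≤ evR A ‖B‖ S16 :=
  (e16_le c hA (h16 hX)).trans (chkS_ok s16_ok hA (norm_nonneg B) hX)

def S18 : P2 := [(4, 0, 1472 / 125), (3, 1, 4593 / 100), (2, 2, 3478 / 25), (1, 3, 122949 / 100), (0, 4, 7737 / 1000)]
theorem s18_ok : chkS R18
    [(1, 3, 1156)]
    [(4, 0, 2656 / 5), (2, 2, 8674), (1, 3, 3564)]
    [(4, 0, 4764), (3, 1, 7258), (2, 2, 5785), (1, 3, 17480)]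
    [(4, 0, 23460000), (3, 1, 136100000), (2, 2, 234700000), (1, 3, 143000000), (0, 4, 23100000)]
    [] S18 = true := by decide +kernel
theorem s18_le (c : ZC) (hA : 0 ≤ A) (hX : A + 8 / 5 * ‖B‖ ≤ 1 / 12) :
    ‖(PI c A B).eA (b0I A B) (z0I A B) 8‖ ≤ evR A ‖B‖ S18 :=
  (e18_le c hA (h16 hX)).trans (chkS_ok s18_ok hA (norm_nonneg B) hX)

def S20 : P2 := [(4, 0, 2554 / 125), (3, 1, 12253 / 100), (2, 2, 10111 / 50), (1, 3, 9013 / 50), (0, 4, 19807 / 50)]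
theorem s20_ok : chkS R20
    [(0, 4, 1851 / 5)]
    [(3, 1, 7579 / 10), (1, 3, 7786), (0, 4, 3387 / 5)]
    [(4, 0, 5189), (3, 1, 25220), (1, 3, 12510), (0, 4, 6424)]
    [(4, 0, 60260000), (3, 1, 346500000), (2, 2, 603800000), (1, 3, 375000000), (0, 4, 62470000)]
    [] S20 = true := by decide +kernel
theorem s20_le (c : ZC) (hA : 0 ≤ A) (hX : A + 8 / 5 * ‖B‖ ≤ 1 / 12) :
    ‖(PI c A B).eA (b0I A B) (z0I A B) 9‖ ≤ evR A ‖B‖ S20 :=
  (e20_le c hA (h16 hX)).trans (chkS_ok s20_ok hA (norm_nonneg B) hX)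

def S22 : P2 := [(4, 0, 2057 / 1000), (3, 1, 14509 / 1000), (2, 2, 2402 / 125), (1, 3, 29747 / 1000), (0, 4, 211 / 125)]
theorem s22_ok : chkS R22
    []
    [(3, 1, 1767 / 10), (1, 3, 2687)]
    [(3, 1, 32000), (2, 2, 4555), (1, 3, 8283 / 10)]
    [(3, 1, 460700), (0, 4, 24750)]
    [(4, 0, 884400000), (3, 1, 4981000000), (2, 2, 8168000000), (1, 3, 4750000000), (0, 4, 722100000)] S22 = true := by decide +kernel
theorem s22_le (c : ZC) (hA : 0 ≤ A) (hX : A + 8 / 5 * ‖B‖ ≤ 1 / 12) :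
    ‖(PI c A B).eA (b0I A B) (z0I A B) 10‖ ≤ evR A ‖B‖ S22 :=
  (e22_le c hA (h16 hX)).trans (chkS_ok s22_ok hA (norm_nonneg B) hX)

def S24 : P2 := [(4, 0, 2931 / 500), (3, 1, 1387 / 50), (2, 2, 21617 / 250), (1, 3, 533 / 20), (0, 4, 2077 / 500)]
theorem s24_ok : chkS R24
    []
    [(2, 2, 5544)]
    [(4, 0, 16450), (3, 1, 2767), (2, 2, 54260)]
    [(4, 0, 181800), (1, 3, 337900)]
    [(4, 0, 2153000000), (3, 1, 11870000000), (2, 2, 19500000000), (1, 3, 11410000000), (0, 4, 1786000000)] S24 = true := by decide +kernel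
theorem s24_le (c : ZC) (hA : 0 ≤ A) (hX : A + 8 / 5 * ‖B‖ ≤ 1 / 12) :
    ‖(PI c A B).eA (b0I A B) (z0I A B) 11‖ ≤ evR A ‖B‖ S24 :=
  (e24_le c hA (h16 hX)).trans (chkS_ok s24_ok hA (norm_nonneg B) hX)

def S26 : P2 := [(4, 0, 1549 / 125), (3, 1, 70169 / 1000), (2, 2, 10889 / 100), (1, 3, 3029 / 20), (0, 4, 5189 / 500)]
theorem s26_ok : chkS R26
    []
    [(1, 3, 12140)]
    [(4, 0, 6329), (3, 1, 86500), (1, 3, 39910)]
    [(4, 0, 276700), (3, 1, 53540), (1, 3, 569100)]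
    [(4, 0, 5157000000), (3, 1, 28370000000), (2, 2, 46820000000), (1, 3, 27960000000), (0, 4, 4462000000)] S26 = true := by decide +kernel
theorem s26_le (c : ZC) (hA : 0 ≤ A) (hX : A + 8 / 5 * ‖B‖ ≤ 1 / 12) :
    ‖(PI c A B).eA (b0I A B) (z0I A B) 12‖ ≤ evR A ‖B‖ S26 :=
  (e26_le c hA (h16 hX)).trans (chkS_ok s26_ok hA (norm_nonneg B) hX)

def S28 : P2 := [(4, 0, 13431 / 500), (3, 1, 14801 / 100), (2, 2, 12249 / 50), (1, 3, 21521 / 100), (0, 4, 23561 / 1000)]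
theorem s28_ok : chkS R28
    []
    [(1, 3, 9743)]
    [(3, 1, 24880), (2, 2, 78880), (1, 3, 38590)]
    [(3, 1, 1358000), (0, 4, 281400)]
    [(4, 0, 11550000000), (3, 1, 62930000000), (2, 2, 103700000000), (1, 3, 62640000000), (0, 4, 10090000000)] S28 = true := by decide +kernel
theorem s28_le (c : ZC) (hA : 0 ≤ A) (hX : A + 8 / 5 * ‖B‖ ≤ 1 / 12) :
    ‖(PI c A B).eA (b0I A B) (z0I A B) 13‖ ≤ evR A ‖B‖ S28 :=
  (e28_le c hA (h16 hX)).trans (chkS_ok s28_ok hA (norm_nonneg B) hX)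

def S30 : P2 := [(4, 0, 2789 / 50), (3, 1, 29919 / 100), (2, 2, 49387 / 100), (1, 3, 7496 / 25), (0, 4, 63593 / 1000)]
theorem s30_ok : chkS R30
    []
    [(0, 4, 1983)]
    [(2, 2, 39310), (1, 3, 25170), (0, 4, 13930)]
    [(4, 0, 97960), (3, 1, 311100), (2, 2, 253400), (0, 4, 232400)]
    [(4, 0, 23970000000), (3, 1, 128600000000), (2, 2, 211500000000), (1, 3, 128400000000), (0, 4, 21100000000)] S30 = true := by decide +kernel
theorem s30_le (c : ZC) (hA : 0 ≤ A) (hX : A + 8 / 5 * ‖B‖ ≤ 1 / 12) :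
    ‖(PI c A B).eA (b0I A B) (z0I A B) 14‖ ≤ evR A ‖B‖ S30 :=
  (e30_le c hA (h16 hX)).trans (chkS_ok s30_ok hA (norm_nonneg B) hX)

end Pool.Agent.Helper26.SH
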