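import Pool.Agent.Helper26.SH.TailR
import Pool.Agent.Helper26.SH.ContR
import Pool.Agent.Helper35.SH.VL
import Pool.Agent.Helper27.SH.Fin

/-!
# Project RC, SHARP, zone I: the tail `l ≥ 12` at the base, `A + (8/5) |B| ≤ 1/12`

`TT`: `∑_{l ≥ 12} |e_l|² / (l² - 1) ≤ TT(A, |B|)²`. `TG`: the same for the rows `q_l` of the linear part.
`gTL`, `tailL_GEK`: the tail of the linear part in the format of the budget.
-/

set_option autoImplicit false

open MeasureTheory Set Filter Topology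

namespace Pool.Agent.Helper26.SH

open Helper49.LT hiding sg s3
open Helper56.RC (fc)
open Helper49.Sharp
open Pool.Agent.Helper43.SH
open Pool.Agent.Helper33.SH
open Pool.Agent.Helper33.GL (TailL RB)
open Pool.Agent.Helper20.RC (lk lk_ge lk_sq)
open Pool.Agent.Helper27.SH (P2 evR okL evR_nonneg N2 evN ofP ofP_le GE GEK)
open Pool.Agent.Helper33.GM (evR_nil evR_cons evR_append mul1 evR_mul1 mulR evR_mulR)

variable {A : ℝ} {B : ℂ}

/-- the tail list -/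
def Ptl : P2 := mul1 0 0 (223 / 100) (powY 4)

theorem Ptl_ev (A y : ℝ) : evR A y Ptl = 223 / 100 * (A + 8 / 5 * y) ^ 4 := by
  unfold Ptl
  rw [evR_mul1, evR_powY]
  push_cast
  ring

/-- the bound of the value -/
def TT : P2 := [(4, 0, 217 / 25), (3, 1, 431 / 100), (2, 2, 4011 / 50), (1, 3, 1147 / 25), (0, 4, 99 / 4)]
/-- the bound of the linear part -/
def TG : P2 := [(4, 0, 447 / 1250), (3, 1, 229 / 1000), (2, 2, 16317 / 5000), (1, 3, 1217 / 625), (0, 4, 2063 / 2000)]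

def rowsT : List (ℚ × P2) := [(1 / 143, S12), (1 / 195, S14), (1 / 255, S16), (1 / 323, S18), (1 / 399, S20), (1 / 483, S22), (1 / 575, S24), (1 / 675, S26), (1 / 783, S28), (1 / 899, S30), (1, Ptl)]
def rowsG : List (ℚ × P2) := [(1 / 143, (1, 3, 11 / 25) :: mul1 0 0 (1 / 24) S12), (1 / (576 * 195), S14), (1 / (576 * 255), S16), (1 / (576 * 323), S18), (1 / (576 * 399), S20), (1 / (576 * 483), S22), (1 / (576 * 575), S24), (1 / (576 * 675), S26), (1 / (576 * 783), S28), (1 / (576 * 899), S30), (1 / 576, Ptl)]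

theorem chkT : chkP rowsT TT = true := by decide +kernel
theorem chkG : chkP rowsG TG = true := by decide +kernel

/-! ### the sums -/

theorem z0_of {A : ℝ} {B : ℂ} (hA : 0 ≤ A) (h : ¬ 0 < A + 8 / 5 * ‖B‖) : A = 0 ∧ ‖B‖ = 0 := by
  have hB := norm_nonneg B
  constructor <;> linarith

theorem sumP {L : List (ℚ × P2)} {P : P2} (h : chkP L P = true) (hA : 0 ≤ A)
    (h0 : (L.map fun x => (x.1 : ℝ) * evR 0 0 x.2 ^ 2).sum = 0) :
    (L.map fun x => (x.1 : ℝ) * evR A ‖B‖ x.2 ^ 2).sum ≤ evR A ‖B‖ P ^ 2 := by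
  by_cases hX : 0 < A + 8 / 5 * ‖B‖
  · exact chkP_ok h hA (norm_nonneg B) hX
  · obtain ⟨h1, h2⟩ := z0_of hA hX
    rw [h1, h2, h0]
    positivity

theorem zeroT : (rowsT.map fun x => (x.1 : ℝ) * evR 0 0 x.2 ^ 2).sum = 0 := by
  simp only [rowsT, List.map_cons, List.sum_cons, List.map_nil, List.sum_nil, Ptl_ev]
  simp [evR, S12, S14, S16, S18, S20, S22, S24, S26, S28, S30]

theorem zeroG : (rowsG.map fun x => (x.1 : ℝ) * evR 0 0 x.2 ^ 2).sum = 0 := by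
  simp only [rowsG, List.map_cons, List.sum_cons, List.map_nil, List.sum_nil, Ptl_ev]
  simp [evR, mul1, S12, S14, S16, S18, S20, S22, S24, S26, S28, S30]

theorem fsq {x y w q : ℝ} (hx : 0 ≤ x) (h : x ≤ y) (hw : 0 < q) (hq : w = 1 / q) : x ^ 2 / q ≤ w * y ^ 2 := by
  rw [hq, div_mul_eq_mul_div, one_mul]
  exact div_le_div_of_nonneg_right (pow_le_pow_left₀ hx h 2) hw.le

theorem lkn (k : ℕ) : lk k ^ 2 - 1 = (2 * (k : ℝ) + 2) ^ 2 - 1 := rfl

/-- THE AXIAL MOMENTS `l ≥ 12` OF THE BASE, finite sums -/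
theorem sumT (c : ZC) (hρ : 100 ≤ c.rho) (hm : c.lam ≤ c.m) (hA : 0 ≤ A) (hX : A + 8 / 5 * ‖B‖ ≤ 1 / 12) (n : ℕ) :
    ∑ k ∈ Finset.range n, ‖(PI c A B).eA (b0I A B) (z0I A B) (k + 5)‖ ^ 2 / (lk (k + 5) ^ 2 - 1) ≤
      evR A ‖B‖ TT ^ 2 := by
  have hB := norm_nonneg B
  obtain ⟨f, hf⟩ : ∃ f : ℕ → ℝ, f = fun k => ‖(PI c A B).eA (b0I A B) (z0I A B) (k + 5)‖ ^ 2 / (lk (k + 5) ^ 2 - 1) :=
    ⟨_, rfl⟩
  have hf0 : ∀ k, 0 ≤ f k := by
    intro k
    rw [hf]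
    have := lk_sq (k + 5)
    positivity
  have hS : ∀ n, ∑ k ∈ Finset.range n, f (10 + k) ≤ evR A ‖B‖ Ptl ^ 2 := by
    intro n
    rw [Ptl_ev]
    refine le_trans (le_of_eq ?_) (sum32b c hρ hm hA hX n)
    refine Finset.sum_congr rfl fun k _ => ?_
    rw [hf]
    simp only
    rw [show 10 + k + 5 = k + 15 by omega]
  have h1 := sum_split hf0 hS n
  have hn : ∑ k ∈ Finset.range n, f k = ∑ k ∈ Finset.range n,
      ‖(PI c A B).eA (b0I A B) (z0I A B) (k + 5)‖ ^ 2 / (lk (k + 5) ^ 2 - 1) := by rw [hf]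
  rw [hn] at h1
  refine h1.trans (le_trans ?_ (sumP chkT hA zeroT))
  simp only [rowsT, List.map_cons, List.sum_cons, List.map_nil, List.sum_nil, add_zero]
  rw [hf]
  simp only
  refine add_le_add (fsq (norm_nonneg _) (s12_le c hA hX) (lk_sq _) (by rw [lkn]; norm_num)) ?_
  refine add_le_add (fsq (norm_nonneg _) (s14_le c hA hX) (lk_sq _) (by rw [lkn]; norm_num)) ?_
  refine add_le_add (fsq (norm_nonneg _) (s16_le c hA hX) (lk_sq _) (by rw [lkn]; norm_num)) ?_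
  refine add_le_add (fsq (norm_nonneg _) (s18_le c hA hX) (lk_sq _) (by rw [lkn]; norm_num)) ?_
  refine add_le_add (fsq (norm_nonneg _) (s20_le c hA hX) (lk_sq _) (by rw [lkn]; norm_num)) ?_
  refine add_le_add (fsq (norm_nonneg _) (s22_le c hA hX) (lk_sq _) (by rw [lkn]; norm_num)) ?_
  refine add_le_add (fsq (norm_nonneg _) (s24_le c hA hX) (lk_sq _) (by rw [lkn]; norm_num)) ?_
  refine add_le_add (fsq (norm_nonneg _) (s26_le c hA hX) (lk_sq _) (by rw [lkn]; norm_num)) ?_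
  refine add_le_add (fsq (norm_nonneg _) (s28_le c hA hX) (lk_sq _) (by rw [lkn]; norm_num)) ?_
  refine add_le_add (fsq (norm_nonneg _) (s30_le c hA hX) (lk_sq _) (by rw [lkn]; norm_num)) ?_
  push_cast
  rw [one_mul]

/-- THE AXIAL MOMENTS `l ≥ 12` OF THE BASE -/
theorem tsumT (c : ZC) (hρ : 100 ≤ c.rho) (hm : c.lam ≤ c.m) (hA : 0 ≤ A) (hX : A + 8 / 5 * ‖B‖ ≤ 1 / 12) :
    ∑' k : ℕ, ‖(PI c A B).eA (b0I A B) (z0I A B) (k + 5)‖ ^ 2 / (lk (k + 5) ^ 2 - 1) ≤ evR A ‖B‖ TT ^ 2 :=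
  Real.tsum_le_of_sum_range_le (fun k => by have := lk_sq (k + 5); positivity) (sumT c hρ hm hA hX)

/-- THE ROWS `l ≥ 12` OF THE LINEAR PART -/
theorem sumG (c : ZC) (hρ : 100 ≤ c.rho) (hm : c.lam ≤ c.m) (hA : 0 ≤ A) (hX : A + 8 / 5 * ‖B‖ ≤ 1 / 12) (n : ℕ) :
    ∑ k ∈ Finset.range n, ‖qB (PI c A B) (b0I A B) (z0I A B) (k + 5)‖ ^ 2 / (lk (k + 5) ^ 2 - 1) ≤
      evR A ‖B‖ TG ^ 2 := by
  have hB := norm_nonneg B
  have hq : ∀ k, 6 ≤ k → ‖qB (PI c A B) (b0I A B) (z0I A B) k‖ ^ 2 = 1 / 576 * ‖(PI c A B).eA (b0I A B) (z0I A B) k‖ ^ 2 :=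
    fun k hk => qB_eq (Pool.Agent.Helper35.Cas.Hk_far c A B k hk) rfl
  have hq5 : ‖qB (PI c A B) (b0I A B) (z0I A B) 5‖ ≤ evR A ‖B‖ ((1, 3, 11 / 25) :: mul1 0 0 (1 / 24) S12) := by
    rw [evR_cons, evR_mul1]
    have h12 := s12_le (A := A) (B := B) c hA hX
    unfold qB
    rw [Pool.Agent.Helper35.Cas.H12_ev c A B]
    have e1 : ‖-(11 / 25) * (A : ℂ) * (starRingEnd ℂ) B ^ 3‖ = 11 / 25 * (A * ‖B‖ ^ 3) := by
      rw [norm_mul, norm_mul, norm_neg, norm_pow, Complex.norm_conj, Complex.norm_real, Real.norm_of_nonneg hA]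
      have : ‖(11 / 25 : ℂ)‖ = 11 / 25 := by
        have h : (11 / 25 : ℂ) = ((11 / 25 : ℝ) : ℂ) := by push_cast; rfl
        rw [h, Complex.norm_real, Real.norm_of_nonneg (by norm_num)]
      rw [this]
      ring
    have e2 : ‖(((PI c A B).nu / 2 : ℝ) : ℂ) * (PI c A B).eA (b0I A B) (z0I A B) 5‖ =
        1 / 24 * ‖(PI c A B).eA (b0I A B) (z0I A B) 5‖ := by
      rw [norm_mul, Complex.norm_real]
      have : (PI c A B).nu = 1 / 12 := rfl
      rw [this, Real.norm_of_nonneg (by norm_num)]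
      norm_num
    refine (norm_sub_le _ _).trans ?_
    rw [e1, e2]
    push_cast
    simp only [pow_zero, pow_one, mul_one]
    linarith
  obtain ⟨f, hf⟩ : ∃ f : ℕ → ℝ, f = fun k => ‖qB (PI c A B) (b0I A B) (z0I A B) (k + 5)‖ ^ 2 / (lk (k + 5) ^ 2 - 1) :=
    ⟨_, rfl⟩
  have hf0 : ∀ k, 0 ≤ f k := by
    intro k
    rw [hf]
    have := lk_sq (k + 5)
    positivity
  have hfk : ∀ k, 1 ≤ k → f k = 1 / 576 * (‖(PI c A B).eA (b0I A B) (z0I A B) (k + 5)‖ ^ 2 / (lk (k + 5) ^ 2 - 1)) := by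
    intro k hk
    rw [hf]
    simp only
    rw [hq (k + 5) (by omega), mul_div_assoc]
  have hS : ∀ n, ∑ k ∈ Finset.range n, f (10 + k) ≤ 1 / 576 * evR A ‖B‖ Ptl ^ 2 := by
    intro n
    rw [Ptl_ev]
    have h3 := sum32b (A := A) (B := B) c hρ hm hA hX n
    have h4 : ∑ k ∈ Finset.range n, f (10 + k) = 1 / 576 * ∑ k ∈ Finset.range n,
        ‖(PI c A B).eA (b0I A B) (z0I A B) (k + 15)‖ ^ 2 / (lk (k + 15) ^ 2 - 1) := by
      rw [Finset.mul_sum]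
      refine Finset.sum_congr rfl fun k _ => ?_
      rw [hfk (10 + k) (by omega), show 10 + k + 5 = k + 15 by omega]
    rw [h4]
    linarith
  have h1 := sum_split hf0 hS n
  have hn : ∑ k ∈ Finset.range n, f k = ∑ k ∈ Finset.range n,
      ‖qB (PI c A B) (b0I A B) (z0I A B) (k + 5)‖ ^ 2 / (lk (k + 5) ^ 2 - 1) := by rw [hf]
  have h2 : f 0 ≤ 1 / 143 * evR A ‖B‖ ((1, 3, 11 / 25) :: mul1 0 0 (1 / 24) S12) ^ 2 := by
    rw [hf]
    exact fsq (norm_nonneg _) hq5 (lk_sq _) (by rw [lkn]; norm_num)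
  have hrow : ∀ (k : ℕ) (S : P2) (w : ℝ), 1 ≤ k → ‖(PI c A B).eA (b0I A B) (z0I A B) (k + 5)‖ ≤ evR A ‖B‖ S →
      576 * w = 1 / (lk (k + 5) ^ 2 - 1) → f k ≤ w * evR A ‖B‖ S ^ 2 := by
    intro k S w hk he hw
    rw [hfk k hk]
    have := fsq (norm_nonneg _) he (lk_sq (k + 5)) hw
    linarith
  rw [hn] at h1
  refine h1.trans (le_trans ?_ (sumP chkG hA zeroG))
  simp only [rowsG, List.map_cons, List.sum_cons, List.map_nil, List.sum_nil, add_zero]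
  push_cast
  refine add_le_add h2 ?_
  refine add_le_add (hrow 1 S14 _ (by norm_num) (s14_le c hA hX) (by rw [lkn]; norm_num)) ?_
  refine add_le_add (hrow 2 S16 _ (by norm_num) (s16_le c hA hX) (by rw [lkn]; norm_num)) ?_
  refine add_le_add (hrow 3 S18 _ (by norm_num) (s18_le c hA hX) (by rw [lkn]; norm_num)) ?_
  refine add_le_add (hrow 4 S20 _ (by norm_num) (s20_le c hA hX) (by rw [lkn]; norm_num)) ?_
  refine add_le_add (hrow 5 S22 _ (by norm_num) (s22_le c hA hX) (by rw [lkn]; norm_num)) ?_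
  refine add_le_add (hrow 6 S24 _ (by norm_num) (s24_le c hA hX) (by rw [lkn]; norm_num)) ?_
  refine add_le_add (hrow 7 S26 _ (by norm_num) (s26_le c hA hX) (by rw [lkn]; norm_num)) ?_
  refine add_le_add (hrow 8 S28 _ (by norm_num) (s28_le c hA hX) (by rw [lkn]; norm_num)) ?_
  exact add_le_add (hrow 9 S30 _ (by norm_num) (s30_le c hA hX) (by rw [lkn]; norm_num)) le_rfl

/-! ### the tail of the linear part -/

/-- the five error lists -/
def gTL : GE := ⟨[], [], [], ofP (mul1 0 0 (588 / 125) TG), ofP (mul1 0 0 (948 / 125) TG),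
  ofP (mul1 0 0 (333 / 50) TG), ofP (mul1 0 0 24 TG), ofP (mul1 0 0 (197 / 20) TG)⟩

theorem gTL_ok : gTL.ok = true := by decide +kernel

theorem okTG : okL 0 TG = true := by decide +kernel

theorem sqrt_Np {f : ℝ → ℝ} (h : BR f) :
    Real.sqrt ((mean fun t => f t ^ 2) - 2 * ‖fc (fun t => (f t : ℂ)) 2‖ ^ 2) = Np f := by
  rw [← N2_sq, N2_split h, add_sub_cancel_right]
  exact Real.sqrt_sq (N2_nonneg _)

/-- THE TAIL OF THE LINEAR PART, in the format of the budget -/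
theorem tailL_GEK (c : ZC) (hρ : 100 ≤ c.rho) (hm : c.lam ≤ c.m) (hA : 0 ≤ A) (hX : A + 8 / 5 * ‖B‖ ≤ 1 / 12)
    {β ρ : ℝ → ℂ} (h : RB β ρ) :
    GEK A B gTL (fc ρ) (fc fun t => ((β t).re : ℂ)) (fc fun t => ((β t).im : ℂ)) (mean fun t => ‖ρ t‖ ^ 2)
      (mean fun t => (β t).re ^ 2) (mean fun t => (β t).im ^ 2) (TailL (PI c A B) (b0I A B) (z0I A B) β ρ) := by
  have hB := norm_nonneg B
  obtain ⟨C, hb⟩ := h.bb
  have hT : 0 ≤ evR A ‖B‖ TG := evR_nonneg okTG hA hB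
  have h1 := tailL10 (P := PI c A B) (bs := b0I A B) (zs := z0I A B) h (wok20 c hA (by linarith)) rfl rfl hT
    (sumG c hρ hm hA hX)
  have m1 : ∀ q : ℚ, evR A ‖B‖ (mul1 0 0 q TG) = (q : ℝ) * evR A ‖B‖ TG := by
    intro q
    rw [evR_mul1, pow_zero, pow_zero, mul_one, mul_one]
  have z1 := ofP_le hA hB (mul1 0 0 (588 / 125) TG)
  have z2 := ofP_le hA hB (mul1 0 0 (948 / 125) TG)
  have z3 := ofP_le hA hB (mul1 0 0 (333 / 50) TG)
  have z4 := ofP_le hA hB (mul1 0 0 24 TG)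
  have z5 := ofP_le hA hB (mul1 0 0 (197 / 20) TG)
  rw [m1] at z1 z2 z3 z4 z5
  push_cast at z1 z2 z3 z4 z5
  have n1 : 0 ≤ N2 fun t => ‖ρ t‖ := N2_nonneg _
  have n2 : 0 ≤ Np fun t => (β t).re := N2_nonneg _
  have n3 : 0 ≤ Np fun t => (β t).im := N2_nonneg _
  have n4 := norm_nonneg (fc (fun t => ((β t).re : ℂ)) 2)
  have n5 := norm_nonneg (fc (fun t => ((β t).im : ℂ)) 2)
  unfold GEK gTL
  simp only [Pool.Agent.Helper27.SH.rsum_nil, add_zero, sub_zero]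
  rw [sqrt_Np (BR.re hb), sqrt_Np (BR.im hb)]
  have e0 : Real.sqrt (mean fun t => ‖ρ t‖ ^ 2) = N2 fun t => ‖ρ t‖ := rfl
  rw [e0]
  refine h1.trans ?_
  have y1 := mul_le_mul_of_nonneg_right z1 n1
  have y2 := mul_le_mul_of_nonneg_right z2 n2
  have y3 := mul_le_mul_of_nonneg_right z3 n4
  have y4 := mul_le_mul_of_nonneg_right z4 n3
  have y5 := mul_le_mul_of_nonneg_right z5 n5
  nlinarith [y1, y2, y3, y4, y5]

end Pool.Agent.Helper26.SH
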